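import Pool.Agent.H92.G.LamAP
import Pool.Graph.R_seed8.H379R2.SW1
import Pool.Graph.R_seed8.H307R2.Sg6

set_option autoImplicit false

/-! Real Dirichlet characters as functions on the integers. -/

open Finset Filter Topology

namespace Pool.Agent.H92.G

open Pool.Agent.H379R2.SW

theorem real_vals {f : ℕ} (ψ : DirichletCharacter ℂ f) (h : ψ ^ 2 = 1) (n : ℕ) :
    (n.Coprime f → ψ (n : ZMod f) = 1 ∨ ψ (n : ZMod f) = -1) ∧ (¬ n.Coprime f → ψ (n : ZMod f) = 0) := by
  constructor
  · intro hn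
    have ha : IsUnit (n : ZMod f) := (ZMod.isUnit_iff_coprime n f).2 hn
    have h1 : (ψ ^ 2) (n : ZMod f) = 1 := by rw [h]; exact MulChar.one_apply ha
    rw [MulChar.pow_apply' _ two_ne_zero] at h1
    have h2 : (ψ (n : ZMod f) - 1) * (ψ (n : ZMod f) + 1) = 0 := by linear_combination h1
    rcases mul_eq_zero.1 h2 with h3 | h3
    · left; linear_combination h3
    · right; linear_combination h3
  · intro hn
    apply MulChar.map_nonunit
    rw [ZMod.isUnit_iff_coprime]
    exact hn

theorem chr_of {f : ℕ} [NeZero f] (ψ : DirichletCharacter ℂ f) (hψ : ψ ≠ 1) (h2 : ψ ^ 2 = 1) :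
    ∃ χ : ℕ → ℝ, Chr f χ ∧ (∀ n : ℕ, ψ (n : ZMod f) = (χ n : ℂ)) ∧ Tends χ ‖ψ.LFunction 1‖ := by
  classical
  obtain ⟨χ, hχ⟩ : ∃ χ : ℕ → ℝ, χ = fun n : ℕ => (ψ (n : ZMod f)).re := ⟨_, rfl⟩
  have hre : ∀ n : ℕ, ψ (n : ZMod f) = (χ n : ℂ) := by
    intro n
    rw [hχ]
    simp only []
    by_cases hn : n.Coprime f
    · rcases (real_vals ψ h2 n).1 hn with h | h <;> simp only [h] <;> simp
    · simp only [(real_vals ψ h2 n).2 hn]; simp
  have hsum0 : ∑ j, ψ j = 0 := MulChar.sum_eq_zero_of_ne_one hψ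
  have hblock : ∀ m : ℕ, ∑ j ∈ range f, χ (m * f + 1 + j) = 0 := by
    intro m
    have h1 := sum_block (fun x => ψ x) m
    rw [hsum0] at h1
    have h3 : ((∑ j ∈ range f, χ (m * f + 1 + j) : ℝ) : ℂ) = 0 := by
      rw [← h1]
      push_cast
      apply sum_congr rfl
      intro j _
      rw [← hre]
      push_cast
      rfl
    exact_mod_cast h3
  have habs : ∀ n, |χ n| ≤ 1 := by
    intro n
    have h1 := hre n
    by_cases hn : n.Coprime f
    · rcases (real_vals ψ h2 n).1 hn with h | h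
      · rw [h] at h1
        have : χ n = 1 := by exact_mod_cast h1.symm
        rw [this]; norm_num
      · rw [h] at h1
        have : χ n = -1 := by exact_mod_cast h1.symm
        rw [this]; norm_num
    · rw [(real_vals ψ h2 n).2 hn] at h1
      have : χ n = 0 := by exact_mod_cast h1.symm
      rw [this]; norm_num
  have hmulti : ∀ m : ℕ, ∑ d ∈ Icc 1 (m * f), χ d = 0 := by
    intro m
    induction m with
    | zero => simp
    | succ m ih =>
      have h1 : (m + 1) * f = m * f + f := by ring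
      rw [h1, Icc_split (Nat.le_add_right _ _), ih, zero_add]
      rw [← hblock m]
      symm
      apply sum_bij (fun j _ => m * f + 1 + j)
      · intro j hj
        rw [mem_range] at hj
        rw [mem_Ioc]
        omega
      · intro j _ j' _ h
        omega
      · intro d hd
        rw [mem_Ioc] at hd
        exact ⟨d - (m * f + 1), by rw [mem_range]; omega, by omega⟩
      · intro j _
        rfl
  have hpb : PB χ f := by
    intro D
    have h1 : D = D / f * f + D % f := by rw [mul_comm]; exact (Nat.div_add_mod D f).symm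
    have hf0 : 0 < f := Nat.pos_of_ne_zero (NeZero.ne f)
    rw [h1, Icc_split (Nat.le_add_right _ _), hmulti, zero_add]
    refine (abs_sum_le_sum_abs _ _).trans ?_
    calc ∑ d ∈ Ioc (D / f * f) (D / f * f + D % f), |χ d| ≤ ∑ _d ∈ Ioc (D / f * f) (D / f * f + D % f), (1 : ℝ) :=
          sum_le_sum fun d _ => habs d
      _ = ((D % f : ℕ) : ℝ) := by
          rw [sum_const, Nat.card_Ioc, nsmul_eq_mul, mul_one, Nat.add_sub_cancel_left]
      _ ≤ f := by exact_mod_cast (Nat.mod_lt D hf0).le
  have hchr : Chr f χ := by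
    refine ⟨?_, ?_, ?_, ?_, ?_, hpb⟩
    · have h1 := hre 1
      rw [Nat.cast_one, map_one] at h1
      exact_mod_cast h1.symm
    · intro m n
      have h1 : ((χ (m * n) : ℝ) : ℂ) = ((χ m * χ n : ℝ) : ℂ) := by
        rw [← hre]
        push_cast
        rw [← hre, ← hre, map_mul]
      exact_mod_cast h1
    · intro m n h
      have h1 : ((χ m : ℝ) : ℂ) = ((χ n : ℝ) : ℂ) := by
        rw [← hre, ← hre, (ZMod.natCast_eq_natCast_iff m n f).2 h]
      exact_mod_cast h1
    · intro n hn
      have h1 := hre n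
      rcases (real_vals ψ h2 n).1 hn with h | h
      · rw [h] at h1
        left
        exact_mod_cast h1.symm
      · rw [h] at h1
        right
        exact_mod_cast h1.symm
    · intro n hn
      have h1 := hre n
      rw [(real_vals ψ h2 n).2 hn] at h1
      exact_mod_cast h1.symm
  refine ⟨χ, hchr, hre, ?_⟩
  obtain ⟨S, hS⟩ := Tends_exists hpb
  -- the sum
  have hnorm : ∀ j, ‖(fun x => ψ x) j‖ ≤ 1 := fun j => DirichletCharacter.norm_le_one ψ j
  have hL : ψ.LFunction 1 = ∑' m, blk (fun x => ψ x) m 1 :=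
    LFunction_eq_tsum (fun x => ψ x) hnorm hsum0 (s := 1) (by norm_num)
  have hsm := (summable_blk (fun x => ψ x) hnorm hsum0 (s := 1) (by norm_num)).hasSum.tendsto_sum_nat
  rw [← hL] at hsm
  have hpart : ∀ M : ℕ, ∑ m ∈ range M, blk (fun x => ψ x) m 1 = ((∑ d ∈ Icc 1 (M * f), χ d / d : ℝ) : ℂ) := by
    intro M
    rw [← partial_sum_eq, sum_range_succ']
    rw [LSeries.term_zero, add_zero]
    push_cast
    have h3 : Icc 1 (M * f) = (range (M * f)).image (fun n => n + 1) := by
      ext d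
      rw [mem_Icc, mem_image]
      constructor
      · intro h
        exact ⟨d - 1, by rw [mem_range]; omega, by omega⟩
      · rintro ⟨n, hn, rfl⟩
        rw [mem_range] at hn
        omega
    rw [h3, sum_image (fun x _ y _ h => by simpa using h)]
    apply sum_congr rfl
    intro n _
    rw [LSeries.term_of_ne_zero (by omega), ← hre]
    push_cast
    rw [Complex.cpow_one]
  have hS2 : Tendsto (fun M : ℕ => ((∑ d ∈ Icc 1 (M * f), χ d / d : ℝ) : ℂ)) atTop (𝓝 (S : ℂ)) := by
    have h1 : Tendsto (fun M : ℕ => M * f) atTop atTop :=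
      tendsto_id.atTop_mul_const' (Nat.pos_of_ne_zero (NeZero.ne f))
    exact (Complex.continuous_ofReal.tendsto S).comp (hS.comp h1)
  have hSL : ψ.LFunction 1 = (S : ℂ) := by
    refine tendsto_nhds_unique hsm ?_
    simp only [hpart]
    exact hS2
  -- the sign
  have hS0 : 0 ≤ S := by
    by_contra hneg
    push Not at hneg
    have hf0 : 0 < f := Nat.pos_of_ne_zero (NeZero.ne f)
    have hfr : (0 : ℝ) < f := by exact_mod_cast hf0
    have key : ∀ N : ℕ, 2 * (N : ℝ) * (-S) ≤ 17 * (f : ℝ) ^ 2 * ((Nat.sqrt (f * N + 1) : ℝ) + 1) := by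
      intro N
      have h1 := lam_ap hchr hS hf0 dvd_rfl (b := 1) (Nat.coprime_one_right f) (by omega) hchr.one ∅ (by simp) 0 N
      rw [prod_empty, empty_union] at h1
      have h3 : ∏ p ∈ f.primeFactors, (1 + (cc f 1 0 p - 1) * χ p / p) = 1 := by
        apply prod_eq_one
        intro p hp
        have h4 : χ p = 0 := by
          apply hchr.zero
          intro hc
          have h5 := Nat.dvd_of_mem_primeFactors hp
          have h6 := Nat.Coprime.eq_one_of_dvd hc h5
          exact (Nat.prime_of_mem_primeFactors hp).one_lt.ne' h6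
        rw [h4, mul_zero, zero_div, add_zero]
      rw [h3, Nat.cast_one, div_one, mul_one] at h1
      have h4 := (abs_le.1 h1).2
      have h5 : 0 ≤ ∑ n ∈ (Icc 1 N).filter (fun n => n ≡ 0 [MOD 1]), lam χ (f * n + 1) :=
        sum_nonneg fun n _ => lam_nonneg hchr _
      linarith
    -- choose `N`
    obtain ⟨m, hm⟩ := exists_nat_gt ((17 * (f : ℝ) ^ 2 * (f + 2)) / (-S))
    have hnS : 0 < -S := by linarith
    have h1 := key (m * m)
    have h2 : (Nat.sqrt (f * (m * m) + 1) : ℝ) ≤ f * m + 1 := by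
      have h3 : Nat.sqrt (f * (m * m) + 1) ≤ f * m + 1 := by
        have h4 : f * (m * m) + 1 ≤ (f * m + 1) * (f * m + 1) := by
          have h5 : f * (m * m) ≤ f * m * (f * m) := by
            calc f * (m * m) = f * 1 * (m * m) := by ring
              _ ≤ f * f * (m * m) := Nat.mul_le_mul_right _ (Nat.mul_le_mul_left _ hf0)
              _ = f * m * (f * m) := by ring
          have h6 : (f * m + 1) * (f * m + 1) = f * m * (f * m) + 2 * (f * m) + 1 := by ring
          omega
        calc Nat.sqrt (f * (m * m) + 1) ≤ Nat.sqrt ((f * m + 1) * (f * m + 1)) := Nat.sqrt_le_sqrt h4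
          _ = _ := Nat.sqrt_eq _
      exact_mod_cast h3
    have hm0 : (0 : ℝ) < m := by
      refine lt_of_le_of_lt ?_ hm
      positivity
    have hm1 : (1 : ℝ) ≤ m := by
      have : 0 < m := by exact_mod_cast hm0
      exact_mod_cast this
    rw [div_lt_iff₀ hnS] at hm
    push_cast at h1
    have h3 : 17 * (f : ℝ) ^ 2 * ((Nat.sqrt (f * (m * m) + 1) : ℝ) + 1) ≤ 17 * (f : ℝ) ^ 2 * ((f + 2) * m) := by
      apply mul_le_mul_of_nonneg_left _ (by positivity)
      have : (f : ℝ) * m + 1 + 1 ≤ (f + 2) * m := by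
        have : ((f : ℝ) + 2) * m = f * m + 2 * m := by ring
        linarith
      linarith
    have h4 : 17 * (f : ℝ) ^ 2 * ((f + 2) * m) < m * (-S) * m := by
      calc 17 * (f : ℝ) ^ 2 * ((f + 2) * m) = 17 * (f : ℝ) ^ 2 * (f + 2) * m := by ring
        _ < m * (-S) * m := mul_lt_mul_of_pos_right hm hm0
    have h5 : 0 < (m : ℝ) * (-S) * m := by positivity
    have h6 : 2 * ((m : ℝ) * m) * (-S) = 2 * (m * (-S) * m) := by ring
    linarith
  rw [hSL, Complex.norm_real, Real.norm_of_nonneg hS0]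
  exact hS

/-- lower bound for the value at `1` -/
theorem L_low : ∃ c : ℝ, 0 < c ∧ ∀ (f : ℕ) [NeZero f] (ψ : DirichletCharacter ℂ f), ψ.IsPrimitive → ψ ^ 2 = 1 → ψ ≠ 1 →
    c / f ≤ ‖ψ.LFunction 1‖ := by
  obtain ⟨c, hc, h⟩ := Pool.Agent.H307R2.siegel 1 one_pos
  refine ⟨c, hc, fun f _ ψ h1 h2 h3 => ?_⟩
  have h4 := h f ψ h1 h2 h3
  rw [Real.rpow_neg (Nat.cast_nonneg f), Real.rpow_one] at h4
  exact h4

end Pool.Agent.H92.G
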