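import Mathlib
import Pool.Graph.R_pool_sql_team_seeded_f0cf7b00.H262R3.Lk.All

set_option autoImplicit false

/-! The exceptional modulus at a free level, and the primes at which its character is `1`. -/

open Finset Filter Topology

namespace Pool.Agent.H92.G

open Pool.Agent.H262R3.Lk
open Pool.Agent.H318R2.Cr (Rgh V)

theorem sum_le_prod (S : Finset ℕ) (x : ℕ → ℝ) (hx : ∀ p ∈ S, 0 ≤ x p) : 1 + ∑ p ∈ S, x p ≤ ∏ p ∈ S, (1 + x p) := by
  classical
  induction S using Finset.induction_on with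
  | empty => simp
  | insert p S hp ih =>
    rw [sum_insert hp, prod_insert hp]
    have h1 := ih fun q hq => hx q (mem_insert_of_mem hq)
    have h2 := hx p (mem_insert_self _ _)
    have h3 : 0 ≤ ∑ q ∈ S, x q := sum_nonneg fun q hq => hx q (mem_insert_of_mem hq)
    have h4 : 0 ≤ x p * ∑ q ∈ S, x q := mul_nonneg h2 h3
    have h5 := mul_le_mul_of_nonneg_left h1 (show 0 ≤ 1 + x p by linarith)
    linarith

theorem xval {p : ℕ} (hp : p.Prime) {σ : ℝ} (hσ : 0 < σ) :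
    0 < (p : ℝ) ^ (-(1 + σ)) ∧ (p : ℝ) ^ (-(1 + σ)) < 1 ∧ (p : ℂ) ^ (-(1 + σ : ℂ)) = (((p : ℝ) ^ (-(1 + σ)) : ℝ) : ℂ) := by
  refine ⟨Real.rpow_pos_of_pos (by exact_mod_cast hp.pos) _,
    Real.rpow_lt_one_of_one_lt_of_neg (by exact_mod_cast hp.one_lt) (by linarith), ?_⟩
  rw [Complex.ofReal_cpow (by positivity)]
  push_cast
  rfl

/-- the primes at which a real character is `1` -/
theorem one_primes {z f : ℕ} (hz : 32 ≤ z) (hf : 0 < f) (hfz : f ≤ z) (ψ : DirichletCharacter ℂ f) (h2 : ψ ^ 2 = 1)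
    {σ : ℝ} (hσ : 0 < σ) (S : Finset ℕ) (hS : ∀ p ∈ S, p.Prime ∧ z < p ∧ ψ (p : ZMod f) = 1) :
    1 + ∑ p ∈ S, (p : ℝ) ^ (-(1 + σ)) ≤ ‖Lj z (1 : DirichletCharacter ℂ f) 0 σ‖ * ‖Lj z ψ 0 σ‖ := by
  classical
  rw [EUL.Lj_eq hf hfz hz, EUL.Lj_eq hf hfz hz]
  have hsq : (EUL.ext z ψ) ^ 2 = 1 := by
    unfold EUL.ext
    rw [← map_pow, h2, map_one]
  have hone : EUL.ext z (1 : DirichletCharacter ℂ f) = 1 := EUL.ext_one z f
  rw [hone]
  have hex : ∀ᶠ n : ℕ in atTop, ∀ p ∈ S, p < n := by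
    filter_upwards [eventually_gt_atTop (S.sup id)] with n hn p hp
    exact lt_of_le_of_lt (Finset.le_sup (f := id) hp) hn
  refine ge_of_tendsto ((EUL.tendsto_fac 1 hσ).mul (EUL.tendsto_fac (EUL.ext z ψ) hσ)) ?_
  filter_upwards [hex] with n hn
  rw [← Finset.prod_mul_distrib]
  have hSn : S ⊆ Nat.primesBelow n := fun p hp => Nat.mem_primesBelow.2 ⟨hn p hp, (hS p hp).1⟩
  have e1 : ∏ p ∈ S, (1 + (p : ℝ) ^ (-(1 + σ))) =
      ∏ p ∈ Nat.primesBelow n, (if p ∈ S then 1 + (p : ℝ) ^ (-(1 + σ)) else 1) := by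
    rw [Finset.prod_ite_mem, Finset.inter_eq_right.2 hSn]
  refine (sum_le_prod S _ (fun p hp => (xval (hS p hp).1 hσ).1.le)).trans ?_
  rw [e1]
  apply Finset.prod_le_prod
  · intro p hp
    have := (xval (Nat.mem_primesBelow.1 hp).2 hσ).1
    split_ifs <;> linarith
  · intro p hp
    have hpp : p.Prime := (Nat.mem_primesBelow.1 hp).2
    obtain ⟨h0, h1, hx⟩ := xval hpp hσ
    obtain ⟨x, hxd⟩ : ∃ x : ℝ, x = (p : ℝ) ^ (-(1 + σ)) := ⟨_, rfl⟩
    rw [← hxd] at h0 h1 hx ⊢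
    have ha := (EUL.two h0 h1).1
    have hb := (EUL.two h0 h1).2
    have hinv : 1 + x ≤ (1 - x)⁻¹ := by
      rw [← one_div, le_div_iff₀ (by linarith)]
      have : 0 ≤ x * x := by positivity
      linarith
    by_cases hu : IsUnit (p : ZMod (f * primorial z))
    · rw [EUL.fac_of_one _ σ p h1 hx (MulChar.one_apply hu)]
      by_cases hpS : p ∈ S
      · rw [if_pos hpS]
        have h3 : EUL.ext z ψ (p : ZMod (f * primorial z)) = 1 := by
          rw [← EUL.fz_eq hf hfz]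
          unfold fz
          rw [if_pos, (hS p hpS).2.2]
          intro r hr hrz hrp
          rw [Nat.prime_dvd_prime_iff_eq hr hpp] at hrp
          have := (hS p hpS).2.1
          omega
        rw [EUL.fac_of_one _ σ p h1 hx h3]
        calc 1 + x ≤ (1 - x)⁻¹ * 1 := by rw [mul_one]; exact hinv
          _ ≤ (1 - x)⁻¹ * (1 - x)⁻¹ := mul_le_mul_of_nonneg_left ha (by linarith)
      · rw [if_neg hpS]
        rcases EUL.vals _ hsq hu with h3 | h3
        · rw [EUL.fac_of_one _ σ p h1 hx h3]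
          exact one_le_mul_of_one_le_of_one_le ha ha
        · rw [EUL.fac_of_neg _ σ p h0 hx h3]
          exact hb
    · have hpS : p ∉ S := by
        intro hpS
        apply hu
        rw [ZMod.isUnit_iff_coprime]
        refine (EUL.rgh_iff hf hfz p).1 ?_
        intro r hr hrz hrp
        rw [Nat.prime_dvd_prime_iff_eq hr hpp] at hrp
        have := (hS p hpS).2.1
        omega
      rw [if_neg hpS, EUL.fac_of_zero _ σ p (MulChar.map_nonunit _ hu), EUL.fac_of_zero _ σ p (MulChar.map_nonunit _ hu)]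
      norm_num

open DirichletCharacter in
/-- the dichotomy -/
theorem lowX : ∃ G δm : ℝ, 0 < G ∧ 0 < δm ∧ δm ≤ 1 / 2 ∧ ∀ δ : ℝ, 0 < δ → δ ≤ δm → ∃ c1 : ℝ, 0 < c1 ∧
    ∀ z : ℕ, 32 ≤ z →
    (∀ f1 f2 : ℕ, LOW.Exc z δ f1 → LOW.Exc z δ f2 → f1 = f2) ∧
    (∀ q : ℕ, 1 ≤ q → q ^ 16 ≤ z → (∀ f, LOW.Exc z δ f → ¬ f ∣ q) → ∀ χ : DirichletCharacter ℂ q, χ ≠ 1 →
      ∀ σ : ℝ, 0 < σ → σ * Real.log z ≤ δ → c1 ≤ ‖Lj z χ 0 σ‖) ∧
    (∀ f : ℕ, LOW.Exc z δ f → ∃ ψ : DirichletCharacter ℂ f, ψ.IsPrimitive ∧ ψ ^ 2 = 1 ∧ ∀ S : Finset ℕ,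
      (∀ p ∈ S, p.Prime ∧ z < p ∧ δ * Real.log p ≤ Real.log z ∧ ψ (p : ZMod f) = 1) → ∑ p ∈ S, 1 / (p : ℝ) ≤ G) := by
  obtain ⟨C, hC1, hC⟩ := h_bnd
  have hC0 : 0 < C := by linarith
  obtain ⟨e, he⟩ : ∃ e : ℝ, e = 1 / (2 * C ^ 2) := ⟨_, rfl⟩
  have he0 : 0 < e := by rw [he]; positivity
  obtain ⟨δm, hδm⟩ : ∃ δm : ℝ, δm = min (e ^ 4) (min (1 / (2 * (C ^ 2 * (1 + C) ^ 2))) (1 / 2)) := ⟨_, rfl⟩
  have hδ0 : 0 < δm := by
    rw [hδm]
    apply lt_min (by positivity) (lt_min (by positivity) (by norm_num))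
  have hδe : δm ≤ e ^ 4 := by rw [hδm]; exact min_le_left _ _
  have hδC : δm ≤ 1 / (2 * (C ^ 2 * (1 + C) ^ 2)) := by
    rw [hδm]; exact (min_le_right _ _).trans (min_le_left _ _)
  have hδh : δm ≤ 1 / 2 := by rw [hδm]; exact (min_le_right _ _).trans (min_le_right _ _)
  refine ⟨3 * (C * (1 + C)), δm, by positivity, hδ0, hδh, fun δ hδ hδδ => ?_⟩
  have hδlt : C ^ 2 * (1 + C) ^ 2 * δ < 1 := by
    have h1 : C ^ 2 * (1 + C) ^ 2 * δ ≤ C ^ 2 * (1 + C) ^ 2 * (1 / (2 * (C ^ 2 * (1 + C) ^ 2))) :=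
      mul_le_mul_of_nonneg_left (hδδ.trans hδC) (by positivity)
    have h2 : C ^ 2 * (1 + C) ^ 2 * (1 / (2 * (C ^ 2 * (1 + C) ^ 2))) = 1 / 2 := by
      field_simp
    linarith
  refine ⟨min (e ^ 3 / (2 * C)) δ, lt_min (by positivity) hδ, ?_⟩
  intro z hz
  have hzr : (32:ℝ) ≤ z := by exact_mod_cast hz
  have hL1 : 1 ≤ Real.log z := by
    rw [Real.le_log_iff_exp_le (by linarith)]
    have := Real.exp_one_lt_d9
    linarith
  have hL0 : 0 < Real.log z := by linarith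
  refine ⟨fun f1 f2 h1 h2 => LOW.unique_exc h_eul hC1 hC hδ (by linarith) hδlt hz h1 h2, ?_, ?_⟩
  · intro q hq hq16 hndvd χ hχ σ hσ hσL
    have : NeZero q := ⟨by omega⟩
    by_cases hsq : χ ^ 2 = 1
    · refine (min_le_right _ _).trans ?_
      by_contra hcon
      push Not at hcon
      have hf : χ.conductor ∣ q := conductor_dvd_level χ
      have hf1 : 1 < χ.conductor := by
        have h1 : χ.conductor ≠ 0 := conductor_ne_zero χ
        have h2 : χ.conductor ≠ 1 := fun h => hχ (eq_one_iff_conductor_eq_one.mpr h)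
        omega
      have hcl : changeLevel hf χ.primitiveCharacter = χ := changeLevel_primitiveCharacter χ
      have hqz : q ≤ z := by
        calc q = q ^ 1 := (pow_one _).symm
          _ ≤ q ^ 16 := Nat.pow_le_pow_right hq (by norm_num)
          _ ≤ z := hq16
      have hLe : Lj z χ 0 σ = Lj z χ.primitiveCharacter 0 σ := by
        conv_lhs => rw [← hcl]
        exact LOW.Lj_cl hq hqz hf _ 0 σ
      have hexc : LOW.Exc z δ χ.conductor := by
        refine ⟨hf1, (Nat.pow_le_pow_left (Nat.le_of_dvd hq hf) 16).trans hq16,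
          χ.primitiveCharacter, primitiveCharacter_isPrimitive χ, ?_, σ, hσ, hσL, ?_⟩
        · apply changeLevel_injective hf
          rw [map_pow, hcl, hsq, map_one]
        · rw [← hLe]; exact hcon
      exact hndvd _ hexc hf
    · refine (min_le_left _ _).trans ?_
      exact LOW.complex_case h_eul hC1 hC he hz hq (LOW.pow8_of_pow16 hq16) χ hχ hsq hσ
        (hσL.trans (hδδ.trans hδe))
  · intro f hf
    obtain ⟨hf1, hfz, ψ, hp, hs, s, hs0, hsL, hb⟩ := hf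
    refine ⟨ψ, hp, hs, fun S hS => ?_⟩
    have : NeZero f := ⟨by omega⟩
    have hfz8 : f ^ 8 ≤ z := LOW.pow8_of_pow16 hfz
    have hfle : f ≤ z := by
      calc f = f ^ 1 := (pow_one _).symm
        _ ≤ f ^ 16 := Nat.pow_le_pow_right (by omega) (by norm_num)
        _ ≤ z := hfz
    obtain ⟨σ, hσ⟩ : ∃ σ : ℝ, σ = δ / Real.log z := ⟨_, rfl⟩
    have hσ0 : 0 < σ := by rw [hσ]; positivity
    have hσL : σ * Real.log z = δ := by rw [hσ]; field_simp
    have hbnd1 := (hC z f 1 σ hz (by omega) hfz8 hσ0 (by rw [hσL]; linarith)).2.1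
    rw [hσL] at hbnd1
    have hbndψ : ‖Lj z ψ 0 σ‖ ≤ δ * (1 + C) := by
      have h3 := (hC z f ψ σ hz (by omega) hfz8 hσ0 (by rw [hσL]; linarith)).2.2
        (LOW.primitive_ne_one hf1 hp) s hs0 (by linarith)
      have h4 : |σ - s| ≤ δ / Real.log z := by
        have h5 : s ≤ δ / Real.log z := by rw [le_div_iff₀ hL0]; exact hsL
        rw [abs_le]
        constructor <;> linarith
      have h6 : C * Real.log z * |σ - s| ≤ C * δ := by
        calc C * Real.log z * |σ - s| ≤ C * Real.log z * (δ / Real.log z) := by gcongr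
          _ = C * δ := by field_simp
      have h7 := norm_le_insert' (Lj z ψ 0 σ) (Lj z ψ 0 s)
      calc ‖Lj z ψ 0 σ‖ ≤ ‖Lj z ψ 0 s‖ + ‖Lj z ψ 0 σ - Lj z ψ 0 s‖ := h7
        _ ≤ δ + C * δ := add_le_add hb.le (h3.trans h6)
        _ = _ := by ring
    have h1 := one_primes hz (by omega) hfle ψ hs hσ0 S (fun p hp => ⟨(hS p hp).1, (hS p hp).2.1, (hS p hp).2.2.2⟩)
    have h2 : ‖Lj z (1 : DirichletCharacter ℂ f) 0 σ‖ * ‖Lj z ψ 0 σ‖ ≤ C * (1 + C) := by
      calc _ ≤ (C / δ) * (δ * (1 + C)) := by gcongr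
        _ = _ := by field_simp
    have h3 : ∀ p ∈ S, 1 / (p : ℝ) ≤ 3 * (p : ℝ) ^ (-(1 + σ)) := by
      intro p hp
      obtain ⟨hpp, hzp, hlog, _⟩ := hS p hp
      have hp0 : (0 : ℝ) < p := by exact_mod_cast hpp.pos
      have h4 : (p : ℝ) ^ σ ≤ 3 := by
        rw [Real.rpow_def_of_pos hp0]
        have h5 : Real.log p * σ ≤ 1 := by
          rw [hσ, mul_div_assoc', div_le_one hL0, mul_comm]
          exact hlog
        have h6 := Real.exp_le_exp.2 h5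
        have h7 := Real.exp_one_lt_d9
        linarith
      rw [Real.rpow_neg hp0.le, Real.rpow_add hp0, Real.rpow_one, ← div_eq_mul_inv, div_le_div_iff₀ hp0 (by positivity)]
      rw [one_mul, mul_comm (3 : ℝ)]
      exact mul_le_mul_of_nonneg_left h4 hp0.le
    calc ∑ p ∈ S, 1 / (p : ℝ) ≤ ∑ p ∈ S, 3 * (p : ℝ) ^ (-(1 + σ)) := sum_le_sum h3
      _ = 3 * ∑ p ∈ S, (p : ℝ) ^ (-(1 + σ)) := by rw [mul_sum]
      _ ≤ 3 * (C * (1 + C)) := by linarith

end Pool.Agent.H92.G
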