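import Pool.Agent.H92.G.MinB

set_option autoImplicit false

/-! The exceptional case with `χ (b i) = -1`. -/

open Finset Filter Topology

namespace Pool.Agent.H92.G

open Pool.Agent.H262R2.UM Pool.Agent.H262R2.UP
open Pool.Agent.W23.DC Pool.Agent.Y882 Pool.Agent.Y677.KU

set_option maxHeartbeats 4000000 in
theorem minus_case (k : ℕ) : ∃ (u s0 : ℕ) (ϑ : ℝ), 1 ≤ u ∧ 0 < ϑ ∧ ∀ s : ℕ, s0 ≤ s → ∀ (f : ℕ) (χ : ℕ → ℝ), Chr f χ →
    ∀ a b : Fin k → ℕ, Adm a b → (∀ j, 0 < a j ∧ b j ≤ a j) → (∀ j, 1 ≤ b j) → (∀ j, a j ≤ s) →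
    ∀ i, f ∣ a i → χ (b i) = -1 →
    ∑ r ∈ (Ioc (s ^ 16) (s ^ (50 * u))).filter (fun r => r.Prime ∧ χ r = 1), 1 / (r : ℝ) ≤ ϑ →
    ∃ n : ℕ, 1 ≤ n ∧ n ≤ s ^ (50 * u) ∧ (a i * n + b i).Prime ∧
      ∀ j, ∀ p : ℕ, p.Prime → p ∣ a j * n + b j → s < p := by
  classical
  obtain ⟨A0, F0, f0, hSF⟩ := Pool.Agent.W366.DC.SFX
  obtain ⟨C, hC1, hF⟩ := flc
  obtain ⟨bb, hbb⟩ : ∃ bb : ℕ, bb = C * (2 * k + 1) := ⟨_, rfl⟩
  have hbb1 : 1 ≤ bb := by rw [hbb]; exact Nat.mul_pos hC1 (by omega)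
  obtain ⟨z0, hz0⟩ : ∃ z0 : ℕ, z0 = C * (2 * k + 1) + 8 * k + 8 := ⟨_, rfl⟩
  obtain ⟨ZW, hZWd⟩ : ∃ ZW : Finset ℕ, ZW = Pz z0 := ⟨_, rfl⟩
  have hZWp : ∀ p ∈ ZW, p.Prime := fun p hp => by rw [hZWd] at hp; exact (mem_Pz.1 hp).2
  obtain ⟨W, hW⟩ : ∃ W : ℕ, W = ∏ p ∈ ZW, p := ⟨_, rfl⟩
  have hW0 : 0 < W := by rw [hW]; exact prod_pos fun p hp => (hZWp p hp).pos
  have hWr : (0 : ℝ) < W := by exact_mod_cast hW0
  have hCbb : (0 : ℝ) < (C : ℝ) * bb := by
    have : 0 < C * bb := Nat.mul_pos hC1 hbb1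
    exact_mod_cast this
  -- the sieve function
  have hfs : 0 < f0 ((9 / 10 : ℝ) / (17 / 50)) := by
    rw [hSF.f4 _ (by norm_num) (by norm_num)]
    apply div_pos (mul_pos hSF.pos (Real.log_pos (by norm_num))) (by norm_num)
  obtain ⟨fs, hfsd⟩ : ∃ fs : ℝ, fs = f0 ((9 / 10 : ℝ) / (17 / 50)) := ⟨_, rfl⟩
  rw [← hfsd] at hfs
  obtain ⟨ε₁, η₁, hε, hεζ, hεβ, hη₁, Y1, hY1⟩ := two k (9 / 10) (17 / 50) (1 / 100) (1 / (40 * ((C : ℝ) * bb))) (fs / 2)
    (by norm_num) (by norm_num) (by norm_num) (by norm_num) (by positivity) (by positivity) hSF (by rw [← hfsd]; exact hfs)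
  rw [← hfsd] at hY1
  obtain ⟨Y2, hY2⟩ := mer_inv ε₁ (17 / 50) η₁ hε (by norm_num) hη₁
  obtain ⟨Y3, hY3⟩ := exJ ε₁ hε
  obtain ⟨CK, hCK1, hCK⟩ := kpow k 20
  obtain ⟨c6, hc6, hVl⟩ := Pool.Agent.H92.F.V1_low (k + 1)
  obtain ⟨u, hu⟩ : ∃ u : ℕ, u = ⌈1 / ε₁⌉₊ + 5 := ⟨_, rfl⟩
  have huε : 1 ≤ ε₁ * u := by
    have h1 : 1 / ε₁ ≤ (⌈1 / ε₁⌉₊ : ℝ) := Nat.le_ceil _
    have h2 : (1 / ε₁ : ℝ) ≤ u := by
      rw [hu]; push_cast; linarith
    calc (1 : ℝ) = ε₁ * (1 / ε₁) := by field_simp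
      _ ≤ ε₁ * u := mul_le_mul_of_nonneg_left h2 hε.le
  have hu5 : 5 ≤ u := by omega
  obtain ⟨c7, hc7⟩ : ∃ c7 : ℝ, c7 = ε₁ / (17 / 50) * (fs / 2) := ⟨_, rfl⟩
  have hc7p : 0 < c7 := by rw [hc7]; positivity
  obtain ⟨s1, hs1⟩ := eventually_atTop.1 (ev_s (2 * W / (c7 * c6) * (50 * u / 16) ^ (2 * (k + 1))) (2 * (k + 1)) (Y1 + Y2 + Y3 + ⌈CK⌉₊ + z0 + 50 * 50 * u + 17))
  obtain ⟨s2, hs2⟩ := eventually_atTop.1 (ev_s (20 * u) 1 0)
  refine ⟨u, s1 + s2, c7 / 3, by omega, by positivity, ?_⟩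
  intro s hs f χ h a b hadm hab hb1 has i hfa hχ hsum
  obtain ⟨ev1, ev2, ev3⟩ := hs1 s (by omega)
  obtain ⟨ev4, _, _⟩ := hs2 s (by omega)
  rw [pow_one] at ev4
  have hk1 : 1 ≤ k := by
    have := i.isLt
    omega
  have hcop : ∀ j, (b j).Coprime (a j) := fun j => adm_coprime hadm j
  have hs17 : 17 ≤ s := by omega
  have hsr : (17 : ℝ) ≤ s := by exact_mod_cast hs17
  have hs0 : (0 : ℝ) < s := by linarith
  have hs1' : (1 : ℝ) ≤ s := by linarith
  obtain ⟨Y, hY⟩ : ∃ Y : ℕ, Y = s ^ (50 * u) := ⟨_, rfl⟩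
  have hsY : s ≤ Y := by rw [hY]; exact Nat.le_self_pow (by omega) s
  have hYr : (Y : ℝ) = (s : ℝ) ^ (50 * u) := by rw [hY]; push_cast; rfl
  have hY2' : 2 ≤ Y := by omega
  have hYr2 : (2 : ℝ) ≤ Y := by exact_mod_cast hY2'
  have hYpos : (0 : ℝ) < Y := by linarith
  have hY1r : (1 : ℝ) ≤ Y := by linarith
  have hlogs : 0 < Real.log s := Real.log_pos (by linarith)
  have hlogY : Real.log Y = 50 * u * Real.log s := by
    rw [hYr, Real.log_pow]; push_cast; ring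
  have hlogYpos : 0 < Real.log Y := Real.log_pos (by linarith)
  have hYζ : (Y : ℝ) ^ (17 / 50 : ℝ) = (s : ℝ) ^ (17 * u) := by
    rw [hYr]
    apply pow_rpow hs0.le
    push_cast; ring
  have hYε : (s : ℝ) < (Y : ℝ) ^ ε₁ := by
    calc (s : ℝ) = (s : ℝ) ^ (1 : ℝ) := (Real.rpow_one _).symm
      _ < (s : ℝ) ^ ((50 * u : ℕ) * ε₁ : ℝ) := by
          apply Real.rpow_lt_rpow_of_exponent_lt (by linarith)
          push_cast
          linarith
      _ = (Y : ℝ) ^ ε₁ := by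
          rw [hYr, ← Real.rpow_natCast, ← Real.rpow_mul hs0.le]
  obtain ⟨J, hJ1, hJ2⟩ := hY3 Y (by omega)
  obtain ⟨⟨c, hc1, hc2, hc3, hc4⟩, _⟩ := hY1 Y (by omega)
  have hmer := hY2 Y (by omega)
  -- the sets of primes
  obtain ⟨Z, hZd⟩ : ∃ Z : Finset ℕ, Z = PZ Y (17 / 50) := ⟨_, rfl⟩
  have hZm : ∀ p : ℕ, p ∈ Z ↔ p.Prime ∧ (p : ℝ) < (Y : ℝ) ^ (17 / 50 : ℝ) := by
    intro p
    rw [hZd, mem_PZ]
    constructor
    · rintro ⟨h1, h2, h3⟩
      exact ⟨h2, (tt_lt Y p _ hY2' h2.pos).1 h3⟩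
    · rintro ⟨h2, h3⟩
      refine ⟨⟨h2.pos, ?_⟩, h2, (tt_lt Y p _ hY2' h2.pos).2 h3⟩
      have h4 : (Y : ℝ) ^ (17 / 50 : ℝ) ≤ (Y : ℝ) ^ (1 : ℝ) :=
        Real.rpow_le_rpow_of_exponent_le hY1r (by norm_num)
      rw [Real.rpow_one] at h4
      have : (p : ℝ) ≤ Y := by linarith
      exact_mod_cast this
  have hZp : ∀ p ∈ Z, p.Prime := fun p hp => ((hZm p).1 hp).1
  obtain ⟨PE, hPEd⟩ : ∃ PE : Finset ℕ, PE = PZ Y ε₁ := ⟨_, rfl⟩
  have hεle : (Y : ℝ) ^ ε₁ ≤ (Y : ℝ) ^ (17 / 50 : ℝ) := Real.rpow_le_rpow_of_exponent_le hY1r hεζ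
  have hPEm : ∀ p : ℕ, p ∈ PE ↔ p.Prime ∧ (p : ℝ) < (Y : ℝ) ^ ε₁ := by
    intro p
    rw [hPEd, mem_PZ]
    constructor
    · rintro ⟨h1, h2, h3⟩
      exact ⟨h2, (tt_lt Y p _ hY2' h2.pos).1 h3⟩
    · rintro ⟨h2, h3⟩
      exact ⟨(mem_PZ.1 (hZd ▸ (hZm p).2 ⟨h2, h3.trans_le hεle⟩)).1, h2, (tt_lt Y p _ hY2' h2.pos).2 h3⟩
  have hPEZ : ∀ p ∈ PE, p ∈ Z := fun p hp => (hZm p).2 ⟨((hPEm p).1 hp).1, ((hPEm p).1 hp).2.trans_le hεle⟩
  obtain ⟨P, hPd⟩ : ∃ P : Finset ℕ, P = PE \ ZW := ⟨_, rfl⟩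
  have hPm : ∀ p ∈ P, p.Prime ∧ z0 < p ∧ (p : ℝ) < (Y : ℝ) ^ ε₁ := by
    intro p hp
    rw [hPd, Finset.mem_sdiff, hPEm, hZWd, mem_Pz] at hp
    refine ⟨hp.1.1, ?_, hp.1.2⟩
    by_contra hcon
    exact hp.2 ⟨not_lt.1 hcon, hp.1.1⟩
  -- the residues
  obtain ⟨Om, hOmd⟩ : ∃ Om : ℕ → Finset ℕ, Om = fun p : ℕ => if (p : ℝ) < (Y : ℝ) ^ ε₁ then Rts a b p else Ri (a i) (b i) p :=
    ⟨_, rfl⟩
  have hZWlt : ∀ p ∈ ZW, (p : ℝ) < (Y : ℝ) ^ ε₁ := by
    intro p hp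
    rw [hZWd, mem_Pz] at hp
    have : (p : ℝ) ≤ s := by
      have : p ≤ s := by omega
      exact_mod_cast this
    linarith
  have hai : ∀ p : ℕ, p.Prime → (Y : ℝ) ^ ε₁ ≤ p → (a i).Coprime p := by
    intro p hp hpY
    rw [Nat.coprime_comm, Nat.Prime.coprime_iff_not_dvd hp]
    intro hd
    have h1 := Nat.le_of_dvd (hab i).1 hd
    have h2 : (p : ℝ) ≤ s := by exact_mod_cast h1.trans (has i)
    linarith
  have hOmk : ∀ p ∈ Z \ ZW, (Om p).card ≤ k ∧ ∀ c ∈ Om p, c < p := by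
    intro p hp
    have hpp := hZp p (mem_sdiff.1 hp).1
    rw [hOmd]
    simp only []
    split_ifs with h1
    · exact ⟨Pool.Agent.H92.F.nu_le_k hcop hpp, fun c hc => mem_range.1 (mem_filter.1 hc).1⟩
    · refine ⟨?_, fun c hc => mem_range.1 (mem_filter.1 hc).1⟩
      rw [Ri_card hpp (hai p hpp (not_lt.1 h1))]
      exact hk1
  have hRtk : ∀ p ∈ P, (Rts a b p).card ≤ k ∧ ∀ c ∈ Rts a b p, c < p := by
    intro p hp
    exact ⟨Pool.Agent.H92.F.nu_le_k hcop (hPm p hp).1, fun c hc => mem_range.1 (mem_filter.1 hc).1⟩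
  have hZWW : ∀ p : ℕ, p.Prime → p ∉ ZW → ¬ p ∣ W := by
    intro p hp hpZ hd
    rw [hW, Prime.dvd_finsetProd_iff hp.prime] at hd
    obtain ⟨q, hq, hpq⟩ := hd
    rw [Nat.prime_dvd_prime_iff_eq hp (hZWp q hq)] at hpq
    rw [hpq] at hpZ
    exact hpZ hq
  obtain ⟨hh, hhd⟩ : ∃ hh : ℕ → ℝ, hh = fun p => if p ∈ ZW then 0 else ((Om p).card : ℝ) / p := ⟨_, rfl⟩
  -- the conditions on the densities
  have hz0k : k + 1 ≤ z0 := by
    rw [hz0]; omega
  have hhk : ∀ p ∈ Z, 0 ≤ hh p ∧ hh p ≤ (k : ℝ) / p := by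
    intro p hp
    rw [hhd]
    simp only []
    split_ifs with h1
    · exact ⟨le_rfl, by positivity⟩
    · have h2 : ((Om p).card : ℝ) ≤ k := by exact_mod_cast (hOmk p (mem_sdiff.2 ⟨hp, h1⟩)).1
      exact ⟨by positivity, div_le_div_of_nonneg_right h2 (Nat.cast_nonneg p)⟩
  have hcond : Cond k Y ε₁ (17 / 50) η₁ hh := by
    refine ⟨?_, ?_, ?_, ?_⟩
    · intro p hp
      exact (hhk p (hZd ▸ hp)).1
    · intro p hp
      rw [hhd]
      simp only []
      split_ifs with h1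
      · norm_num
      · have hp' : p ∈ P := by rw [hPd]; exact mem_sdiff.2 ⟨hPEd ▸ hp, h1⟩
        have h2 : ((Om p).card : ℝ) ≤ k := by
          exact_mod_cast (hOmk p (mem_sdiff.2 ⟨hPEZ p (hPEd ▸ hp), h1⟩)).1
        have h3 : k ≤ p := by
          have := (hPm p hp').2.1
          omega
        have h4 : (k : ℝ) ≤ p := by exact_mod_cast h3
        have h5 : (0 : ℝ) < p := by exact_mod_cast (hPm p hp').1.pos
        rw [div_le_one h5]
        linarith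
    · intro p hp hkp
      have h2 := (hhk p (hPEZ p (hPEd ▸ hp))).2
      refine h2.trans ?_
      have h4 : (k : ℝ) + 1 ≤ p := by exact_mod_cast hkp
      have h5 : (0 : ℝ) < (k : ℝ) := by exact_mod_cast hk1
      apply div_le_div_of_nonneg_left h5.le (by linarith) (by linarith)
    · intro x y hx hxy hy
      have h1 := hmer x y hx hxy hy
      have e : ∑ p ∈ (pr Y ε₁ (17 / 50)).filter (fun p => x ≤ tt Y p ∧ tt Y p < y), hh p =
          ∑ p ∈ (pr Y ε₁ (17 / 50)).filter (fun p => x ≤ tt Y p ∧ tt Y p < y), 1 / (p : ℝ) := by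
        apply sum_congr rfl
        intro p hp
        rw [mem_filter, mem_pr'] at hp
        have hpp := hp.1.2.1
        have h2 : (Y : ℝ) ^ ε₁ ≤ p := by
          by_contra hcon
          push Not at hcon
          have := (tt_lt Y p ε₁ hY2' hpp.pos).2 hcon
          linarith [hp.1.2.2.1]
        have h3 : p ∉ ZW := fun hc => by
          have := hZWlt p hc
          linarith
        rw [hhd]
        simp only []
        rw [if_neg h3, hOmd]
        simp only []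
        rw [if_neg (not_lt.2 h2), Ri_card hpp (hai p hpp h2), Nat.cast_one]
      rw [e]
      exact h1
  have hlow := hc4 hh hcond
  -- the class
  obtain ⟨ν, hν0⟩ := crt_class hadm ZW hZWp
  have hν : ∀ j, ∀ p ∈ ZW, ¬ p ∣ a j * ν + b j := by
    intro j p hp hd
    have h1 := hν0 j
    have h2 := Nat.dvd_gcd hd (dvd_prod_of_mem (fun q => q) hp)
    rw [h1] at h2
    exact (hZWp p hp).one_lt.ne' (Nat.dvd_one.1 h2)
  obtain ⟨V, hV⟩ : ∃ V : ℝ, V = ∏ p ∈ P, (1 - ((Rts a b p).card : ℝ) / p) := ⟨_, rfl⟩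
  have hprodV : ∏ p ∈ PZ Y ε₁, (1 - hh p) = V := by
    rw [hV, hPd, ← hPEd]
    symm
    apply prod_subset_one_on_sdiff sdiff_subset
    · intro p hp
      have h1 : p ∈ ZW := by
        rw [Finset.mem_sdiff, Finset.mem_sdiff] at hp
        by_contra hcon
        exact hp.2 ⟨hp.1, hcon⟩
      rw [hhd]
      simp only []
      rw [if_pos h1, sub_zero]
    · intro p hp
      rw [Finset.mem_sdiff] at hp
      rw [hhd]
      simp only []
      rw [if_neg hp.2, hOmd]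
      simp only []
      rw [if_pos ((hPEm p).1 hp.1).2]
  have hVlow : c6 / (Real.log Y) ^ (2 * (k + 1)) ≤ V := by
    have h1 := (hVl Y P (fun _ => k) (Real.log Y) (by omega) le_rfl (fun p hp => by
      obtain ⟨h1, h2, h3⟩ := hPm p hp
      refine ⟨h1, by omega, ?_, le_rfl⟩
      have h4 : (Y : ℝ) ^ ε₁ ≤ (Y : ℝ) ^ (1 : ℝ) :=
        Real.rpow_le_rpow_of_exponent_le hY1r (by linarith)
      rw [Real.rpow_one] at h4
      have : (p : ℝ) ≤ Y := by linarith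
      exact_mod_cast this)).2
    refine h1.trans ?_
    rw [hV]
    apply Finset.prod_le_prod
    · intro p hp
      obtain ⟨h1, h2, h3⟩ := hPm p hp
      have h5 : k + 1 ≤ p := by omega
      have h6 : (k : ℝ) + 1 ≤ p := by exact_mod_cast h5
      have hk : (0 : ℝ) ≤ k := Nat.cast_nonneg k
      rw [mul_one_div, sub_nonneg, div_le_one (by linarith)]
      exact h6
    · intro p hp
      have h2 : ((Rts a b p).card : ℝ) ≤ k := by exact_mod_cast (hRtk p hp).1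
      have h3 : ((Rts a b p).card : ℝ) / p ≤ ((k : ℝ) + 1) * (1 / p) := by
        rw [mul_one_div]
        apply div_le_div_of_nonneg_right (by linarith) (Nat.cast_nonneg p)
      linarith
  have hVpos : 0 < V := lt_of_lt_of_le (by positivity) hVlow
  rw [hprodV] at hlow
  -- the sifted set
  obtain ⟨S, hS⟩ : ∃ S : Finset ℕ, S = (Icc 1 Y).filter (fun n => n ≡ ν [MOD W]) := ⟨_, rfl⟩
  have hsift := sift_lower Z hZp c (5 * Real.log Y) ((Y : ℝ) ^ (9 / 10 + 1 / 100 : ℝ)) hc1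
    (fun T hT hcT => hc2 T (hZd ▸ hT) hcT) (fun N => by rw [hZd]; exact hc3 N) S (GG (Z \ ZW) Om) ((Y : ℝ) / W) hh
  have hDle : (Y : ℝ) ^ (9 / 10 + 1 / 100 : ℝ) ≤ ((s ^ (46 * u) : ℕ) : ℝ) := by
    push_cast
    rw [hYr, ← Real.rpow_natCast, ← Real.rpow_mul hs0.le, ← Real.rpow_natCast]
    apply Real.rpow_le_rpow_of_exponent_le hs1'
    push_cast
    have : (0 : ℝ) ≤ u := Nat.cast_nonneg u
    linarith
  have hEr : ∑ T ∈ Z.powerset.filter (fun T => ((∏ p ∈ T, p : ℕ) : ℝ) ≤ (Y : ℝ) ^ (9 / 10 + 1 / 100 : ℝ)),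
      Er S (GG (Z \ ZW) Om) ((Y : ℝ) / W) hh T ≤ (s : ℝ) ^ (49 * u) := by
    have h1 : ∀ T ∈ Z.powerset.filter (fun T => ((∏ p ∈ T, p : ℕ) : ℝ) ≤ (Y : ℝ) ^ (9 / 10 + 1 / 100 : ℝ)),
        Er S (GG (Z \ ZW) Om) ((Y : ℝ) / W) hh T ≤ (s : ℝ) ^ (3 * u) := by
      intro T hT
      rw [mem_filter, mem_powerset] at hT
      rw [hS, hhd]
      refine (Er_le hZp hW0 (fun p hp => hZWW p (hZp p (mem_sdiff.1 hp).1) (mem_sdiff.1 hp).2) Om hOmk ν Y T hT.1).trans ?_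
      have h2 := hCK T (fun p hp => hZp p (hT.1 hp))
      have h3 : CK ≤ s := by
        have h4 : (⌈CK⌉₊ : ℝ) ≤ s := by
          have : ⌈CK⌉₊ ≤ s := by omega
          exact_mod_cast this
        exact (Nat.le_ceil CK).trans h4
      have h5 : ((k : ℝ) ^ T.card) ^ 20 ≤ ((s : ℝ) ^ (3 * u)) ^ 20 := by
        refine h2.trans ?_
        have h6 := hT.2.trans hDle
        push_cast at h6
        calc CK * ((∏ p ∈ T, p : ℕ) : ℝ) ≤ s * (s : ℝ) ^ (46 * u) := by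
              apply mul_le_mul h3 _ (by positivity) hs0.le
              push_cast
              exact h6
          _ = (s : ℝ) ^ (46 * u + 1) := by ring
          _ ≤ (s : ℝ) ^ (60 * u) := pow_le_pow_right₀ hs1' (by omega)
          _ = _ := by rw [← pow_mul]; congr 1; ring
      exact le_of_pow_le_pow_left₀ (by norm_num) (by positivity) h5
    have h2 := few_T hZp (s ^ (46 * u)) _ hDle
    calc _ ≤ ((Z.powerset.filter (fun T => ((∏ p ∈ T, p : ℕ) : ℝ) ≤ (Y : ℝ) ^ (9 / 10 + 1 / 100 : ℝ))).card : ℝ) *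
          (s : ℝ) ^ (3 * u) := by
          rw [← nsmul_eq_mul]
          exact sum_le_card_nsmul _ _ _ h1
      _ ≤ (s : ℝ) ^ (46 * u) * (s : ℝ) ^ (3 * u) := by
          apply mul_le_mul_of_nonneg_right _ (by positivity)
          exact_mod_cast h2
      _ = _ := by rw [← pow_add]; congr 1; ring
  have h5log : 5 * Real.log Y ≤ s := by
    rw [hlogY]
    have e : 20 * (u : ℝ) * (16 * Real.log s) = 5 * (50 * u * Real.log s) + 70 * u * Real.log s := by ring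
    rw [e] at ev4
    have : 0 ≤ 70 * (u : ℝ) * Real.log s := by positivity
    linarith
  obtain ⟨FF, hFF⟩ : ∃ FF : Finset ℕ, FF = S.filter (fun n => ∀ p ∈ Z, ¬ p ∣ GG (Z \ ZW) Om n) := ⟨_, rfl⟩
  have hmain : (Y : ℝ) / W * V * c7 - (s : ℝ) ^ (49 * u + 1) ≤ (FF.card : ℝ) := by
    rw [hFF]
    refine le_trans ?_ hsift
    have h1 : (Y : ℝ) / W * V * c7 ≤ (Y : ℝ) / W * VV Z c hh := by
      have h2 : ε₁ / (17 / 50) * (fs - fs / 2) * V = V * c7 := by rw [hc7]; ring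
      rw [h2, ← hZd] at hlow
      calc (Y : ℝ) / W * V * c7 = (Y : ℝ) / W * (V * c7) := by ring
        _ ≤ _ := mul_le_mul_of_nonneg_left hlow (by positivity)
    have h3 : 5 * Real.log Y * ∑ T ∈ Z.powerset.filter (fun T => ((∏ p ∈ T, p : ℕ) : ℝ) ≤ (Y : ℝ) ^ (9 / 10 + 1 / 100 : ℝ)),
        Er S (GG (Z \ ZW) Om) ((Y : ℝ) / W) hh T ≤ (s : ℝ) ^ (49 * u + 1) := by
      calc _ ≤ s * (s : ℝ) ^ (49 * u) := by
            apply mul_le_mul h5log hEr _ hs0.le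
            apply sum_nonneg
            intro T _
            exact abs_nonneg _
        _ = _ := by ring
    linarith
  have hFm : ∀ n ∈ FF, (1 ≤ n ∧ n ≤ Y) ∧ n ≡ ν [MOD W] ∧ ∀ p ∈ Z \ ZW, n % p ∉ Om p := by
    intro n hn
    rw [hFF, mem_filter, hS, mem_filter, mem_Icc] at hn
    refine ⟨hn.1.1, hn.1.2, fun p hp hmem => ?_⟩
    apply hn.2 p (mem_sdiff.1 hp).1
    rw [dvd_GG (fun p hp => hZp p (mem_sdiff.1 hp).1) (hZp p (mem_sdiff.1 hp).1)]
    exact ⟨hp, hmem⟩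
  have hnotZW : ∀ n ∈ FF, ∀ j, ∀ p ∈ ZW, ¬ p ∣ a j * n + b j := by
    intro n hn j p hp hpd
    apply hν j p hp
    have h2 : p ∣ W := by rw [hW]; exact dvd_prod_of_mem _ hp
    have h3 : a j * n + b j ≡ a j * ν + b j [MOD p] := (((hFm n hn).2.1.of_dvd h2).mul_left _).add_right _
    exact (h3.dvd_iff dvd_rfl).1 hpd
  have hgood : ∀ n ∈ FF, ∀ j, ∀ p : ℕ, p.Prime → p ∣ a j * n + b j → (Y : ℝ) ^ ε₁ ≤ p := by
    intro n hn j p hp hpd
    by_contra hcon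
    push Not at hcon
    by_cases h1 : p ∈ ZW
    · exact hnotZW n hn j p h1 hpd
    · apply (hFm n hn).2.2 p (mem_sdiff.2 ⟨hPEZ p ((hPEm p).2 ⟨hp, hcon⟩), h1⟩)
      rw [hOmd]
      simp only []
      rw [if_pos hcon]
      exact Rts_hit hp.pos j hpd
  have hgoodi : ∀ n ∈ FF, ∀ p : ℕ, p.Prime → p ∣ a i * n + b i → s ^ (17 * u) ≤ p := by
    intro n hn p hp hpd
    by_contra hcon
    push Not at hcon
    have h0 : (p : ℝ) < (Y : ℝ) ^ (17 / 50 : ℝ) := by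
      rw [hYζ]; exact_mod_cast hcon
    have h1 := hgood n hn i p hp hpd
    have h2 : p ∉ ZW := fun h2 => hnotZW n hn i p h2 hpd
    apply (hFm n hn).2.2 p (mem_sdiff.2 ⟨(hZm p).2 ⟨hp, h0⟩, h2⟩)
    rw [hOmd]
    simp only []
    rw [if_neg (not_lt.2 h1)]
    unfold Ri
    rw [mem_filter, mem_range]
    refine ⟨Nat.mod_lt _ hp.pos, ?_⟩
    have h4 : a i * (n % p) + b i ≡ a i * n + b i [MOD p] := ((Nat.mod_modEq n p).mul_left _).add_right _
    exact (h4.dvd_iff dvd_rfl).2 hpd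
  by_contra hno
  have hno' : ∀ n ∈ FF, ¬ (a i * n + b i).Prime := by
    intro n hn hpr
    apply hno
    have h1 := (hFm n hn).1
    refine ⟨n, h1.1, by rw [← hY]; exact h1.2, hpr, fun j p hp hpd => ?_⟩
    have h2 := hgood n hn j p hp hpd
    have h3 : (s : ℝ) < p := by linarith
    exact_mod_cast h3
  -- the composite values
  obtain ⟨R, hR⟩ : ∃ R : Finset ℕ, R = (Icc (s ^ (17 * u)) (s ^ (33 * u + 2))).filter (fun r => r.Prime ∧ χ r = 1) := ⟨_, rfl⟩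
  have hcov : FF ⊆ R.biUnion (fun r => (GS W ν Y P (Rts a b)).filter (fun n => r ∣ a i * n + b i)) := by
    intro n hn
    have h1 := (hFm n hn).1
    have hm2 : 2 ≤ a i * n + b i := by
      have h2 := hb1 i
      have h3 : 1 * 1 ≤ a i * n := Nat.mul_le_mul (hab i).1 h1.1
      omega
    have hval : a i * n + b i ≤ s ^ (33 * u + 2) * s ^ (17 * u) := by
      have h2 : a i * n ≤ s * Y := Nat.mul_le_mul (has i) h1.2
      have h3 : b i ≤ s := (hab i).2.trans (has i)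
      have h4 : s * Y = s ^ (50 * u + 1) := by rw [hY]; ring
      have h5 : s ≤ s ^ (50 * u + 1) := Nat.le_self_pow (by omega) s
      have h6 : 2 * s ^ (50 * u + 1) ≤ s * s ^ (50 * u + 1) := Nat.mul_le_mul_right _ (by omega)
      have h7 : s ^ (33 * u + 2) * s ^ (17 * u) = s * s ^ (50 * u + 1) := by
        rw [← pow_add, ← pow_succ']
        congr 1
        ring
      omega
    have hval3 : a i * n + b i < s ^ (17 * u) * s ^ (17 * u) * s ^ (17 * u) := by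
      refine lt_of_le_of_lt hval ?_
      rw [← pow_add, ← pow_add, ← pow_add]
      exact Nat.pow_lt_pow_right (by omega) (by omega)
    have hcopf : (a i * n + b i).Coprime f := by
      have h2 : (a i * n + b i).Coprime (a i) := by
        have := hcop i
        rw [Nat.coprime_iff_gcd_eq_one] at this ⊢
        rw [Nat.gcd_comm, add_comm, Nat.gcd_add_mul_left_right, Nat.gcd_comm]
        exact this
      exact Nat.Coprime.coprime_dvd_right hfa h2
    have hχm : χ (a i * n + b i) = -1 := by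
      rw [← hχ]
      apply h.per
      have h3 : a i * n ≡ 0 [MOD f] := Nat.modEq_zero_iff_dvd.2 (hfa.mul_right _)
      have := h3.add_right (b i)
      rwa [zero_add] at this
    obtain ⟨r, hr1, hr2, hr3, hr4, hr5⟩ := factor_one h hm2 (hno' n hn) hcopf hχm (hgoodi n hn) (by positivity) hval hval3
    rw [mem_biUnion]
    refine ⟨r, ?_, ?_⟩
    · rw [hR, mem_filter, mem_Icc]
      exact ⟨⟨hr4, hr5⟩, hr1, hr3⟩
    · rw [mem_filter, mem_GS]
      refine ⟨⟨h1, (hFm n hn).2.1, ?_⟩, hr2⟩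
      intro p hp hmem
      rw [hPd, Finset.mem_sdiff] at hp
      apply (hFm n hn).2.2 p (mem_sdiff.2 ⟨hPEZ p hp.1, hp.2⟩)
      rw [hOmd]
      simp only []
      rw [if_pos ((hPEm p).1 hp.1).2]
      exact hmem
  have hupr : ∀ r ∈ R, (((GS W ν Y P (Rts a b)).filter (fun n => r ∣ a i * n + b i)).card : ℝ) ≤
      3 / 2 * ((Y : ℝ) / W * V) * (1 / r) + (1 + ((J : ℝ) + 2) * ((((2 ^ 2 ^ J) ^ (C * bb) : ℕ) : ℝ) *
      (((2 ^ 2 ^ J) ^ (C * bb) : ℕ) : ℝ))) := by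
    intro r hr
    rw [hR, mem_filter, mem_Icc] at hr
    obtain ⟨⟨h1, h2⟩, h3, h4⟩ := hr
    have h5 : (Y : ℝ) ^ ε₁ ≤ r := by
      refine hεle.trans ?_
      rw [hYζ]
      exact_mod_cast h1
    have h6 : s < r := by
      have : (s : ℝ) < r := by linarith
      exact_mod_cast this
    have h7 := up_r hF hC1 k bb J z0 P (fun p hp => by
      obtain ⟨g1, g2, g3⟩ := hPm p hp
      refine ⟨g1, g2, ?_⟩
      have g4 : (p : ℝ) ≤ 2 ^ 2 ^ J := by linarith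
      exact_mod_cast g4) (by
        rw [hbb]
        exact Nat.mul_le_mul_left _ (by omega)) (by
        rw [hz0]
        have : C * (k + 1) ≤ C * (2 * k + 1) := Nat.mul_le_mul_left _ (by omega)
        omega) hbb1 (Rts a b) hRtk hZWp hW (fun p hp => hZWW p (hPm p hp).1 (by
          rw [hPd, Finset.mem_sdiff] at hp
          exact hp.2)) ν Y (hab i).1 (b := b i) (r := r) (lt_of_le_of_lt (has i) h6) h3 (fun p hp hpr => by
          have := (hPm p hp).2.2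
          rw [hpr] at this
          linarith) (fun hrZ => by
          have := hZWlt r hrZ
          linarith) (fun p hp hpr => by
          have := hZWlt p hp
          rw [hpr] at this
          linarith)
    rw [← hV] at h7
    linarith
  have hlev : (((2 ^ 2 ^ J) ^ (C * bb) : ℕ) : ℝ) * (((2 ^ 2 ^ J) ^ (C * bb) : ℕ) : ℝ) ≤ (s : ℝ) ^ (5 * u) := by
    push_cast
    rw [← pow_add, ← two_mul]
    have hYε2 : (Y : ℝ) ^ (2 * ε₁) = (s : ℝ) ^ (100 * u * ε₁ : ℝ) := by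
      rw [hYr, ← Real.rpow_natCast, ← Real.rpow_mul hs0.le]
      congr 1
      push_cast
      ring
    calc ((2 : ℝ) ^ 2 ^ J) ^ (2 * (C * bb)) ≤ ((Y : ℝ) ^ (2 * ε₁)) ^ (2 * (C * bb)) :=
          pow_le_pow_left₀ (by positivity) hJ2 _
      _ = (s : ℝ) ^ (100 * u * ε₁ * (2 * ((C : ℝ) * bb)) : ℝ) := by
          rw [hYε2, ← Real.rpow_natCast, ← Real.rpow_mul hs0.le]
          push_cast
          rfl
      _ ≤ (s : ℝ) ^ ((5 * u : ℕ) : ℝ) := by
          apply Real.rpow_le_rpow_of_exponent_le hs1'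
          have h1 : ε₁ * (40 * ((C : ℝ) * bb)) ≤ 1 := by
            rw [le_div_iff₀ (by positivity)] at hεβ
            exact hεβ
          have hu0 : (0 : ℝ) ≤ u := Nat.cast_nonneg u
          have h2 := mul_le_mul_of_nonneg_left h1 hu0
          push_cast
          linarith
      _ = (s : ℝ) ^ (5 * u) := Real.rpow_natCast _ _
  have hJs : (J : ℝ) + 2 ≤ s := by
    have h1 : (J : ℝ) ≤ 2 ^ J := by
      have : J ≤ 2 ^ J := Nat.lt_two_pow_self.le
      exact_mod_cast this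
    have h2 := Real.log_le_log (by positivity) hJ2
    rw [Real.log_pow, Real.log_rpow hYpos] at h2
    push_cast at h2
    have h3 := Real.log_two_gt_d9
    have h4 : (J : ℝ) * (1 / 2) ≤ 2 ^ J * Real.log 2 :=
      mul_le_mul h1 (by linarith) (by norm_num) (by positivity)
    have h5 : 2 * ε₁ * Real.log Y ≤ 1 * Real.log Y := mul_le_mul_of_nonneg_right (by linarith) hlogYpos.le
    have h6 : (17 : ℝ) ≤ s := hsr
    linarith
  have hRcard : (R.card : ℝ) ≤ (s : ℝ) ^ (33 * u + 2) := by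
    have h1 : R.card ≤ s ^ (33 * u + 2) := by
      rw [hR]
      refine (card_filter_le _ _).trans ?_
      rw [Nat.card_Icc]
      have : 1 ≤ s ^ (17 * u) := Nat.one_le_pow _ _ (by omega)
      omega
    exact_mod_cast h1
  have hRsum : ∑ r ∈ R, 1 / (r : ℝ) ≤ c7 / 3 := by
    refine le_trans ?_ hsum
    apply sum_le_sum_of_subset_of_nonneg
    · intro r hr
      rw [hR, mem_filter, mem_Icc] at hr
      rw [mem_filter, mem_Ioc]
      refine ⟨⟨?_, hr.1.2.trans ?_⟩, hr.2⟩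
      · refine lt_of_lt_of_le ?_ hr.1.1
        exact Nat.pow_lt_pow_right (by omega) (by omega)
      · exact Nat.pow_le_pow_right (by omega) (by omega)
    · intro r _ _
      positivity
  have hupper : (FF.card : ℝ) ≤ (Y : ℝ) / W * V * (c7 / 2) + (s : ℝ) ^ (38 * u + 4) := by
    have h1 : (FF.card : ℝ) ≤ ∑ r ∈ R, (((GS W ν Y P (Rts a b)).filter (fun n => r ∣ a i * n + b i)).card : ℝ) := by
      have := (card_le_card hcov).trans card_biUnion_le
      exact_mod_cast this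
    refine h1.trans ((sum_le_sum hupr).trans ?_)
    rw [sum_add_distrib, ← mul_sum, sum_const, nsmul_eq_mul]
    apply add_le_add
    · calc 3 / 2 * ((Y : ℝ) / W * V) * ∑ r ∈ R, 1 / (r : ℝ) ≤ 3 / 2 * ((Y : ℝ) / W * V) * (c7 / 3) :=
            mul_le_mul_of_nonneg_left hRsum (by positivity)
        _ = _ := by ring
    · have h2 : 1 + ((J : ℝ) + 2) * ((((2 ^ 2 ^ J) ^ (C * bb) : ℕ) : ℝ) * (((2 ^ 2 ^ J) ^ (C * bb) : ℕ) : ℝ)) ≤
          (s : ℝ) ^ (5 * u + 2) := by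
        calc _ ≤ 1 + s * (s : ℝ) ^ (5 * u) := by
              apply add_le_add le_rfl
              exact mul_le_mul hJs hlev (by positivity) hs0.le
          _ ≤ (s : ℝ) ^ (5 * u + 1) + (s : ℝ) ^ (5 * u + 1) := by
              apply add_le_add (one_le_pow₀ hs1')
              rw [pow_succ']
          _ ≤ s * (s : ℝ) ^ (5 * u + 1) := by
              have : 2 * (s : ℝ) ^ (5 * u + 1) ≤ s * (s : ℝ) ^ (5 * u + 1) :=
                mul_le_mul_of_nonneg_right (by linarith) (by positivity)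
              linarith
          _ = _ := by ring
      calc _ ≤ (s : ℝ) ^ (33 * u + 2) * (s : ℝ) ^ (5 * u + 2) :=
            mul_le_mul hRcard h2 (by positivity) (by positivity)
        _ = _ := by rw [← pow_add]; congr 1; ring
  -- the final comparison
  have g1 : (Y : ℝ) / W * V * (c7 / 2) ≤ (s : ℝ) ^ (49 * u + 1) + (s : ℝ) ^ (38 * u + 4) := by linarith
  have g2 : (s : ℝ) ^ (38 * u + 4) ≤ (s : ℝ) ^ (49 * u + 1) := pow_le_pow_right₀ hs1' (by omega)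
  have g3 : (s : ℝ) ^ (50 * u - 1) ≤ (Y : ℝ) / W * V * (c7 / 2) := by
    have h1 : 2 * W * (Real.log Y) ^ (2 * (k + 1)) ≤ s * (c7 * c6) := by
      have e : 2 * (W : ℝ) / (c7 * c6) * (50 * u / 16) ^ (2 * (k + 1)) * (16 * Real.log s) ^ (2 * (k + 1)) =
          2 * W * (Real.log Y) ^ (2 * (k + 1)) / (c7 * c6) := by
        rw [hlogY]
        have e2 : (50 * (u : ℝ) * Real.log s) = (50 * u / 16) * (16 * Real.log s) := by ring
        rw [e2, mul_pow (50 * (u : ℝ) / 16) (16 * Real.log s)]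
        generalize (50 * (u : ℝ) / 16) ^ (2 * (k + 1)) = A1
        generalize (16 * Real.log s) ^ (2 * (k + 1)) = A2
        ring
      rw [e, div_le_iff₀ (by positivity)] at ev1
      exact ev1
    calc (s : ℝ) ^ (50 * u - 1) ≤ (Y : ℝ) / W * (c6 / (Real.log Y) ^ (2 * (k + 1))) * (c7 / 2) := by
          have e : (Y : ℝ) / W * (c6 / (Real.log Y) ^ (2 * (k + 1))) * (c7 / 2) =
              Y * (c7 * c6) / (2 * W * (Real.log Y) ^ (2 * (k + 1))) := by
            field_simp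
          rw [e, le_div_iff₀ (by positivity)]
          have e2 : (Y : ℝ) = (s : ℝ) ^ (50 * u - 1) * s := by
            rw [hYr, ← pow_succ]
            congr 1
            omega
          calc (s : ℝ) ^ (50 * u - 1) * (2 * W * (Real.log Y) ^ (2 * (k + 1))) ≤ (s : ℝ) ^ (50 * u - 1) * (s * (c7 * c6)) :=
                mul_le_mul_of_nonneg_left h1 (by positivity)
            _ = _ := by rw [e2]; ring
      _ ≤ _ := by gcongr
  have g4 : 17 * (s : ℝ) ^ (49 * u + 1) ≤ (s : ℝ) ^ (50 * u - 1) := by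
    calc 17 * (s : ℝ) ^ (49 * u + 1) ≤ s * (s : ℝ) ^ (49 * u + 1) := mul_le_mul_of_nonneg_right hsr (by positivity)
      _ = (s : ℝ) ^ (49 * u + 2) := by ring
      _ ≤ _ := pow_le_pow_right₀ hs1' (by omega)
  have g5 : 0 < (s : ℝ) ^ (49 * u + 1) := by positivity
  linarith

end Pool.Agent.H92.G
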