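import Pool.Agent.H92.G.Pipe
import Pool.Agent.H92.G.LowX
import Pool.Agent.H92.G.Chars
import Pool.Agent.H92.G.PlusFin
import Pool.Agent.H92.G.MinFin

set_option autoImplicit false

/-! All admissible systems: the exceptional modulus. -/

open Finset Filter Topology

namespace Pool.Agent.H92.G

open Pool.Agent.H262R3.Lk Pool.Agent.H262R2.UM Pool.Agent.H262R2.UP Pool.Agent.H92.F

/-- the windows of the pigeonhole principle -/
theorem window (g : ℕ → ℝ) (hg : ∀ r, 0 ≤ g r) (M V J : ℕ) (hM : 1 ≤ M) (hV : 16 ≤ V) :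
    ∑ t ∈ range J, ∑ r ∈ Ioc ((M ^ (2 * V ^ t)) ^ 16) ((M ^ (2 * V ^ t)) ^ V), g r ≤
      ∑ r ∈ Ioc (M ^ 32) (M ^ (32 * V ^ J)), g r := by
  induction J with
  | zero => simp
  | succ J ih =>
    rw [sum_range_succ]
    have hVJ : 1 ≤ V ^ J := Nat.one_le_pow _ _ (by omega)
    have h1 : Ioc (M ^ 32) (M ^ (32 * V ^ J)) ∪ Ioc ((M ^ (2 * V ^ J)) ^ 16) ((M ^ (2 * V ^ J)) ^ V) ⊆
        Ioc (M ^ 32) (M ^ (32 * V ^ (J + 1))) := by
      intro r hr
      rw [mem_union, mem_Ioc, mem_Ioc] at hr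
      rw [mem_Ioc]
      have hVJ1 : V ^ (J + 1) = V ^ J * V := pow_succ V J
      rcases hr with hr | hr
      · refine ⟨hr.1, hr.2.trans (Nat.pow_le_pow_right hM ?_)⟩
        have : V ^ J ≤ V ^ (J + 1) := Nat.pow_le_pow_right (by omega) (by omega)
        omega
      · constructor
        · refine lt_of_le_of_lt ?_ hr.1
          rw [← pow_mul]
          exact Nat.pow_le_pow_right hM (by omega)
        · refine hr.2.trans ?_
          rw [← pow_mul]
          apply Nat.pow_le_pow_right hM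
          rw [hVJ1]
          have : 2 * V ^ J * V = 2 * (V ^ J * V) := by ring
          omega
    have hdisj : Disjoint (Ioc (M ^ 32) (M ^ (32 * V ^ J))) (Ioc ((M ^ (2 * V ^ J)) ^ 16) ((M ^ (2 * V ^ J)) ^ V)) := by
      rw [Finset.disjoint_left]
      intro r hr hr'
      rw [mem_Ioc] at hr hr'
      have h2 : (M ^ (2 * V ^ J)) ^ 16 = M ^ (32 * V ^ J) := by
        rw [← pow_mul]
        congr 1
        ring
      omega
    calc _ ≤ ∑ r ∈ Ioc (M ^ 32) (M ^ (32 * V ^ J)), g r +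
          ∑ r ∈ Ioc ((M ^ (2 * V ^ J)) ^ 16) ((M ^ (2 * V ^ J)) ^ V), g r := add_le_add ih le_rfl
      _ = ∑ r ∈ Ioc (M ^ 32) (M ^ (32 * V ^ J)) ∪ Ioc ((M ^ (2 * V ^ J)) ^ 16) ((M ^ (2 * V ^ J)) ^ V), g r :=
          (sum_union hdisj).symm
      _ ≤ _ := sum_le_sum_of_subset_of_nonneg h1 fun r _ _ => hg r

theorem pigeon (g : ℕ → ℝ) (hg : ∀ r, 0 ≤ g r) (M V J : ℕ) (hM : 1 ≤ M) (hV : 16 ≤ V) (G ϑ : ℝ)
    (hG : ∑ r ∈ Ioc (M ^ 32) (M ^ (32 * V ^ J)), g r ≤ G) (hJ : G < J * ϑ) :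
    ∃ t < J, ∑ r ∈ Ioc ((M ^ (2 * V ^ t)) ^ 16) ((M ^ (2 * V ^ t)) ^ V), g r ≤ ϑ := by
  by_contra hcon
  push Not at hcon
  have h1 := window g hg M V J hM hV
  have h2 : ∑ _t ∈ range J, ϑ ≤ ∑ t ∈ range J, ∑ r ∈ Ioc ((M ^ (2 * V ^ t)) ^ 16) ((M ^ (2 * V ^ t)) ^ V), g r :=
    sum_le_sum fun t ht => (hcon t (mem_range.1 ht)).le
  rw [sum_const, card_range, nsmul_eq_mul] at h2
  linarith

theorem cop_val {a b n : ℕ} (h : b.Coprime a) : (a * n + b).Coprime a := by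
  rw [Nat.coprime_iff_gcd_eq_one] at h ⊢
  rw [Nat.gcd_comm, add_comm, Nat.gcd_add_mul_left_right, Nat.gcd_comm]
  exact h

/-- a prime which keeps the exceptional modulus away -/
theorem choose_T {f a M : ℕ} (hf : 0 < f) (ha : 0 < a) (hfa : ¬ f ∣ a) :
    ∃ T : Finset ℕ, #T ≤ 1 ∧ ¬ f ∣ a * WT M T := by
  rw [← Nat.factorization_prime_le_iff_dvd hf.ne' ha.ne'] at hfa
  push Not at hfa
  obtain ⟨p, hp, hlt⟩ := hfa
  refine ⟨{p}, by simp, fun hd => ?_⟩
  have hW := WT_pos M {p}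
  have h1 := (Nat.factorization_prime_le_iff_dvd hf.ne' (Nat.mul_pos ha hW).ne').2 hd p hp
  rw [Nat.factorization_mul ha.ne' hW.ne', Finsupp.add_apply] at h1
  have h2 : (WT M {p}).factorization p = 0 := by
    apply Nat.factorization_eq_zero_of_not_dvd
    intro h3
    have h4 : p ∈ (WT M {p}).primeFactors := Nat.mem_primeFactors.2 ⟨hp, h3, hW.ne'⟩
    rw [WT_pf, Finset.mem_sdiff] at h4
    exact h4.2 (mem_singleton_self p)
  omega

theorem omega_le {k : ℕ} {a b : Fin k → ℕ} {s n v : ℕ} (hs : 17 ≤ s) (hab : ∀ j, 0 < a j ∧ b j ≤ a j) (hb1 : ∀ j, 1 ≤ b j)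
    (has : ∀ j, a j ≤ s) (hn : n ≤ s ^ v) (h : ∀ j, ∀ p : ℕ, p.Prime → p ∣ a j * n + b j → s < p) (j : Fin k) :
    (a j * n + b j).primeFactorsList.length ≤ v + 2 := by
  apply few (y := s) (by have := hb1 j; omega) (by omega) (h j)
  have h1 : a j * n ≤ s * s ^ v := Nat.mul_le_mul (has j) hn
  have h2 : b j ≤ s := (hab j).2.trans (has j)
  have h3 : s * s ^ v = s ^ (v + 1) := by ring
  have h4 : s ≤ s ^ (v + 1) := Nat.le_self_pow (by omega) s
  have h5 : s ^ (v + 2 + 1) = s * s * s ^ (v + 1) := by ring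
  have h6 : 3 * s ^ (v + 1) ≤ s * s * s ^ (v + 1) := by
    apply Nat.mul_le_mul_right
    have : 17 * 17 ≤ s * s := Nat.mul_le_mul hs hs
    omega
  have h7 : 0 < s ^ (v + 1) := by positivity
  omega

set_option maxHeartbeats 4000000 in
theorem mainU (k : ℕ) : ∃ A R : ℕ, ∃ M0 : ℕ, ∀ M : ℕ, M0 ≤ M → ∀ a b : Fin k → ℕ, Adm a b →
    (∀ j, 0 < a j ∧ b j ≤ a j) → (∀ j, 1 ≤ b j) → Function.Injective (fun j => (a j, b j)) → (∀ j, a j ≤ M) →
    ∀ i, ∃ n : ℕ, n ≤ 8 * M ^ A ∧ (a i * n + b i).Prime ∧ ∀ j, (a j * n + b j).primeFactorsList.length ≤ R := by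
  classical
  obtain ⟨u1, s1, hu1, hplus⟩ := plus_case k
  obtain ⟨u2, s2, ϑ2, hu2, hϑ2, hminus⟩ := minus_case k
  obtain ⟨G, δm, hG, hδm, hδm1, hlow⟩ := lowX
  obtain ⟨cL, hcL, hLlow⟩ := L_low
  obtain ⟨V, hV⟩ : ∃ V : ℕ, V = 16 * (u1 + 1) + 50 * u2 := ⟨_, rfl⟩
  have hV16 : 16 ≤ V := by omega
  obtain ⟨ϑ, hϑ⟩ : ∃ ϑ : ℝ, ϑ = min (1 / 8) ϑ2 := ⟨_, rfl⟩
  have hϑ0 : 0 < ϑ := by rw [hϑ]; exact lt_min (by norm_num) hϑ2
  have hϑa : ϑ ≤ 1 / 8 := by rw [hϑ]; exact min_le_left _ _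
  have hϑb : ϑ ≤ ϑ2 := by rw [hϑ]; exact min_le_right _ _
  obtain ⟨J, hJ⟩ := exists_nat_gt (G / ϑ)
  rw [div_lt_iff₀ hϑ0] at hJ
  have hVr : (0 : ℝ) < (V : ℝ) ^ J := by
    have : (0 : ℝ) < V := by
      have : 0 < V := by omega
      exact_mod_cast this
    positivity
  obtain ⟨δ, hδ⟩ : ∃ δ : ℝ, δ = min δm (1 / (V : ℝ) ^ J) := ⟨_, rfl⟩
  have hδ0 : 0 < δ := by rw [hδ]; exact lt_min hδm (by positivity)
  have hδa : δ ≤ δm := by rw [hδ]; exact min_le_left _ _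
  have hδb : δ * (V : ℝ) ^ J ≤ 1 := by
    have h1 : δ ≤ 1 / (V : ℝ) ^ J := by rw [hδ]; exact min_le_right _ _
    rw [le_div_iff₀ hVr] at h1
    exact h1
  obtain ⟨c1, hc1, hdich⟩ := hlow δ hδ0 hδa
  obtain ⟨A, R, c, hc, M0, hpipe⟩ := pipeX k c1 δ hc1 hδ0
  obtain ⟨cd, hcd, hdens⟩ := dens_low k
  refine ⟨A + 2 * V ^ J * V, R + V + 2, M0 + s1 + s2 + 17 + ⌈1 / cL⌉₊, ?_⟩
  intro M hM a b hadm hab hb1 hinj haM i
  have hM17 : 17 ≤ M := by omega
  have hMr : (17 : ℝ) ≤ M := by exact_mod_cast hM17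
  have hM0 : (0 : ℝ) < M := by linarith
  have hcop : ∀ j, (b j).Coprime (a j) := fun j => adm_coprime hadm j
  obtain ⟨z, hz⟩ : ∃ z : ℕ, z = M ^ 32 := ⟨_, rfl⟩
  have hz32 : 32 ≤ z := by
    rw [hz]
    calc 32 ≤ 17 ^ 32 := by norm_num
      _ ≤ M ^ 32 := Nat.pow_le_pow_left hM17 32
  obtain ⟨huniq, hgood, hexc⟩ := hdich z hz32
  by_cases hex : ∃ f, LOW.Exc z δ f ∧ f ∣ a i
  · -- the exceptional modulus divides `a i`
    obtain ⟨f, hf, hfa⟩ := hex
    have hf1 : 1 < f := hf.1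
    have : NeZero f := ⟨by omega⟩
    obtain ⟨ψ, hψp, hψ2, hψs⟩ := hexc f hf
    have hψ1 : ψ ≠ 1 := LOW.primitive_ne_one hf1 hψp
    obtain ⟨χ, hχ, hψχ, hTe⟩ := chr_of ψ hψ1 hψ2
    have hχone : ∀ n : ℕ, χ n = 1 → ψ (n : ZMod f) = 1 := by
      intro n hn
      rw [hψχ, hn, Complex.ofReal_one]
    obtain ⟨g, hg⟩ : ∃ g : ℕ → ℝ, g = fun r => if r.Prime ∧ χ r = 1 then 1 / (r : ℝ) else 0 := ⟨_, rfl⟩
    have hg0 : ∀ r, 0 ≤ g r := by
      intro r
      rw [hg]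
      simp only []
      split_ifs
      · positivity
      · exact le_rfl
    have hsum : ∑ r ∈ Ioc (M ^ 32) (M ^ (32 * V ^ J)), g r ≤ G := by
      rw [hg, ← sum_filter]
      apply hψs
      intro p hp
      rw [mem_filter, mem_Ioc] at hp
      obtain ⟨⟨h1, h2⟩, h3, h4⟩ := hp
      refine ⟨h3, by rw [hz]; exact h1, ?_, hχone p h4⟩
      have hp0 : (0 : ℝ) < p := by exact_mod_cast h3.pos
      have h5 : Real.log p ≤ Real.log ((M ^ (32 * V ^ J) : ℕ) : ℝ) := Real.log_le_log hp0 (by exact_mod_cast h2)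
      rw [Nat.cast_pow, Real.log_pow] at h5
      have h6 : Real.log z = 32 * Real.log M := by
        rw [hz, Nat.cast_pow, Real.log_pow]; norm_num
      have hlogM : 0 ≤ Real.log M := Real.log_nonneg (by linarith)
      rw [h6]
      calc δ * Real.log p ≤ δ * (((32 * V ^ J : ℕ) : ℝ) * Real.log M) := mul_le_mul_of_nonneg_left h5 hδ0.le
        _ = 32 * (δ * (V : ℝ) ^ J) * Real.log M := by push_cast; ring
        _ ≤ 32 * 1 * Real.log M := by gcongr
        _ = 32 * Real.log M := by ring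
    obtain ⟨t, htJ, ht⟩ := pigeon g hg0 M V J (by omega) hV16 G ϑ hsum hJ
    obtain ⟨s, hs⟩ : ∃ s : ℕ, s = M ^ (2 * V ^ t) := ⟨_, rfl⟩
    rw [← hs] at ht
    have hVt : 1 ≤ V ^ t := Nat.one_le_pow _ _ (by omega)
    have hM2s : M ^ 2 ≤ s := by rw [hs]; exact Nat.pow_le_pow_right (by omega) (by omega)
    have hMs : M ≤ s := (Nat.le_self_pow (by norm_num) M).trans hM2s
    have has : ∀ j, a j ≤ s := fun j => (haM j).trans hMs
    have hss : s ^ V ≤ M ^ (A + 2 * V ^ J * V) := by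
      rw [hs, ← pow_mul]
      apply Nat.pow_le_pow_right (by omega)
      have h1 : V ^ t ≤ V ^ J := Nat.pow_le_pow_right (by omega) htJ.le
      have h2 : 2 * V ^ t * V ≤ 2 * V ^ J * V := Nat.mul_le_mul_right _ (Nat.mul_le_mul_left _ h1)
      omega
    have hfilt : ∀ w : ℕ, w ≤ V → ∑ r ∈ (Ioc (s ^ 16) (s ^ w)).filter (fun r => r.Prime ∧ χ r = 1), 1 / (r : ℝ) ≤ ϑ := by
      intro w hw
      refine le_trans ?_ ht
      rw [sum_filter, hg]
      apply sum_le_sum_of_subset_of_nonneg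
      · intro r hr
        rw [mem_Ioc] at hr ⊢
        exact ⟨hr.1, hr.2.trans (Nat.pow_le_pow_right (by omega) hw)⟩
      · intro r _ _
        split_ifs
        · positivity
        · exact le_rfl
    have hbf : (b i).Coprime f := Nat.Coprime.coprime_dvd_right hfa (hcop i)
    rcases hχ.val (b i) hbf with hχb | hχb
    · -- `χ (b i) = 1`
      have hLs : 1 / (s : ℝ) ≤ ‖ψ.LFunction 1‖ := by
        refine le_trans ?_ (hLlow f ψ hψp hψ2 hψ1)
        have hs0 : (0 : ℝ) < s := by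
          have : 0 < s := by omega
          exact_mod_cast this
        have hf0 : (0 : ℝ) < f := by
          have : 0 < f := by omega
          exact_mod_cast this
        rw [div_le_div_iff₀ hs0 hf0, one_mul]
        have h1 : (f : ℝ) ≤ M := by
          have h2 : f ≤ a i := Nat.le_of_dvd (hab i).1 hfa
          exact_mod_cast h2.trans (haM i)
        have h2 : 1 / cL ≤ M := by
          have h3 : (1 / cL : ℝ) ≤ ⌈1 / cL⌉₊ := Nat.le_ceil _
          have h4 : ((⌈1 / cL⌉₊ : ℕ) : ℝ) ≤ M := by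
            have : ⌈1 / cL⌉₊ ≤ M := by omega
            exact_mod_cast this
          linarith
        have h3 : (M : ℝ) ^ 2 ≤ s := by exact_mod_cast hM2s
        rw [div_le_iff₀ hcL] at h2
        calc (f : ℝ) ≤ 1 * M := by rw [one_mul]; exact h1
          _ ≤ (M * cL) * M := mul_le_mul_of_nonneg_right h2 hM0.le
          _ = cL * (M : ℝ) ^ 2 := by ring
          _ ≤ cL * s := mul_le_mul_of_nonneg_left h3 hcL.le
      obtain ⟨n, hn1, hn2, hn3, hn4⟩ := hplus s (by omega) f χ _ hχ hTe hLs a b hadm hab hb1 has i hfa hχb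
        ((hfilt (16 * (u1 + 1)) (by omega)).trans hϑa)
      refine ⟨n, ?_, hn3, fun j => ?_⟩
      · have h1 : s ^ (16 * u1) ≤ s ^ V := Nat.pow_le_pow_right (by omega) (by omega)
        omega
      · have h1 := omega_le (by omega) hab hb1 has hn2 (fun j p hp hpd =>
          lt_of_le_of_lt (Nat.le_self_pow (by norm_num) s) (hn4 j p hp hpd)) j
        omega
    · -- `χ (b i) = -1`
      obtain ⟨n, hn1, hn2, hn3, hn4⟩ := hminus s (by omega) f χ hχ a b hadm hab hb1 has i hfa hχb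
        ((hfilt (50 * u2) (by omega)).trans hϑb)
      refine ⟨n, ?_, hn3, fun j => ?_⟩
      · have h1 : s ^ (50 * u2) ≤ s ^ V := Nat.pow_le_pow_right (by omega) (by omega)
        omega
      · have h1 := omega_le (by omega) hab hb1 has hn2 hn4 j
        omega
  · -- no exceptional modulus
    push Not at hex
    obtain ⟨T, hT1, hT⟩ : ∃ T : Finset ℕ, #T ≤ 1 ∧ ∀ f, LOW.Exc z δ f → ¬ f ∣ a i * WT M T := by
      by_cases hE : ∃ f, LOW.Exc z δ f
      · obtain ⟨f, hf⟩ := hE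
        obtain ⟨T, hT1, hT2⟩ := choose_T (M := M) (by have := hf.1; omega) (hab i).1 (hex f hf)
        refine ⟨T, hT1, fun g hg => ?_⟩
        rw [huniq g f hg hf]
        exact hT2
      · exact ⟨∅, by simp, fun f hf => absurd ⟨f, hf⟩ hE⟩
    have hWpos := WT_pos M T
    have hWM := WT_le M (by omega) T
    have hq1 : 1 ≤ a i * WT M T := Nat.mul_pos (hab i).1 hWpos
    have hq16 : (a i * WT M T) ^ 16 ≤ z := by
      calc (a i * WT M T) ^ 16 ≤ (M * M) ^ 16 := Nat.pow_le_pow_left (Nat.mul_le_mul (haM i) hWM) 16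
        _ = z := by rw [hz]; ring
    obtain ⟨N, hN1, hN2, hN3⟩ := hpipe M (by omega) a b hadm hab hb1 hinj haM i T hT1 (by
      intro χ hχ σ hσ hσL
      rw [← hz] at hσL ⊢
      exact hgood _ hq1 hq16 hT χ hχ σ hσ hσL)
    have hNr : (17 : ℝ) ≤ N := by
      have : 17 ≤ N := by omega
      exact_mod_cast this
    have hlogN : 0 < Real.log N := Real.log_pos (by linarith)
    have hd := hdens N (by omega) a b hadm
    have hpos : (0 : ℝ) < #((range (N + 1)).filter (fun n => (a i * n + b i).Prime ∧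
        ∀ j, (a j * n + b j).primeFactorsList.length ≤ R)) := by
      refine lt_of_lt_of_le ?_ hN3
      have h1 : 0 < dens a b N := lt_of_lt_of_le (by positivity) hd
      positivity
    have hpos' : 0 < #((range (N + 1)).filter (fun n => (a i * n + b i).Prime ∧
        ∀ j, (a j * n + b j).primeFactorsList.length ≤ R)) := by exact_mod_cast hpos
    obtain ⟨n, hn⟩ := card_pos.1 hpos'
    rw [mem_filter, mem_range] at hn
    refine ⟨n, ?_, hn.2.1, fun j => (hn.2.2 j).trans (by omega)⟩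
    have h1 : N ≤ 8 * M ^ A := by exact_mod_cast hN2
    have h2 : M ^ A ≤ M ^ (A + 2 * V ^ J * V) := Nat.pow_le_pow_right (by omega) (by omega)
    omega

end Pool.Agent.H92.G
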