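import Pool.Agent.H92.G.Lam
import Pool.Agent.H92.F.Base

set_option autoImplicit false

/-! Counting `n` in a class for which `d` divides a linear form. -/

open Finset Filter Topology

namespace Pool.Agent.H92.G

theorem class_Ioc (n0 N Q γ : ℕ) (hQ : 0 < Q) (hN : n0 ≤ N) :
    |(((Ioc n0 N).filter (fun m => m ≡ γ [MOD Q])).card : ℝ) - ((N : ℝ) - n0) / Q| ≤ 2 := by
  have h1 := Pool.Agent.H92.F.card_class N Q γ hQ
  have h2 := Pool.Agent.H92.F.card_class n0 Q γ hQ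
  have h3 : ((Icc 1 N).filter (fun m => m ≡ γ [MOD Q])).card = ((Icc 1 n0).filter (fun m => m ≡ γ [MOD Q])).card +
      ((Ioc n0 N).filter (fun m => m ≡ γ [MOD Q])).card := by
    rw [← card_union_of_disjoint]
    · congr 1
      ext m
      simp only [mem_filter, mem_union, mem_Icc, mem_Ioc]
      constructor
      · rintro ⟨h4, h5⟩
        rcases le_or_gt m n0 with h6 | h6
        · exact Or.inl ⟨⟨h4.1, h6⟩, h5⟩
        · exact Or.inr ⟨⟨h6, h4.2⟩, h5⟩
      · rintro (⟨h4, h5⟩ | ⟨h4, h5⟩)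
        · exact ⟨⟨h4.1, h4.2.trans hN⟩, h5⟩
        · exact ⟨⟨by omega, h4.2⟩, h5⟩
    · rw [Finset.disjoint_left]
      intro m hm hm'
      rw [mem_filter, mem_Icc] at hm
      rw [mem_filter, mem_Ioc] at hm'
      omega
  have h4 : (((Icc 1 N).filter (fun m => m ≡ γ [MOD Q])).card : ℝ) = (((Icc 1 n0).filter (fun m => m ≡ γ [MOD Q])).card : ℝ) +
      (((Ioc n0 N).filter (fun m => m ≡ γ [MOD Q])).card : ℝ) := by exact_mod_cast h3
  have h5 : ((N : ℝ) - n0) / Q = (N : ℝ) / Q - (n0 : ℝ) / Q := by ring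
  rw [h5]
  rw [abs_le] at h1 h2 ⊢
  constructor <;> linarith

theorem gcd_prod {Z : Finset ℕ} (hZ : ∀ p ∈ Z, p.Prime) (d : ℕ) :
    d.gcd (∏ p ∈ Z, p) = ∏ p ∈ Z, (if p ∣ d then p else 1) := by
  classical
  induction Z using Finset.induction_on with
  | empty => simp
  | @insert p Z hp ih =>
    have hpp := hZ p (mem_insert_self _ _)
    have hcop : p.Coprime (∏ q ∈ Z, q) := by
      apply Nat.Coprime.prod_right
      intro q hq
      rw [Nat.coprime_primes hpp (hZ q (mem_insert_of_mem hq))]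
      rintro rfl
      exact hp hq
    rw [prod_insert hp, prod_insert hp, ← ih (fun q hq => hZ q (mem_insert_of_mem hq)), hcop.gcd_mul]
    congr 1
    split_ifs with h
    · exact Nat.gcd_eq_right h
    · rw [Nat.gcd_comm]
      exact (Nat.Prime.coprime_iff_not_dvd hpp).2 h

theorem exists_root {a b d : ℕ} (hd : 0 < d) (h : a.Coprime d) : ∃ n : ℕ, d ∣ a * n + b := by
  have : NeZero d := ⟨hd.ne'⟩
  refine ⟨((-(b : ZMod d)) * (a : ZMod d)⁻¹).val, ?_⟩
  rw [← ZMod.natCast_eq_zero_iff]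
  push_cast
  rw [ZMod.natCast_zmod_val]
  have h1 : (a : ZMod d) * (a : ZMod d)⁻¹ = 1 := ZMod.coe_mul_inv_eq_one a h
  calc (a : ZMod d) * (-(b : ZMod d) * (a : ZMod d)⁻¹) + b = -(b : ZMod d) * ((a : ZMod d) * (a : ZMod d)⁻¹) + b := by ring
    _ = 0 := by rw [h1]; ring

/-- the local factor -/
noncomputable def cc (a b ν : ℕ) (p : ℕ) : ℝ := if p ∣ a * ν + b then (p : ℝ) else 0

theorem cnt {a b d : ℕ} (Z0 : Finset ℕ) (hZ0 : ∀ p ∈ Z0, p.Prime) (ha : 0 < a) (hab : a.Coprime b) (ν n0 N : ℕ)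
    (hd : 0 < d) (hN : n0 ≤ N) :
    |(((Ioc n0 N).filter (fun n => n ≡ ν [MOD ∏ p ∈ Z0, p] ∧ d ∣ a * n + b)).card : ℝ) -
      ((N : ℝ) - n0) * (∏ p ∈ Z0 ∪ a.primeFactors, (if p ∣ d then cc a b ν p else 1)) / (d * (∏ p ∈ Z0, p : ℕ))| ≤ 2 := by
  classical
  obtain ⟨Q, hQ⟩ : ∃ Q : ℕ, Q = ∏ p ∈ Z0, p := ⟨_, rfl⟩
  rw [← hQ]
  have hQ0 : 0 < Q := by rw [hQ]; exact prod_pos fun p hp => (hZ0 p hp).pos
  have hapf : ∀ p ∈ a.primeFactors, p.Prime ∧ p ∣ a ∧ ¬ p ∣ b := by
    intro p hp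
    have h1 := Nat.prime_of_mem_primeFactors hp
    have h2 := Nat.dvd_of_mem_primeFactors hp
    refine ⟨h1, h2, fun h3 => ?_⟩
    have := Nat.dvd_gcd h2 h3
    rw [hab] at this
    exact h1.one_lt.ne' (Nat.dvd_one.1 this)
  have hmodp : ∀ p ∈ Z0, ∀ n, n ≡ ν [MOD Q] → (p ∣ a * n + b ↔ p ∣ a * ν + b) := by
    intro p hp n hn
    have h1 : p ∣ Q := by rw [hQ]; exact dvd_prod_of_mem _ hp
    have h2 : a * n + b ≡ a * ν + b [MOD p] := ((hn.of_dvd h1).mul_left a).add_right b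
    exact h2.dvd_iff dvd_rfl
  by_cases hbad : ∃ p ∈ Z0 ∪ a.primeFactors, p ∣ d ∧ ¬ p ∣ a * ν + b
  · obtain ⟨p, hp, h1, h2⟩ := hbad
    have h3 : ∏ p ∈ Z0 ∪ a.primeFactors, (if p ∣ d then cc a b ν p else 1) = 0 := by
      apply prod_eq_zero hp
      rw [if_pos h1]
      unfold cc
      rw [if_neg h2]
    have h4 : (Ioc n0 N).filter (fun n => n ≡ ν [MOD Q] ∧ d ∣ a * n + b) = ∅ := by
      apply filter_false_of_mem
      rintro n _ ⟨h5, h6⟩
      have h7 : p ∣ a * n + b := h1.trans h6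
      rcases mem_union.1 hp with h8 | h8
      · exact h2 ((hmodp p h8 n h5).1 h7)
      · obtain ⟨h9, h10, h11⟩ := hapf p h8
        exact h11 ((Nat.dvd_add_right (h10.mul_right n)).1 h7)
    rw [h3, h4]
    simp
  · push Not at hbad
    have hda : a.Coprime d := by
      rw [Nat.coprime_comm]
      apply Nat.Coprime.symm
      by_contra hc
      obtain ⟨p, hp, h1, h2⟩ := Nat.Prime.not_coprime_iff_dvd.mp hc
      have hpa : p ∈ a.primeFactors := Nat.mem_primeFactors.2 ⟨hp, h1, ha.ne'⟩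
      have h3 := hbad p (mem_union_right _ hpa) h2
      exact (hapf p hpa).2.2 ((Nat.dvd_add_right (h1.mul_right ν)).1 h3)
    have hprod : ∏ p ∈ Z0 ∪ a.primeFactors, (if p ∣ d then cc a b ν p else 1) = ((d.gcd Q : ℕ) : ℝ) := by
      rw [hQ, gcd_prod hZ0, ← union_sdiff_self_eq_union, prod_union disjoint_sdiff]
      have h1 : ∏ p ∈ a.primeFactors \ Z0, (if p ∣ d then cc a b ν p else 1) = 1 := by
        apply prod_eq_one
        intro p hp
        have hp' := (Finset.mem_sdiff.1 hp).1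
        rw [if_neg]
        intro h2
        have h3 := Nat.dvd_gcd (hapf p hp').2.1 h2
        rw [hda] at h3
        exact (hapf p hp').1.one_lt.ne' (Nat.dvd_one.1 h3)
      rw [h1, mul_one]
      push_cast
      apply prod_congr rfl
      intro p hp
      by_cases h2 : p ∣ d
      · rw [if_pos h2, if_pos h2]
        unfold cc
        rw [if_pos (hbad p (mem_union_left _ hp) h2)]
      · rw [if_neg h2, if_neg h2]
    obtain ⟨nd, hnd⟩ := exists_root (b := b) hd hda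
    have hg : nd ≡ ν [MOD d.gcd Q] := by
      rw [Nat.modEq_iff_dvd, hQ, gcd_prod hZ0, ← prod_filter, Int.natCast_dvd]
      apply Finset.prod_primes_dvd
      · intro p hp
        exact (hZ0 p (mem_filter.1 hp).1).prime
      · intro p hp
        obtain ⟨h1, h2⟩ := mem_filter.1 hp
        have h3 := hbad p (mem_union_left _ h1) h2
        have h4 : p ∣ a * nd + b := h2.trans hnd
        have h5 : (p : ℤ) ∣ (a : ℤ) * ((ν : ℤ) - nd) := by
          have e : (a : ℤ) * ((ν : ℤ) - nd) = ((a * ν + b : ℕ) : ℤ) - ((a * nd + b : ℕ) : ℤ) := by push_cast; ring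
          rw [e]
          exact dvd_sub (Int.natCast_dvd_natCast.2 h3) (Int.natCast_dvd_natCast.2 h4)
        rcases (Nat.prime_iff_prime_int.1 (hZ0 p h1)).dvd_or_dvd h5 with h6 | h6
        · exfalso
          have h7 := Nat.dvd_gcd (Int.natCast_dvd_natCast.1 h6) h2
          rw [hda] at h7
          exact (hZ0 p h1).one_lt.ne' (Nat.dvd_one.1 h7)
        · exact Int.natCast_dvd.1 h6
    obtain ⟨n1, hn1, hn1'⟩ := Nat.chineseRemainder' hg
    have hset : (Ioc n0 N).filter (fun n => n ≡ ν [MOD Q] ∧ d ∣ a * n + b) =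
        (Ioc n0 N).filter (fun n => n ≡ n1 [MOD d.lcm Q]) := by
      apply filter_congr
      intro n _
      have hdn : d ∣ a * n + b ↔ n ≡ n1 [MOD d] := by
        constructor
        · intro h
          have h1 : a * n + b ≡ a * nd + b [MOD d] :=
            ((Nat.modEq_zero_iff_dvd.2 h).trans (Nat.modEq_zero_iff_dvd.2 hnd).symm)
          have h2 : a * n ≡ a * nd [MOD d] := Nat.ModEq.add_right_cancel' b h1
          have h3 : n ≡ nd [MOD d] := Nat.ModEq.cancel_left_of_coprime (by rw [Nat.gcd_comm]; exact hda) h2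
          exact h3.trans hn1.symm
        · intro h
          have h1 : a * n + b ≡ a * nd + b [MOD d] := ((h.trans hn1).mul_left a).add_right b
          exact (h1.dvd_iff dvd_rfl).2 hnd
      rw [hdn]
      constructor
      · rintro ⟨h1, h2⟩
        rw [Nat.modEq_iff_dvd]
        have h3 := (Nat.modEq_iff_dvd.1 h2)
        have h4 := (Nat.modEq_iff_dvd.1 (h1.trans hn1'.symm))
        rw [Int.natCast_dvd] at h3 h4 ⊢
        exact Nat.lcm_dvd h3 h4
      · intro h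
        exact ⟨(h.of_dvd (Nat.dvd_lcm_right _ _)).trans hn1', h.of_dvd (Nat.dvd_lcm_left _ _)⟩
    rw [hprod, hset]
    have hl0 : 0 < d.lcm Q := Nat.lcm_pos hd hQ0
    have h1 := class_Ioc n0 N (d.lcm Q) n1 hl0 hN
    have h2 : ((N : ℝ) - n0) * ((d.gcd Q : ℕ) : ℝ) / (d * (Q : ℕ)) = ((N : ℝ) - n0) / ((d.lcm Q : ℕ) : ℝ) := by
      have h3 : ((d.gcd Q : ℕ) : ℝ) * ((d.lcm Q : ℕ) : ℝ) = (d : ℝ) * Q := by exact_mod_cast Nat.gcd_mul_lcm d Q
      have h4 : (0 : ℝ) < ((d.lcm Q : ℕ) : ℝ) := by exact_mod_cast hl0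
      have h5 : (0 : ℝ) < (d : ℝ) * Q := by
        have : 0 < d * Q := Nat.mul_pos hd hQ0
        exact_mod_cast this
      rw [div_eq_div_iff h5.ne' h4.ne', ← h3]
      ring
    rw [h2]
    exact h1

end Pool.Agent.H92.G
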