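import Pool.Agent.H92.G.PlusA
import Pool.Graph.R_pool_sql_team_seeded_1acbe0a2.Y677.KU.Kuhn
import Pool.Graph.R_seed8.W378.DC.MP

set_option autoImplicit false

/-! Counting integers with given residues, and Mertens' formula. -/

open Finset Filter Topology

namespace Pool.Agent.H92.G

open Pool.Agent.H262R2.UM Pool.Agent.H262R2.UP
open Pool.Agent.W23.DC Pool.Agent.Y882 Pool.Agent.Y677.KU

theorem hits_count {W : ℕ} (hW0 : 0 < W) (T : Finset ℕ) (hT : ∀ p ∈ T, p.Prime ∧ ¬ p ∣ W) (O : ℕ → Finset ℕ)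
    (hO : ∀ p ∈ T, ∀ c ∈ O p, c < p) (ν N : ℕ) :
    |(((Icc 1 N).filter (fun n => n ≡ ν [MOD W] ∧ ∀ p ∈ T, n % p ∈ O p)).card : ℝ) -
      (N : ℝ) / W * ∏ p ∈ T, (((O p).card : ℝ) / p)| ≤ ∏ p ∈ T, ((O p).card : ℝ) := by
  classical
  obtain ⟨ext, hext⟩ : ∃ ext : (∀ p ∈ T, ℕ) → ℕ → ℕ, ext = fun c p => if hp : p ∈ T then c p hp else 0 := ⟨_, rfl⟩
  have hsum : (((Icc 1 N).filter (fun n => n ≡ ν [MOD W] ∧ ∀ p ∈ T, n % p ∈ O p)).card : ℝ) =
      ∑ c ∈ T.pi O, (((Icc 1 N).filter (fun n => n ≡ ν [MOD W] ∧ ∀ p ∈ T, n % p = ext c p)).card : ℝ) := by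
    rw [card_eq_sum_card_fiberwise (s := (Icc 1 N).filter (fun n => n ≡ ν [MOD W] ∧ ∀ p ∈ T, n % p ∈ O p))
      (t := T.pi O) (f := fun m => fun p _ => m % p)]
    · push_cast
      apply sum_congr rfl
      intro c hc
      congr 2
      ext n
      rw [mem_filter, mem_filter, mem_filter]
      rw [Finset.mem_pi] at hc
      constructor
      · rintro ⟨⟨h1, h2, h3⟩, h4⟩
        refine ⟨h1, h2, fun p hp => ?_⟩
        rw [hext]
        simp only [dif_pos hp]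
        exact congrFun (congrFun h4 p) hp
      · rintro ⟨h1, h2, h3⟩
        have h4 : ∀ p (hp : p ∈ T), n % p = c p hp := by
          intro p hp
          have := h3 p hp
          rw [hext] at this
          simpa only [dif_pos hp] using this
        refine ⟨⟨h1, h2, fun p hp => ?_⟩, ?_⟩
        · rw [h4 p hp]
          exact hc p hp
        · funext p hp
          exact h4 p hp
    · intro n hn
      rw [mem_coe, mem_filter] at hn
      rw [mem_coe, Finset.mem_pi]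
      intro p hp
      exact hn.2.2 p hp
  have hprod : (N : ℝ) / W * ∏ p ∈ T, (((O p).card : ℝ) / p) = ∑ c ∈ T.pi O, (N : ℝ) / W * ∏ p ∈ T, (1 / (p : ℝ)) := by
    rw [sum_const, card_pi, nsmul_eq_mul]
    push_cast
    have : ∏ p ∈ T, (((O p).card : ℝ) / p) = (∏ p ∈ T, ((O p).card : ℝ)) * ∏ p ∈ T, (1 / (p : ℝ)) := by
      rw [← prod_mul_distrib]
      apply prod_congr rfl
      intro p _
      ring
    rw [this]
    ring
  rw [hsum, hprod, ← sum_sub_distrib]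
  refine (abs_sum_le_sum_abs _ _).trans ?_
  have hcard : (∏ p ∈ T, ((O p).card : ℝ)) = ((T.pi O).card : ℝ) := by
    rw [card_pi]; push_cast; rfl
  rw [hcard]
  refine le_trans (sum_le_card_nsmul _ _ 1 ?_) (by rw [nsmul_eq_mul, mul_one])
  intro c hc
  rw [Finset.mem_pi] at hc
  have hcp : ∀ p ∈ T, ext c p ∈ O p := by
    intro p hp
    rw [hext]
    simp only [dif_pos hp]
    exact hc p hp
  obtain ⟨γ, hγ⟩ := Pool.Agent.H92.F.crt W ν (ext c) T hT (fun p hp => hO p hp _ (hcp p hp))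
  have e1 : (Icc 1 N).filter (fun n => n ≡ ν [MOD W] ∧ ∀ p ∈ T, n % p = ext c p) =
      (Icc 1 N).filter (fun n => n ≡ γ [MOD W * ∏ p ∈ T, p]) := by
    apply filter_congr
    intro n _
    exact hγ n
  rw [e1]
  have hT0 : 0 < ∏ p ∈ T, p := prod_pos fun p hp => (hT p hp).1.pos
  have h1 := Pool.Agent.H92.F.card_class N (W * ∏ p ∈ T, p) γ (Nat.mul_pos hW0 hT0)
  refine le_trans (le_of_eq ?_) h1
  congr 2
  rw [prod_div_distrib, prod_const_one]
  push_cast
  rw [div_mul_div_comm, mul_one]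

/-- Mertens' formula -/
theorem mer_inv (ε₁ ζ η : ℝ) (hε : 0 < ε₁) (hζ : ζ ≤ 1) (hη : 0 < η) : ∃ Y0 : ℕ, ∀ Y : ℕ, Y0 ≤ Y →
    Mer (pr Y ε₁ ζ) (tt Y) (fun p => 1 / (p : ℝ)) ε₁ ζ η := by
  classical
  obtain ⟨N0, hN0⟩ := Pool.Agent.W378.DC.MP ε₁ (η / 2) hε (by linarith)
  have h2 : ∀ᶠ Y : ℕ in atTop, (4 / η + 4 : ℝ) ≤ (Y : ℝ) ^ ε₁ :=
    tendsto_natCast_atTop_atTop.eventually ((tendsto_rpow_atTop hε).eventually_ge_atTop _)
  obtain ⟨Y1, hY1⟩ := eventually_atTop.1 h2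
  refine ⟨N0 + Y1 + 3, fun Y hY => ?_⟩
  have h3 := hY1 Y (by omega)
  intro a b ha hab hb
  have h4 := hN0 Y (by omega) a b ha hab (hb.trans hζ)
  have hset : (pr Y ε₁ ζ).filter (fun p => a ≤ tt Y p ∧ tt Y p < b) = pr Y a b := by
    ext p
    rw [mem_filter, mem_pr', mem_pr']
    constructor
    · rintro ⟨⟨h5, h6, h7, h8⟩, h9⟩
      exact ⟨h5, h6, h9⟩
    · rintro ⟨h5, h6, h7, h8⟩
      exact ⟨⟨h5, h6, ha.trans h7, h8.trans_le hb⟩, h7, h8⟩
  rw [hset]
  have hY2 : 2 ≤ Y := by omega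
  have hYr : (2 : ℝ) ≤ Y := by exact_mod_cast hY2
  have hlY : 0 < Real.log Y := Real.log_pos (by linarith)
  obtain ⟨y, hy⟩ : ∃ y : ℕ, y = ⌈(Y : ℝ) ^ ε₁⌉₊ - 1 := ⟨_, rfl⟩
  have hη4 : (0 : ℝ) < 4 / η := by positivity
  have hy1 : (Y : ℝ) ^ ε₁ ≤ (y : ℝ) + 1 := by
    have h5 := Nat.le_ceil ((Y : ℝ) ^ ε₁)
    have h6 : ⌈(Y : ℝ) ^ ε₁⌉₊ ≤ y + 1 := by omega
    have h7 : ((⌈(Y : ℝ) ^ ε₁⌉₊ : ℕ) : ℝ) ≤ ((y + 1 : ℕ) : ℝ) := by exact_mod_cast h6
    push_cast at h7
    linarith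
  have hypos : 0 < y := by
    have : (0 : ℝ) < y := by linarith
    exact_mod_cast this
  have hyr : (4 / η : ℝ) ≤ y := by linarith
  have hdiff : |∑ p ∈ pr Y a b, 1 / (p : ℝ) - ∑ p ∈ pr Y a b, 1 / ((p : ℝ) - 1)| ≤ η / 2 := by
    rw [← sum_sub_distrib]
    refine (abs_sum_le_sum_abs _ _).trans ?_
    calc ∑ p ∈ pr Y a b, |1 / (p : ℝ) - 1 / ((p : ℝ) - 1)| ≤ ∑ p ∈ pr Y a b, 2 * (1 / ((p : ℝ) * p)) := by
          apply sum_le_sum
          intro p hp
          rw [mem_pr'] at hp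
          have hp2 : (2 : ℝ) ≤ p := by exact_mod_cast hp.2.1.two_le
          have e : 1 / (p : ℝ) - 1 / ((p : ℝ) - 1) = -(1 / ((p : ℝ) * (p - 1))) := by
            have h5 : (p : ℝ) ≠ 0 := by linarith
            have h6 : (p : ℝ) - 1 ≠ 0 := by linarith
            field_simp
            ring
          rw [e, abs_neg, abs_of_nonneg (by apply div_nonneg zero_le_one; apply mul_nonneg <;> linarith), mul_one_div,
            div_le_div_iff₀ (mul_pos (by linarith) (by linarith)) (mul_pos (by linarith) (by linarith))]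
          nlinarith
      _ ≤ ∑ p ∈ Ioc y Y, 2 * (1 / ((p : ℝ) * p)) := by
          apply sum_le_sum_of_subset_of_nonneg
          · intro p hp
            rw [mem_pr'] at hp
            rw [mem_Ioc]
            refine ⟨?_, hp.1.2⟩
            have h5 : (Y : ℝ) ^ ε₁ ≤ p := by
              by_contra hcon
              push Not at hcon
              have := (tt_lt Y p ε₁ hY2 hp.2.1.pos).2 hcon
              linarith [hp.2.2.1]
            have h6 : ⌈(Y : ℝ) ^ ε₁⌉₊ ≤ p := Nat.ceil_le.2 h5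
            have := hp.2.1.pos
            omega
          · intro p _ _
            positivity
      _ = 2 * ∑ p ∈ Ioc y Y, 1 / ((p : ℝ) * p) := by rw [mul_sum]
      _ ≤ 2 * (1 / y) := mul_le_mul_of_nonneg_left (sum_inv_sq hypos) (by norm_num)
      _ ≤ η / 2 := by
          have h5 : (0 : ℝ) < y := by exact_mod_cast hypos
          rw [mul_one_div, div_le_iff₀ h5]
          rw [div_le_iff₀ hη] at hyr
          linarith
  have h5 := abs_add_le (∑ p ∈ pr Y a b, 1 / (p : ℝ) - ∑ p ∈ pr Y a b, 1 / ((p : ℝ) - 1))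
    (∑ p ∈ pr Y a b, 1 / ((p : ℝ) - 1) - Real.log (b / a))
  rw [sub_add_sub_cancel] at h5
  linarith

/-- a bound for `k ^ ω` -/
theorem kpow (k n : ℕ) : ∃ C : ℝ, 1 ≤ C ∧ ∀ T : Finset ℕ, (∀ p ∈ T, p.Prime) →
    ((k : ℝ) ^ T.card) ^ n ≤ C * ((∏ p ∈ T, p : ℕ) : ℝ) := by
  classical
  refine ⟨(((k + 1 : ℕ) : ℝ) ^ n) ^ ((k + 1) ^ n), one_le_pow₀ (one_le_pow₀ (by push_cast; linarith [(Nat.cast_nonneg k : (0:ℝ) ≤ k)])), ?_⟩
  intro T hT
  have hsplit : (T.filter (fun p => p < (k + 1) ^ n)).card + (T.filter (fun p => ¬ p < (k + 1) ^ n)).card = T.card := by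
    have := sum_filter_add_sum_filter_not T (fun p => p < (k + 1) ^ n) (fun _ => 1)
    simpa using this
  have h1 : (T.filter (fun p => p < (k + 1) ^ n)).card ≤ (k + 1) ^ n := by
    calc _ ≤ (range ((k + 1) ^ n)).card := by
          apply card_le_card
          intro p hp
          rw [mem_range]
          exact (mem_filter.1 hp).2
      _ = _ := card_range _
  have hk1 : (1 : ℝ) ≤ ((k + 1 : ℕ) : ℝ) ^ n := one_le_pow₀ (by push_cast; linarith [(Nat.cast_nonneg k : (0:ℝ) ≤ k)])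
  calc ((k : ℝ) ^ T.card) ^ n ≤ (((k + 1 : ℕ) : ℝ) ^ T.card) ^ n := by
        apply pow_le_pow_left₀ (by positivity)
        apply pow_le_pow_left₀ (by positivity)
        push_cast; linarith
    _ = (((k + 1 : ℕ) : ℝ) ^ n) ^ T.card := by rw [← pow_mul, ← pow_mul, mul_comm]
    _ = (((k + 1 : ℕ) : ℝ) ^ n) ^ (T.filter (fun p => p < (k + 1) ^ n)).card *
        (((k + 1 : ℕ) : ℝ) ^ n) ^ (T.filter (fun p => ¬ p < (k + 1) ^ n)).card := by
        rw [← pow_add, hsplit]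
    _ ≤ (((k + 1 : ℕ) : ℝ) ^ n) ^ ((k + 1) ^ n) * ((∏ p ∈ T, p : ℕ) : ℝ) := by
        apply mul_le_mul (pow_le_pow_right₀ hk1 h1) _ (by positivity) (by positivity)
        have h2 : ((k + 1) ^ n) ^ (T.filter (fun p => ¬ p < (k + 1) ^ n)).card ≤ ∏ p ∈ T, p := by
          calc ((k + 1) ^ n) ^ (T.filter (fun p => ¬ p < (k + 1) ^ n)).card =
              ∏ _p ∈ T.filter (fun p => ¬ p < (k + 1) ^ n), (k + 1) ^ n := by rw [prod_const]
            _ ≤ ∏ p ∈ T.filter (fun p => ¬ p < (k + 1) ^ n), p := by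
                apply Finset.prod_le_prod'
                intro p hp
                exact not_lt.1 (mem_filter.1 hp).2
            _ ≤ ∏ p ∈ T, p := by
                apply Nat.le_of_dvd (prod_pos fun p hp => (hT p hp).pos)
                exact prod_dvd_prod_of_subset _ _ _ (filter_subset _ _)
        exact_mod_cast h2

end Pool.Agent.H92.G
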