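import Pool.Agent.H92.G.Tower

set_option autoImplicit false

/-! The weights `1 * χ`. -/

open Finset Filter Topology

namespace Pool.Agent.H92.G

/-- real characters modulo `f` -/
structure Chr (f : ℕ) (χ : ℕ → ℝ) : Prop where
  one : χ 1 = 1
  mul : ∀ m n, χ (m * n) = χ m * χ n
  per : ∀ m n, m ≡ n [MOD f] → χ m = χ n
  val : ∀ n, n.Coprime f → χ n = 1 ∨ χ n = -1
  zero : ∀ n, ¬ n.Coprime f → χ n = 0
  pb : PB χ f

variable {f : ℕ} {χ : ℕ → ℝ}

theorem Chr.abs_le (h : Chr f χ) (n : ℕ) : |χ n| ≤ 1 := by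
  by_cases hn : n.Coprime f
  · rcases h.val n hn with h1 | h1 <;> rw [h1] <;> norm_num
  · rw [h.zero n hn]; norm_num

theorem Chr.pow (h : Chr f χ) (m n : ℕ) : χ (m ^ n) = χ m ^ n := by
  induction n with
  | zero => simp [h.one]
  | succ n ih => rw [pow_succ, h.mul, ih, pow_succ]

/-- the weight -/
noncomputable def lam (χ : ℕ → ℝ) (m : ℕ) : ℝ := ∑ d ∈ m.divisors, χ d

theorem lam_one (h : Chr f χ) : lam χ 1 = 1 := by
  unfold lam
  simp [h.one]

/-- the arithmetic function -/
noncomputable def XA (χ : ℕ → ℝ) : ArithmeticFunction ℝ := ⟨fun n => if n = 0 then 0 else χ n, by simp⟩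

theorem lam_eq (χ : ℕ → ℝ) (m : ℕ) : lam χ m = (XA χ * (ArithmeticFunction.zeta : ArithmeticFunction ℝ)) m := by
  rw [ArithmeticFunction.coe_mul_zeta_apply]
  unfold lam
  apply sum_congr rfl
  intro d hd
  have : d ≠ 0 := (Nat.pos_of_mem_divisors hd).ne'
  simp [XA, this]

theorem lam_cop (h : Chr f χ) {m n : ℕ} (hmn : m.Coprime n) : lam χ (m * n) = lam χ m * lam χ n := by
  have h1 : (XA χ).IsMultiplicative := by
    rw [ArithmeticFunction.IsMultiplicative.iff_ne_zero]
    refine ⟨by simp [XA, h.one], ?_⟩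
    intro m n hm hn _
    simp [XA, hm, hn, h.mul]
  rw [lam_eq, lam_eq, lam_eq]
  exact (h1.mul ArithmeticFunction.isMultiplicative_zeta.natCast).map_mul_of_coprime hmn

theorem lam_pp (h : Chr f χ) {p : ℕ} (hp : p.Prime) (v : ℕ) : lam χ (p ^ v) = ∑ j ∈ range (v + 1), χ p ^ j := by
  unfold lam
  rw [Nat.sum_divisors_prime_pow hp]
  exact sum_congr rfl fun j _ => h.pow p j

theorem lam_pp_nonneg (h : Chr f χ) {p : ℕ} (hp : p.Prime) (v : ℕ) : 0 ≤ lam χ (p ^ v) := by
  rw [lam_pp h hp]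
  by_cases hn : p.Coprime f
  · rcases h.val p hn with h1 | h1
    · rw [h1]
      simp
      positivity
    · rw [h1]
      rw [show ∑ j ∈ range (v + 1), (-1 : ℝ) ^ j = if Even (v + 1) then 0 else 1 from neg_one_geom_sum]
      split_ifs <;> norm_num
  · rw [h.zero p hn]
    rw [sum_range_succ']
    simp

theorem lam_nonneg (h : Chr f χ) (m : ℕ) : 0 ≤ lam χ m := by
  induction m using Nat.recOnPrimeCoprime with
  | zero => simp [lam]
  | prime_pow p n hp => exact lam_pp_nonneg h hp n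
  | coprime a b _ _ hab ha hb => rw [lam_cop h hab]; exact mul_nonneg ha hb

theorem lam_le_card (h : Chr f χ) (m : ℕ) : lam χ m ≤ m.divisors.card := by
  unfold lam
  calc ∑ d ∈ m.divisors, χ d ≤ ∑ _d ∈ m.divisors, (1 : ℝ) :=
        sum_le_sum fun d _ => (le_abs_self _).trans (h.abs_le d)
    _ = _ := by simp

/-- primes where the character is `-1` -/
theorem lam_zero (h : Chr f χ) {m r : ℕ} (hr : r.Prime) (hm : r ∣ m) (hm2 : ¬ r ^ 2 ∣ m) (hχ : χ r = -1) :
    lam χ m = 0 := by
  obtain ⟨n, rfl⟩ := hm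
  have hn : ¬ r ∣ n := by
    intro h1
    apply hm2
    rw [sq]
    exact mul_dvd_mul_left r h1
  rw [lam_cop h ((Nat.Prime.coprime_iff_not_dvd hr).2 hn)]
  have := lam_pp h hr 1
  rw [pow_one] at this
  rw [this, hχ]
  norm_num [sum_range_succ]

/-- primes where the character is `1` -/
theorem lam_two (h : Chr f χ) {m r : ℕ} (hr : r.Prime) (hχ : χ r = 1) (hm : m ≠ 0) :
    lam χ (r * m) ≤ 2 * lam χ m := by
  obtain ⟨v, n, hn, rfl⟩ := Nat.exists_eq_pow_mul_and_not_dvd hm r hr.ne_one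
  have hc : ∀ v, (r ^ v).Coprime n := fun v => Nat.Coprime.pow_left _ ((Nat.Prime.coprime_iff_not_dvd hr).2 hn)
  have e : r * (r ^ v * n) = r ^ (v + 1) * n := by ring
  rw [e, lam_cop h (hc _), lam_cop h (hc _), lam_pp h hr, lam_pp h hr, hχ]
  simp only [one_pow, sum_const, card_range, nsmul_eq_mul, mul_one]
  rw [← mul_assoc]
  apply mul_le_mul_of_nonneg_right _ (lam_nonneg h n)
  push_cast
  have : (0 : ℝ) ≤ v := Nat.cast_nonneg v
  linarith

/-- the symmetry of the divisors -/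
theorem lam_sym (h : Chr f χ) {m : ℕ} (hm : 0 < m) (hχ : χ m = 1) :
    |lam χ m - 2 * ∑ d ∈ m.divisors.filter (fun d => d * d < m), χ d| ≤ if IsSquare m then 1 else 0 := by
  have hcop : m.Coprime f := by
    by_contra hc
    rw [h.zero m hc] at hχ
    norm_num at hχ
  have hdv : ∀ d e, d * e = m → χ d = χ e := by
    intro d e hde
    have h1 : χ d * χ e = 1 := by rw [← h.mul, hde, hχ]
    have hd : d.Coprime f := Nat.Coprime.coprime_dvd_left (Dvd.intro _ hde) hcop
    rcases h.val d hd with h2 | h2 <;> rw [h2] at h1 ⊢ <;> linarith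
  have h3 : ∑ d ∈ m.divisors.filter (fun d => m < d * d), χ d = ∑ d ∈ m.divisors.filter (fun d => d * d < m), χ d := by
    apply sum_nbij' (fun d => m / d) (fun d => m / d)
    · intro d hd
      rw [mem_filter, Nat.mem_divisors] at hd ⊢
      obtain ⟨⟨⟨e, rfl⟩, h1⟩, h2⟩ := hd
      have hd0 : 0 < d := Nat.pos_of_ne_zero (by rintro rfl; simp at h1)
      rw [Nat.mul_div_cancel_left _ hd0]
      have he0 : 0 < e := Nat.pos_of_ne_zero (by rintro rfl; simp at h1)
      refine ⟨⟨dvd_mul_left _ _, h1⟩, ?_⟩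
      have : e < d := Nat.lt_of_mul_lt_mul_left h2
      exact Nat.mul_lt_mul_of_pos_right this he0
    · intro d hd
      rw [mem_filter, Nat.mem_divisors] at hd ⊢
      obtain ⟨⟨⟨e, rfl⟩, h1⟩, h2⟩ := hd
      have hd0 : 0 < d := Nat.pos_of_ne_zero (by rintro rfl; simp at h1)
      rw [Nat.mul_div_cancel_left _ hd0]
      have he0 : 0 < e := Nat.pos_of_ne_zero (by rintro rfl; simp at h1)
      refine ⟨⟨dvd_mul_left _ _, h1⟩, ?_⟩
      have : d < e := Nat.lt_of_mul_lt_mul_left h2
      exact Nat.mul_lt_mul_of_pos_right this he0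
    · intro d hd
      rw [mem_filter, Nat.mem_divisors] at hd
      exact Nat.div_div_self hd.1.1 hd.1.2
    · intro d hd
      rw [mem_filter, Nat.mem_divisors] at hd
      exact Nat.div_div_self hd.1.1 hd.1.2
    · intro d hd
      rw [mem_filter, Nat.mem_divisors] at hd
      exact hdv d (m / d) (Nat.mul_div_cancel' hd.1.1)
  have h4 : lam χ m = ∑ d ∈ m.divisors.filter (fun d => d * d < m), χ d +
      ∑ d ∈ m.divisors.filter (fun d => m < d * d), χ d + ∑ d ∈ m.divisors.filter (fun d => d * d = m), χ d := by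
    unfold lam
    rw [sum_filter, sum_filter, sum_filter, ← sum_add_distrib, ← sum_add_distrib]
    apply sum_congr rfl
    intro d _
    rcases lt_trichotomy (d * d) m with h1 | h1 | h1
    · simp [h1, h1.ne, not_lt.2 h1.le]
    · simp [h1]
    · simp [h1, h1.ne', not_lt.2 h1.le]
  rw [h4, h3]
  have e : ∑ d ∈ m.divisors.filter (fun d => d * d < m), χ d + ∑ d ∈ m.divisors.filter (fun d => d * d < m), χ d +
      ∑ d ∈ m.divisors.filter (fun d => d * d = m), χ d - 2 * ∑ d ∈ m.divisors.filter (fun d => d * d < m), χ d =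
      ∑ d ∈ m.divisors.filter (fun d => d * d = m), χ d := by ring
  rw [e]
  split_ifs with hsq
  · obtain ⟨r, hr⟩ := hsq
    have : m.divisors.filter (fun d => d * d = m) = {r} := by
      ext d
      rw [mem_filter, mem_singleton, Nat.mem_divisors]
      constructor
      · rintro ⟨_, h1⟩
        rw [hr] at h1
        exact Nat.mul_self_inj.1 h1
      · rintro rfl
        exact ⟨⟨⟨d, hr⟩, hm.ne'⟩, hr.symm⟩
    rw [this, sum_singleton]
    exact h.abs_le r
  · rw [filter_false_of_mem, sum_empty, abs_zero]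
    intro d _ h1
    exact hsq ⟨d, h1.symm⟩

end Pool.Agent.H92.G
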