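import Pool.Agent.H92.G.Cnt

set_option autoImplicit false

/-! The sum of the weights over a progression. -/

open Finset Filter Topology

namespace Pool.Agent.H92.G

variable {f : ℕ} {χ : ℕ → ℝ}

/-- the squares -/
theorem squares (a b N : ℕ) (ha : 0 < a) (S : Finset ℕ) (hS : S ⊆ Icc 1 N) :
    ∑ n ∈ S, (if IsSquare (a * n + b) then (1 : ℝ) else 0) ≤ Nat.sqrt (a * N + b) := by
  classical
  rw [← sum_filter, sum_const, nsmul_eq_mul, mul_one]
  have h1 : (S.filter (fun n => IsSquare (a * n + b))).card ≤ (Icc 1 (Nat.sqrt (a * N + b))).card := by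
    apply card_le_card_of_injOn (fun n => Nat.sqrt (a * n + b))
    · intro n hn
      rw [mem_coe, mem_filter] at hn
      have h2 := mem_Icc.1 (hS hn.1)
      rw [mem_coe, mem_Icc]
      constructor
      · apply Nat.sqrt_pos.2
        have := Nat.mul_pos ha h2.1
        omega
      · apply Nat.sqrt_le_sqrt
        have := Nat.mul_le_mul_left a h2.2
        omega
    · intro n hn n' hn' h
      rw [mem_coe, mem_filter] at hn hn'
      obtain ⟨r, hr⟩ := hn.2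
      obtain ⟨r', hr'⟩ := hn'.2
      simp only at h
      rw [hr, hr', Nat.sqrt_eq, Nat.sqrt_eq] at h
      have h3 : a * n + b = a * n' + b := by rw [hr, hr', h]
      have h4 : a * n = a * n' := by omega
      exact Nat.eq_of_mul_eq_mul_left ha h4
  rw [Nat.card_Icc, Nat.add_sub_cancel] at h1
  exact_mod_cast h1

/-- first step: the hyperbola method -/
theorem step1 (h : Chr f χ) {a b : ℕ} (ha : 0 < a) (hfa : f ∣ a) (hχb : χ b = 1) (Q ν N : ℕ) :
    |∑ n ∈ (Icc 1 N).filter (fun n => n ≡ ν [MOD Q]), lam χ (a * n + b) -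
      2 * ∑ d ∈ Icc 1 (Nat.sqrt (a * N + b)), χ d *
        (((Ioc ((d * d - b) / a) N).filter (fun n => n ≡ ν [MOD Q] ∧ d ∣ a * n + b)).card : ℝ)| ≤
      Nat.sqrt (a * N + b) := by
  classical
  obtain ⟨S, hS⟩ : ∃ S : Finset ℕ, S = (Icc 1 N).filter (fun n => n ≡ ν [MOD Q]) := ⟨_, rfl⟩
  obtain ⟨D, hD⟩ : ∃ D : ℕ, D = Nat.sqrt (a * N + b) := ⟨_, rfl⟩
  rw [← hS, ← hD]
  have hSN : S ⊆ Icc 1 N := by rw [hS]; exact filter_subset _ _
  have hpos : ∀ n ∈ S, 0 < a * n + b := by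
    intro n hn
    have := Nat.mul_pos ha (mem_Icc.1 (hSN hn)).1
    omega
  have h1 : ∑ d ∈ Icc 1 D, χ d *
        (((Ioc ((d * d - b) / a) N).filter (fun n => n ≡ ν [MOD Q] ∧ d ∣ a * n + b)).card : ℝ) =
      ∑ n ∈ S, ∑ d ∈ (a * n + b).divisors.filter (fun d => d * d < a * n + b), χ d := by
    have h2 : ∀ n ∈ S, ∑ d ∈ (a * n + b).divisors.filter (fun d => d * d < a * n + b), χ d =
        ∑ d ∈ Icc 1 D, if d ∣ a * n + b ∧ d * d < a * n + b then χ d else 0 := by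
      intro n hn
      rw [← sum_filter]
      apply sum_congr _ (fun _ _ => rfl)
      ext d
      rw [mem_filter, mem_filter, Nat.mem_divisors, mem_Icc]
      constructor
      · rintro ⟨⟨h3, h4⟩, h5⟩
        refine ⟨⟨Nat.pos_of_dvd_of_pos h3 (hpos n hn), ?_⟩, h3, h5⟩
        rw [hD]
        apply Nat.le_sqrt.2
        have := Nat.mul_le_mul_left a (mem_Icc.1 (hSN hn)).2
        omega
      · rintro ⟨_, h3, h5⟩
        exact ⟨⟨h3, (hpos n hn).ne'⟩, h5⟩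
    rw [sum_congr rfl h2, sum_comm]
    apply sum_congr rfl
    intro d hd
    rw [← sum_filter, sum_const, nsmul_eq_mul, mul_comm]
    congr 2
    congr 1
    ext n
    rw [mem_filter, mem_filter, mem_Ioc, hS, mem_filter, mem_Icc, Nat.div_lt_iff_lt_mul ha]
    constructor
    · rintro ⟨⟨h3, h4⟩, h5, h6⟩
      have h7 : 0 < n := by
        rcases Nat.eq_zero_or_pos n with h8 | h8
        · subst h8; omega
        · exact h8
      refine ⟨⟨⟨h7, h4⟩, h5⟩, h6, ?_⟩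
      have : n * a = a * n := mul_comm _ _
      omega
    · rintro ⟨⟨⟨h3, h4⟩, h5⟩, h6, h7⟩
      refine ⟨⟨?_, h4⟩, h5, h6⟩
      have : n * a = a * n := mul_comm _ _
      have := Nat.mul_pos ha h3
      omega
  rw [h1, mul_sum, ← sum_sub_distrib]
  refine (abs_sum_le_sum_abs _ _).trans (le_trans ?_ (squares a b N ha S hSN |>.trans (by rw [hD])))
  apply sum_le_sum
  intro n hn
  apply lam_sym h (hpos n hn)
  rw [← hχb]
  apply h.per
  have h3 : a * n ≡ 0 [MOD f] := Nat.modEq_zero_iff_dvd.2 (hfa.mul_right n)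
  have := h3.add_right b
  rwa [zero_add] at this

/-- the real function under the sum -/
theorem n0_est {a b d : ℕ} (ha : 0 < a) (hba : b ≤ a) :
    |(((d * d - b) / a : ℕ) : ℝ) - (d : ℝ) * d / a| ≤ 2 := by
  have har : (0 : ℝ) < a := by exact_mod_cast ha
  have h1 : (((d * d - b) / a : ℕ) : ℝ) ≤ (d : ℝ) * d / a := by
    rw [le_div_iff₀ har]
    have h2 : (d * d - b) / a * a ≤ d * d - b := Nat.div_mul_le_self _ _
    have h3 : (d * d - b) / a * a ≤ d * d := h2.trans (Nat.sub_le _ _)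
    exact_mod_cast h3
  have h2 : (d : ℝ) * d / a ≤ (((d * d - b) / a : ℕ) : ℝ) + 2 := by
    rw [div_le_iff₀ har]
    have h3 : d * d - b < ((d * d - b) / a + 1) * a := by
      have := Nat.lt_mul_div_succ (d * d - b) ha
      rw [mul_comm a] at this
      exact this
    have h4 : d * d ≤ ((d * d - b) / a + 2) * a := by
      have e : ((d * d - b) / a + 2) * a = ((d * d - b) / a + 1) * a + a := by ring
      omega
    exact_mod_cast h4
  rw [abs_le]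
  constructor <;> linarith

theorem prod_union_le (Z0 Z1 : Finset ℕ) (h0 : ∀ p ∈ Z0, 1 ≤ p) (h1 : ∀ p ∈ Z1, 1 ≤ p) :
    ∏ p ∈ Z0 ∪ Z1, (p : ℝ) ≤ (∏ p ∈ Z0, (p : ℝ)) * ∏ p ∈ Z1, (p : ℝ) := by
  classical
  rw [← union_sdiff_self_eq_union, prod_union disjoint_sdiff]
  apply mul_le_mul_of_nonneg_left _ (prod_nonneg fun _ _ => Nat.cast_nonneg _)
  rw [← prod_sdiff (Finset.sdiff_subset : Z1 \ Z0 ⊆ Z1)]
  apply le_mul_of_one_le_left (prod_nonneg fun _ _ => Nat.cast_nonneg _)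
  have : (1 : ℝ) ≤ ∏ p ∈ Z1 \ (Z1 \ Z0), (p : ℝ) := by
    have h2 : 1 ≤ ∏ p ∈ Z1 \ (Z1 \ Z0), p := by
      apply Finset.one_le_prod'
      intro p hp
      exact h1 p (Finset.mem_sdiff.1 hp).1
    have h3 : ((1 : ℕ) : ℝ) ≤ ((∏ p ∈ Z1 \ (Z1 \ Z0), p : ℕ) : ℝ) := Nat.cast_le.2 h2
    push_cast at h3
    exact h3
  exact this

set_option maxHeartbeats 1000000 in
/-- the sum of the weights over a progression -/
theorem lam_ap (h : Chr f χ) {L : ℝ} (hL : Tends χ L) {a b : ℕ} (ha : 0 < a) (hfa : f ∣ a) (hab : a.Coprime b)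
    (hba : b ≤ a) (hχb : χ b = 1) (Z0 : Finset ℕ) (hZ0 : ∀ p ∈ Z0, p.Prime) (ν N : ℕ) :
    |∑ n ∈ (Icc 1 N).filter (fun n => n ≡ ν [MOD ∏ p ∈ Z0, p]), lam χ (a * n + b) -
      2 * ((N : ℝ) / (∏ p ∈ Z0, p : ℕ)) *
        (L * ∏ p ∈ Z0 ∪ a.primeFactors, (1 + (cc a b ν p - 1) * χ p / p))| ≤
      17 * (a : ℝ) ^ 2 * ((Nat.sqrt (a * N + b) : ℝ) + 1) := by
  classical
  obtain ⟨Q, hQ⟩ : ∃ Q : ℕ, Q = ∏ p ∈ Z0, p := ⟨_, rfl⟩
  obtain ⟨D, hD⟩ : ∃ D : ℕ, D = Nat.sqrt (a * N + b) := ⟨_, rfl⟩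
  obtain ⟨Z, hZd⟩ : ∃ Z : Finset ℕ, Z = Z0 ∪ a.primeFactors := ⟨_, rfl⟩
  obtain ⟨c, hc⟩ : ∃ c : ℕ → ℝ, c = cc a b ν := ⟨_, rfl⟩
  have hs := step1 h ha hfa hχb (∏ p ∈ Z0, p) ν N
  rw [← hQ, ← hD] at hs
  rw [← hQ, ← hD, ← hZd, ← hc]
  have hZp : ∀ p ∈ Z, p.Prime := by
    intro p hp
    rw [hZd, mem_union] at hp
    rcases hp with hp | hp
    · exact hZ0 p hp
    · exact Nat.prime_of_mem_primeFactors hp
  have hcZ : ∀ p ∈ Z, c p = 0 ∨ c p = p := by
    intro p _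
    rw [hc]
    unfold cc
    split_ifs
    · exact Or.inr rfl
    · exact Or.inl rfl
  have har : (1 : ℝ) ≤ a := by exact_mod_cast ha
  have hQ0 : 0 < Q := by rw [hQ]; exact prod_pos fun p hp => (hZ0 p hp).pos
  have hQr : (1 : ℝ) ≤ Q := by exact_mod_cast hQ0
  obtain ⟨PP, hPP⟩ : ∃ PP : ℝ, PP = ∏ p ∈ Z, (p : ℝ) := ⟨_, rfl⟩
  have hPP0 : 0 ≤ PP := by rw [hPP]; exact prod_nonneg fun _ _ => Nat.cast_nonneg _
  have hPPle : PP ≤ Q * a := by
    rw [hPP, hZd]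
    refine (prod_union_le Z0 a.primeFactors (fun p hp => (hZ0 p hp).one_lt.le)
      (fun p hp => (Nat.prime_of_mem_primeFactors hp).one_lt.le)).trans ?_
    rw [hQ]
    push_cast
    apply mul_le_mul_of_nonneg_left _ (prod_nonneg fun _ _ => Nat.cast_nonneg _)
    have h3 : ((∏ p ∈ a.primeFactors, p : ℕ) : ℝ) ≤ (a : ℝ) :=
      Nat.cast_le.2 (Nat.le_of_dvd ha (Nat.prod_primeFactors_dvd a))
    push_cast at h3
    exact h3
  obtain ⟨hPB, hT⟩ := tower h.mul h.abs_le h.pb hL Z hZp hcZ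
  have habs := hZ_abs h.abs_le Z hZp hcZ
  rw [← hPP] at hPB habs
  obtain ⟨hh, hhh⟩ : ∃ hh : ℕ → ℝ, hh = hZ χ c Z := ⟨_, rfl⟩
  rw [← hhh] at hPB hT habs
  obtain ⟨S, hS⟩ : ∃ S : ℝ, S = L * ∏ p ∈ Z, (1 + (c p - 1) * χ p / p) := ⟨_, rfl⟩
  rw [← hS] at hT ⊢
  have hfr : (f : ℝ) ≤ a := by exact_mod_cast Nat.le_of_dvd ha hfa
  have hB : (f : ℝ) * PP ≤ a * PP := mul_le_mul_of_nonneg_right hfr hPP0
  have hn0 : ∀ d ∈ Icc 1 D, (d * d - b) / a ≤ N := by
    intro d hd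
    have h1 : d * d ≤ a * N + b := by
      have h2 : d ≤ Nat.sqrt (a * N + b) := by rw [← hD]; exact (mem_Icc.1 hd).2
      exact Nat.le_sqrt.1 h2
    rw [Nat.div_le_iff_le_mul_add_pred ha]
    omega
  -- the counting errors
  have e1 : |∑ d ∈ Icc 1 D, χ d *
        (((Ioc ((d * d - b) / a) N).filter (fun n => n ≡ ν [MOD Q] ∧ d ∣ a * n + b)).card : ℝ) -
      ∑ d ∈ Icc 1 D, hh d * ((N : ℝ) - ((d * d - b) / a : ℕ)) / (d * Q)| ≤ 2 * D := by
    rw [← sum_sub_distrib]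
    refine (abs_sum_le_sum_abs _ _).trans ?_
    calc _ ≤ ∑ _d ∈ Icc 1 D, (2 : ℝ) := by
          apply sum_le_sum
          intro d hd
          have h1 := cnt (b := b) Z0 hZ0 ha hab ν ((d * d - b) / a) N (mem_Icc.1 hd).1 (hn0 d hd)
          rw [← hQ, ← hZd, ← hc] at h1
          have e : hh d * ((N : ℝ) - ((d * d - b) / a : ℕ)) / (d * Q) =
              χ d * (((N : ℝ) - ((d * d - b) / a : ℕ)) * (∏ p ∈ Z, (if p ∣ d then c p else 1)) / (d * Q)) := by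
            rw [hhh]
            unfold hZ
            ring
          rw [e, ← mul_sub, abs_mul]
          calc _ ≤ 1 * 2 := mul_le_mul (h.abs_le d) h1 (abs_nonneg _) zero_le_one
            _ = 2 := one_mul _
      _ = 2 * D := by
          rw [sum_const, Nat.card_Icc, Nat.add_sub_cancel, nsmul_eq_mul, mul_comm]
  -- the main sum
  have e2 : ∑ d ∈ Icc 1 D, hh d * ((N : ℝ) - ((d * d - b) / a : ℕ)) / (d * Q) =
      (1 / Q) * (N * ∑ d ∈ Icc 1 D, hh d / d - (1 / a * ∑ d ∈ Icc 1 D, hh d * d +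
        ∑ d ∈ Icc 1 D, hh d / d * ((((d * d - b) / a : ℕ) : ℝ) - (d : ℝ) * d / a))) := by
    rw [mul_sum, mul_sum, ← sum_add_distrib, ← sum_sub_distrib, mul_sum]
    apply sum_congr rfl
    intro d hd
    have hd0 : (d : ℝ) ≠ 0 := by
      have := (mem_Icc.1 hd).1
      have : d ≠ 0 := by omega
      exact_mod_cast this
    have hQ1 : (Q : ℝ) ≠ 0 := by linarith
    have ha1 : (a : ℝ) ≠ 0 := by linarith
    field_simp
    ring
  have e3 := Tends_rate hPB hT D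
  have e4 := abel_id hPB D
  have e5 : |∑ d ∈ Icc 1 D, hh d / d * ((((d * d - b) / a : ℕ) : ℝ) - (d : ℝ) * d / a)| ≤ 2 * PP * D := by
    refine (abs_sum_le_sum_abs _ _).trans ?_
    calc _ ≤ ∑ _d ∈ Icc 1 D, (2 * PP) := by
          apply sum_le_sum
          intro d hd
          have hd0 : (1 : ℝ) ≤ d := by exact_mod_cast (mem_Icc.1 hd).1
          rw [abs_mul, abs_div, abs_of_pos (show (0 : ℝ) < d by linarith)]
          calc |hh d| / d * |(((d * d - b) / a : ℕ) : ℝ) - (d : ℝ) * d / a| ≤ PP * 2 := by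
                apply mul_le_mul _ (n0_est ha hba) (abs_nonneg _) hPP0
                exact (div_le_self (abs_nonneg _) hd0).trans (habs d)
            _ = 2 * PP := by ring
      _ = 2 * PP * D := by
          rw [sum_const, Nat.card_Icc, Nat.add_sub_cancel, nsmul_eq_mul, mul_comm]
  have hDN : (N : ℝ) ≤ ((D : ℝ) + 1) ^ 2 := by
    have h1 : a * N + b < (D + 1) * (D + 1) := by rw [hD]; exact Nat.lt_succ_sqrt _
    have h2 : N ≤ a * N := Nat.le_mul_of_pos_left N ha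
    have h3 : N ≤ (D + 1) ^ 2 := by rw [sq]; omega
    exact_mod_cast h3
  have hD0 : (0 : ℝ) ≤ D := Nat.cast_nonneg D
  have e6 : N * |∑ d ∈ Icc 1 D, hh d / d - S| ≤ 2 * (a * PP) * (D + 1) := by
    calc N * |∑ d ∈ Icc 1 D, hh d / d - S| ≤ ((D : ℝ) + 1) ^ 2 * (2 * (f * PP) / (D + 1)) :=
          mul_le_mul hDN e3 (abs_nonneg _) (by positivity)
      _ = 2 * (f * PP) * (D + 1) := by
          field_simp
      _ ≤ 2 * (a * PP) * (D + 1) := by
          apply mul_le_mul_of_nonneg_right _ (by linarith)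
          linarith
  have e7 : |1 / (a : ℝ) * ∑ d ∈ Icc 1 D, hh d * d| ≤ 2 * PP * D := by
    rw [abs_mul, abs_of_pos (by positivity)]
    calc 1 / (a : ℝ) * |∑ d ∈ Icc 1 D, hh d * d| ≤ 1 / a * (2 * (a * PP) * D) := by
          apply mul_le_mul_of_nonneg_left _ (by positivity)
          refine e4.trans ?_
          apply mul_le_mul_of_nonneg_right _ hD0
          linarith
      _ = 2 * PP * D := by field_simp
  have e8 : |∑ d ∈ Icc 1 D, hh d * ((N : ℝ) - ((d * d - b) / a : ℕ)) / (d * Q) - N / Q * S| ≤ 6 * (a : ℝ) ^ 2 * (D + 1) := by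
    rw [e2]
    have e : (1 / (Q : ℝ)) * (N * ∑ d ∈ Icc 1 D, hh d / d - (1 / a * ∑ d ∈ Icc 1 D, hh d * d +
        ∑ d ∈ Icc 1 D, hh d / d * ((((d * d - b) / a : ℕ) : ℝ) - (d : ℝ) * d / a))) - N / Q * S =
        1 / Q * (N * (∑ d ∈ Icc 1 D, hh d / d - S) - (1 / a * ∑ d ∈ Icc 1 D, hh d * d +
        ∑ d ∈ Icc 1 D, hh d / d * ((((d * d - b) / a : ℕ) : ℝ) - (d : ℝ) * d / a))) := by ring
    rw [e, abs_mul, abs_of_pos (by positivity)]
    have e9 : |N * (∑ d ∈ Icc 1 D, hh d / d - S) - (1 / a * ∑ d ∈ Icc 1 D, hh d * d +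
        ∑ d ∈ Icc 1 D, hh d / d * ((((d * d - b) / a : ℕ) : ℝ) - (d : ℝ) * d / a))| ≤
        2 * (a * PP) * (D + 1) + (2 * PP * D + 2 * PP * D) := by
      refine (abs_sub _ _).trans (add_le_add ?_ ((abs_add_le _ _).trans (add_le_add e7 e5)))
      rw [abs_mul, abs_of_nonneg (Nat.cast_nonneg N)]
      exact e6
    calc _ ≤ 1 / (Q : ℝ) * (2 * (a * PP) * (D + 1) + (2 * PP * D + 2 * PP * D)) :=
          mul_le_mul_of_nonneg_left e9 (by positivity)
      _ ≤ 1 / (Q : ℝ) * (6 * a * (Q * a) * (D + 1)) := by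
          apply mul_le_mul_of_nonneg_left _ (by positivity)
          have h1 : a * PP ≤ a * (Q * a) := mul_le_mul_of_nonneg_left hPPle (by linarith)
          have h2 : PP ≤ a * PP := le_mul_of_one_le_left hPP0 har
          have h3 : PP * D ≤ a * PP * (D + 1) := mul_le_mul h2 (by linarith) hD0 (by positivity)
          have h4 : a * PP * (D + 1) ≤ a * (Q * a) * (D + 1) := mul_le_mul_of_nonneg_right h1 (by linarith)
          linarith
      _ = 6 * (a : ℝ) ^ 2 * (D + 1) := by field_simp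
  -- conclusion
  have e10 : |∑ d ∈ Icc 1 D, χ d *
        (((Ioc ((d * d - b) / a) N).filter (fun n => n ≡ ν [MOD Q] ∧ d ∣ a * n + b)).card : ℝ) - N / Q * S| ≤
      2 * D + 6 * (a : ℝ) ^ 2 * (D + 1) := by
    have h1 := abs_add_le (∑ d ∈ Icc 1 D, χ d *
        (((Ioc ((d * d - b) / a) N).filter (fun n => n ≡ ν [MOD Q] ∧ d ∣ a * n + b)).card : ℝ) -
      ∑ d ∈ Icc 1 D, hh d * ((N : ℝ) - ((d * d - b) / a : ℕ)) / (d * Q))
      (∑ d ∈ Icc 1 D, hh d * ((N : ℝ) - ((d * d - b) / a : ℕ)) / (d * Q) - N / Q * S)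
    rw [sub_add_sub_cancel] at h1
    linarith
  have e11 := abs_add_le (∑ n ∈ (Icc 1 N).filter (fun n => n ≡ ν [MOD Q]), lam χ (a * n + b) -
      2 * ∑ d ∈ Icc 1 D, χ d *
        (((Ioc ((d * d - b) / a) N).filter (fun n => n ≡ ν [MOD Q] ∧ d ∣ a * n + b)).card : ℝ))
      (2 * (∑ d ∈ Icc 1 D, χ d *
        (((Ioc ((d * d - b) / a) N).filter (fun n => n ≡ ν [MOD Q] ∧ d ∣ a * n + b)).card : ℝ) - N / Q * S))
  have e12 : ∑ n ∈ (Icc 1 N).filter (fun n => n ≡ ν [MOD Q]), lam χ (a * n + b) - 2 * (N / Q) * S =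
      (∑ n ∈ (Icc 1 N).filter (fun n => n ≡ ν [MOD Q]), lam χ (a * n + b) -
      2 * ∑ d ∈ Icc 1 D, χ d *
        (((Ioc ((d * d - b) / a) N).filter (fun n => n ≡ ν [MOD Q] ∧ d ∣ a * n + b)).card : ℝ)) +
      (2 * (∑ d ∈ Icc 1 D, χ d *
        (((Ioc ((d * d - b) / a) N).filter (fun n => n ≡ ν [MOD Q] ∧ d ∣ a * n + b)).card : ℝ) - N / Q * S)) := by ring
  rw [e12]
  refine e11.trans ?_
  rw [abs_mul, abs_of_pos (show (0 : ℝ) < 2 by norm_num)]
  have h1 : 2 * |∑ d ∈ Icc 1 D, χ d *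
        (((Ioc ((d * d - b) / a) N).filter (fun n => n ≡ ν [MOD Q] ∧ d ∣ a * n + b)).card : ℝ) - N / Q * S| ≤
      2 * (2 * D + 6 * (a : ℝ) ^ 2 * (D + 1)) := mul_le_mul_of_nonneg_left e10 (by norm_num)
  have h2 : (D : ℝ) ≤ (a : ℝ) ^ 2 * (D + 1) := by
    have h3 : (1 : ℝ) ≤ (a : ℝ) ^ 2 := one_le_pow₀ har
    calc (D : ℝ) ≤ 1 * (D + 1) := by linarith
      _ ≤ _ := mul_le_mul_of_nonneg_right h3 (by linarith)
  linarith

end Pool.Agent.H92.G
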