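import Pool.Agent.H92.G.Hits

set_option autoImplicit false

/-! Preparations for the exceptional case with `χ (b i) = -1`. -/

open Finset Filter Topology

namespace Pool.Agent.H92.G

open Pool.Agent.H262R2.UM Pool.Agent.H262R2.UP
open Pool.Agent.W23.DC Pool.Agent.Y882 Pool.Agent.Y677.KU

variable {f : ℕ} {χ : ℕ → ℝ}

theorem RtR_card_eq {Rt : ℕ → Finset ℕ} {r s p : ℕ} (hp : 0 < p) (hr : r.Coprime p) (hRt : ∀ c ∈ Rt p, c < p) :
    (RtR Rt r s p).card = (Rt p).card := by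
  apply card_bij (fun c _ => (s + r * c) % p)
  · intro c hc
    exact (mem_filter.1 hc).2
  · intro c hc c' hc' h
    exact sub_inj hr (mem_range.1 (mem_filter.1 hc).1) (mem_range.1 (mem_filter.1 hc').1) h
  · intro c' hc'
    obtain ⟨c, hc, h⟩ := sub_surj (s := s) hp hr (hRt c' hc')
    refine ⟨c, ?_, h⟩
    refine mem_filter.2 ⟨mem_range.2 hc, ?_⟩
    rw [h]
    exact hc'

/-- upper bound sieve for the integers of a class -/
theorem up_one {C : ℕ} (hF : FLC C) (hC1 : 1 ≤ C) (k bb J z0 : ℕ) (P : Finset ℕ)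
    (hP : ∀ p ∈ P, p.Prime ∧ z0 < p ∧ p ≤ 2 ^ 2 ^ J) (hbb : C * (k + 1) ≤ bb) (hz0 : C * (k + 1) ≤ z0) (hbb1 : 1 ≤ bb)
    (Rt : ℕ → Finset ℕ) (hRt : ∀ p ∈ P, (Rt p).card ≤ k ∧ ∀ c ∈ Rt p, c < p) {W : ℕ} (hW0 : 0 < W)
    (hPW : ∀ p ∈ P, ¬ p ∣ W) (ν N : ℕ) :
    ((GS W ν N P Rt).card : ℝ) ≤ 3 / 2 * ((N : ℝ) / W * ∏ p ∈ P, (1 - ((Rt p).card : ℝ) / p)) +
      ((J : ℝ) + 2) * ((((2 ^ 2 ^ J) ^ (C * bb) : ℕ) : ℝ) * (((2 ^ 2 ^ J) ^ (C * bb) : ℕ) : ℝ)) := by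
  classical
  have hkp : ∀ p ∈ P, (k : ℝ) + 1 ≤ p := by
    intro p hp
    have h1 : k + 1 ≤ C * (k + 1) := Nat.le_mul_of_pos_left _ hC1
    have h2 := (hP p hp).2.1
    have : k + 1 ≤ p := by omega
    exact_mod_cast this
  have hfac : ∀ p ∈ P, 0 ≤ 1 - ((Rt p).card : ℝ) / p := by
    intro p hp
    have h1 := hkp p hp
    have h2 : ((Rt p).card : ℝ) ≤ k := by exact_mod_cast (hRt p hp).1
    have hk : (0 : ℝ) ≤ k := Nat.cast_nonneg k
    rw [sub_nonneg, div_le_one (by linarith)]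
    linarith
  have key := hF k bb J z0 P (fun p => ((Rt p).card : ℝ) / p) hbb hz0 hP (fun p hp => by
      have h1 := hkp p hp
      have h2 : ((Rt p).card : ℝ) ≤ k := by exact_mod_cast (hRt p hp).1
      have hk : (0 : ℝ) ≤ k := Nat.cast_nonneg k
      have hp2 : (2 : ℝ) ≤ p := by exact_mod_cast (hP p hp).1.two_le
      refine ⟨by positivity, ?_⟩
      exact div_le_div₀ hk h2 (by linarith) (by linarith))
    ((Icc 1 N).filter (fun n => n ≡ ν [MOD W])) (fun _ => 1) Rt ((N : ℝ) / W)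
    (fun T => (k : ℝ) ^ T.card * 1) (fun _ _ => zero_le_one) (by positivity) ?_
  · rw [filter_filter, sum_const, nsmul_eq_mul, mul_one] at key
    have h1 := (abs_le.1 key).2
    have h2 := Pool.Agent.H92.F.err_up k ((2 ^ 2 ^ J) ^ (C * bb)) P (fun p hp => ⟨(hP p hp).1, by
      have := hkp p hp
      have h3 : ((k + 1 : ℕ) : ℝ) ≤ p := by push_cast; exact this
      have h4 : k + 1 ≤ p := by exact_mod_cast h3
      omega⟩)
    have h3 : ((J : ℝ) + 2) * ∑ T ∈ P.powerset.filter (fun T : Finset ℕ => ∏ p ∈ T, p ≤ (2 ^ 2 ^ J) ^ (C * bb)),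
        (k : ℝ) ^ T.card * 1 ≤ ((J : ℝ) + 2) * ((((2 ^ 2 ^ J) ^ (C * bb) : ℕ) : ℝ) * (((2 ^ 2 ^ J) ^ (C * bb) : ℕ) : ℝ)) :=
      mul_le_mul_of_nonneg_left h2 (by positivity)
    have hhalf : (1 / 2 : ℝ) ^ bb ≤ 1 / 2 := by
      calc (1 / 2 : ℝ) ^ bb ≤ (1 / 2 : ℝ) ^ 1 := pow_le_pow_of_le_one (by norm_num) (by norm_num) hbb1
        _ = 1 / 2 := pow_one _
    have h4 : 0 ≤ (N : ℝ) / W * ∏ p ∈ P, (1 - ((Rt p).card : ℝ) / p) := by
      apply mul_nonneg (by positivity)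
      exact prod_nonneg hfac
    have h5 := mul_le_mul_of_nonneg_right hhalf h4
    unfold GS
    linarith
  · intro T hTP _
    rw [filter_filter, sum_const, nsmul_eq_mul, mul_one]
    refine (hits_count hW0 T (fun p hp => ⟨(hP p (hTP hp)).1, hPW p (hTP hp)⟩) Rt
      (fun p hp => (hRt p (hTP hp)).2) ν N).trans ?_
    rw [mul_one]
    calc ∏ p ∈ T, ((Rt p).card : ℝ) ≤ ∏ _p ∈ T, (k : ℝ) := by
          apply Finset.prod_le_prod (fun _ _ => Nat.cast_nonneg _)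
          intro p hp
          exact_mod_cast (hRt p (hTP hp)).1
      _ = _ := by rw [prod_const]

/-- the multiples of a prime -/
theorem up_r {C : ℕ} (hF : FLC C) (hC1 : 1 ≤ C) (k bb J z0 : ℕ) (P : Finset ℕ)
    (hP : ∀ p ∈ P, p.Prime ∧ z0 < p ∧ p ≤ 2 ^ 2 ^ J) (hbb : C * (k + 1) ≤ bb) (hz0 : C * (k + 1) ≤ z0) (hbb1 : 1 ≤ bb)
    (Rt : ℕ → Finset ℕ) (hRt : ∀ p ∈ P, (Rt p).card ≤ k ∧ ∀ c ∈ Rt p, c < p) {W : ℕ} {ZW : Finset ℕ}
    (hZW : ∀ p ∈ ZW, p.Prime) (hW : W = ∏ p ∈ ZW, p) (hPW : ∀ p ∈ P, ¬ p ∣ W) (ν N : ℕ) {a b r : ℕ} (ha : 0 < a)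
    (har : a < r) (hr : r.Prime) (hrP : ∀ p ∈ P, p ≠ r) (hrW : r ∉ ZW) (hzr : ∀ p ∈ ZW, p ≠ r) :
    (((GS W ν N P Rt).filter (fun n => r ∣ a * n + b)).card : ℝ) ≤
      3 / 2 * ((N : ℝ) / W * ∏ p ∈ P, (1 - ((Rt p).card : ℝ) / p)) * (1 / r) + 1 +
      ((J : ℝ) + 2) * ((((2 ^ 2 ^ J) ^ (C * bb) : ℕ) : ℝ) * (((2 ^ 2 ^ J) ^ (C * bb) : ℕ) : ℝ)) := by
  classical
  have hW0 : 0 < W := by rw [hW]; exact prod_pos fun p hp => (hZW p hp).pos
  have hra : a.Coprime r := by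
    rw [Nat.coprime_comm, Nat.Prime.coprime_iff_not_dvd hr]
    intro h
    have := Nat.le_of_dvd ha h
    omega
  have hrWc : r.Coprime W := by
    rw [hW]
    apply Nat.Coprime.prod_right
    intro p hp
    rw [Nat.coprime_primes hr (hZW p hp)]
    exact (hzr p hp).symm
  obtain ⟨s0, hs0⟩ := exists_root (b := b) hr.pos hra
  obtain ⟨ν', _, hν'⟩ := sub_surj (p := W) (r := r) (s := s0 % r) (c' := ν % W) hW0 hrWc (Nat.mod_lt _ hW0)
  have hnr : ∀ n ∈ (GS W ν N P Rt).filter (fun n => r ∣ a * n + b), n = s0 % r + r * (n / r) := by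
    intro n hn
    rw [mem_filter] at hn
    have h1 : a * n + b ≡ a * s0 + b [MOD r] :=
      (Nat.modEq_zero_iff_dvd.2 hn.2).trans (Nat.modEq_zero_iff_dvd.2 hs0).symm
    have h2 : a * n ≡ a * s0 [MOD r] := Nat.ModEq.add_right_cancel' b h1
    have h3 : n ≡ s0 [MOD r] := Nat.ModEq.cancel_left_of_coprime (by rw [Nat.gcd_comm]; exact hra) h2
    have h4 : n % r = s0 % r := h3
    have h5 := Nat.mod_add_div n r
    omega
  have hrPc : ∀ p ∈ P, r.Coprime p := by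
    intro p hp
    rw [Nat.coprime_primes hr (hP p hp).1]
    exact (hrP p hp).symm
  have hmaps : (GS W ν N P Rt).filter (fun n => r ∣ a * n + b) ⊆
      (insert 0 (GS W ν' (N / r) P (RtR Rt r (s0 % r)))).image (fun t => s0 % r + r * t) := by
    intro n hn
    have h1 := hnr n hn
    rw [mem_image]
    refine ⟨n / r, ?_, h1.symm⟩
    rw [mem_filter, mem_GS] at hn
    obtain ⟨⟨h2, h3, h4⟩, h5⟩ := hn
    rw [mem_insert]
    rcases Nat.eq_zero_or_pos (n / r) with h0 | h0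
    · exact Or.inl h0
    · right
      rw [mem_GS]
      refine ⟨⟨h0, Nat.div_le_div_right h2.2⟩, ?_, ?_⟩
      · have h6 : s0 % r + r * (n / r) ≡ s0 % r + r * ν' [MOD W] := by
          rw [← h1]
          exact h3.trans hν'.symm
        have h7 := Nat.ModEq.add_left_cancel' _ h6
        exact Nat.ModEq.cancel_left_of_coprime (by rw [Nat.gcd_comm]; exact hrWc) h7
      · intro p hp hmem
        unfold RtR at hmem
        apply h4 p hp
        have h6 := (mem_filter.1 hmem).2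
        have h7 : s0 % r + r * (n / r % p) ≡ n [MOD p] := by
          conv_rhs => rw [h1]
          exact ((Nat.mod_modEq _ p).mul_left r).add_left _
        unfold Nat.ModEq at h7
        rw [h7] at h6
        exact h6
  have hcard : (((GS W ν N P Rt).filter (fun n => r ∣ a * n + b)).card : ℝ) ≤
      ((GS W ν' (N / r) P (RtR Rt r (s0 % r))).card : ℝ) + 1 := by
    have h1 := (card_le_card hmaps).trans (card_image_le.trans (card_insert_le _ _))
    exact_mod_cast h1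
  have hup := up_one hF hC1 k bb J z0 P hP hbb hz0 hbb1 (RtR Rt r (s0 % r))
    (fun p hp => RtR_card (hrPc p hp) (hRt p hp).1) hW0 hPW ν' (N / r)
  have hV : ∏ p ∈ P, (1 - ((RtR Rt r (s0 % r) p).card : ℝ) / p) = ∏ p ∈ P, (1 - ((Rt p).card : ℝ) / p) := by
    apply prod_congr rfl
    intro p hp
    rw [RtR_card_eq (hP p hp).1.pos (hrPc p hp) (hRt p hp).2]
  rw [hV] at hup
  have hV0 : 0 ≤ ∏ p ∈ P, (1 - ((Rt p).card : ℝ) / p) := by
    apply prod_nonneg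
    intro p hp
    have h1 : k + 1 ≤ C * (k + 1) := Nat.le_mul_of_pos_left _ hC1
    have h2 := (hP p hp).2.1
    have h3 : (Rt p).card ≤ p := by
      have := (hRt p hp).1
      omega
    have h4 : ((Rt p).card : ℝ) ≤ p := by exact_mod_cast h3
    have h5 : (0 : ℝ) < p := by exact_mod_cast (hP p hp).1.pos
    rw [sub_nonneg, div_le_one h5]
    exact h4
  have h2 : ((N / r : ℕ) : ℝ) ≤ (N : ℝ) / r := Nat.cast_div_le
  have hWr : (0 : ℝ) < W := by exact_mod_cast hW0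
  have h3 : 3 / 2 * (((N / r : ℕ) : ℝ) / W * ∏ p ∈ P, (1 - ((Rt p).card : ℝ) / p)) ≤
      3 / 2 * ((N : ℝ) / W * ∏ p ∈ P, (1 - ((Rt p).card : ℝ) / p)) * (1 / r) := by
    calc _ ≤ 3 / 2 * (((N : ℝ) / r) / W * ∏ p ∈ P, (1 - ((Rt p).card : ℝ) / p)) := by gcongr
      _ = _ := by ring
  linarith

/-- the roots of one form modulo `p` -/
def Ri (a b p : ℕ) : Finset ℕ := (range p).filter (fun c => p ∣ a * c + b)

theorem Ri_card {a b p : ℕ} (hp : p.Prime) (ha : a.Coprime p) : (Ri a b p).card = 1 := by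
  rw [card_eq_one]
  obtain ⟨n, hn⟩ := exists_root (b := b) hp.pos ha
  refine ⟨n % p, ?_⟩
  ext c
  unfold Ri
  rw [mem_filter, mem_range, mem_singleton]
  constructor
  · rintro ⟨h1, h2⟩
    have h3 : a * c + b ≡ a * n + b [MOD p] :=
      (Nat.modEq_zero_iff_dvd.2 h2).trans (Nat.modEq_zero_iff_dvd.2 hn).symm
    have h4 : a * c ≡ a * n [MOD p] := Nat.ModEq.add_right_cancel' b h3
    have h5 : c ≡ n [MOD p] := Nat.ModEq.cancel_left_of_coprime (by rw [Nat.gcd_comm]; exact ha) h4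
    unfold Nat.ModEq at h5
    rw [Nat.mod_eq_of_lt h1] at h5
    exact h5
  · rintro rfl
    refine ⟨Nat.mod_lt _ hp.pos, ?_⟩
    have h1 : a * (n % p) + b ≡ a * n + b [MOD p] := ((Nat.mod_modEq n p).mul_left a).add_right b
    exact (h1.dvd_iff dvd_rfl).2 hn

/-- the factor of a composite value at which the character is `1` -/
theorem factor_one (h : Chr f χ) {m B E : ℕ} (hm2 : 2 ≤ m) (hmp : ¬ m.Prime) (hcop : m.Coprime f) (hχ : χ m = -1)
    (hrough : ∀ p : ℕ, p.Prime → p ∣ m → B ≤ p) (hB : 0 < B) (hmE : m ≤ E * B) (hm3 : m < B * B * B) :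
    ∃ r : ℕ, r.Prime ∧ r ∣ m ∧ χ r = 1 ∧ B ≤ r ∧ r ≤ E := by
  obtain ⟨r1, hr1⟩ : ∃ r : ℕ, r = m.minFac := ⟨_, rfl⟩
  have hp1 : r1.Prime := by rw [hr1]; exact Nat.minFac_prime (by omega)
  have hd1 : r1 ∣ m := by rw [hr1]; exact Nat.minFac_dvd m
  obtain ⟨q, hq⟩ := hd1
  have hq1 : q ≠ 1 := by
    rintro rfl
    rw [mul_one] at hq
    rw [hq] at hmp
    exact hmp hp1
  have hq0 : q ≠ 0 := by
    rintro rfl
    omega
  have hB1 : B ≤ r1 := hrough r1 hp1 ⟨q, hq⟩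
  have hqp : q.Prime := by
    by_contra hnq
    obtain ⟨r2, hr2⟩ : ∃ r : ℕ, r = q.minFac := ⟨_, rfl⟩
    have hp2 : r2.Prime := by rw [hr2]; exact Nat.minFac_prime hq1
    have hd2 : r2 ∣ q := by rw [hr2]; exact Nat.minFac_dvd q
    have hsq : r2 ^ 2 ≤ q := by rw [hr2]; exact Nat.minFac_sq_le_self (by omega) hnq
    have hB2 : B ≤ r2 := hrough r2 hp2 (hq ▸ hd2.mul_left r1)
    have h1 : B * B * B ≤ m := by
      rw [hq]
      calc B * B * B = B * (B * B) := by ring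
        _ ≤ r1 * (r2 * r2) := Nat.mul_le_mul hB1 (Nat.mul_le_mul hB2 hB2)
        _ ≤ r1 * q := Nat.mul_le_mul_left _ (by rw [← sq]; exact hsq)
    omega
  have hBq : B ≤ q := hrough q hqp (hq ▸ dvd_mul_left q r1)
  have hc1 : r1.Coprime f := Nat.Coprime.coprime_dvd_left ⟨q, hq⟩ hcop
  have hcq : q.Coprime f := Nat.Coprime.coprime_dvd_left (hq ▸ dvd_mul_left q r1) hcop
  have hprod : χ r1 * χ q = -1 := by rw [← h.mul, ← hq, hχ]
  have hle : ∀ x y : ℕ, x * y = m → B ≤ y → x ≤ E := by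
    intro x y hxy hy
    have h1 : x * B ≤ E * B := by
      calc x * B ≤ x * y := Nat.mul_le_mul_left _ hy
        _ = m := hxy
        _ ≤ E * B := hmE
    exact Nat.le_of_mul_le_mul_right h1 hB
  rcases h.val r1 hc1 with h1 | h1
  · exact ⟨r1, hp1, ⟨q, hq⟩, h1, hB1, hle r1 q hq.symm hBq⟩
  · rw [h1] at hprod
    have h2 : χ q = 1 := by linarith
    exact ⟨q, hqp, hq ▸ dvd_mul_left q r1, h2, hBq, hle q r1 (by rw [mul_comm]; exact hq.symm) hB1⟩

end Pool.Agent.H92.G
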