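import Pool.Agent.H92.G.MinA
import Pool.Graph.R_seed8.W366.DC.SFX

set_option autoImplicit false

/-! The sifted set of the exceptional case with `χ (b i) = -1`. -/

open Finset Filter Topology

namespace Pool.Agent.H92.G

open Pool.Agent.H262R2.UM Pool.Agent.H262R2.UP
open Pool.Agent.W23.DC Pool.Agent.Y882 Pool.Agent.Y677.KU

/-- the product of the primes of `Q` which hit -/
def GG (Q : Finset ℕ) (Om : ℕ → Finset ℕ) (n : ℕ) : ℕ := ∏ p ∈ Q, if n % p ∈ Om p then p else 1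

theorem dvd_GG {Q : Finset ℕ} (hQ : ∀ p ∈ Q, p.Prime) {Om : ℕ → Finset ℕ} {n p : ℕ} (hp : p.Prime) :
    p ∣ GG Q Om n ↔ p ∈ Q ∧ n % p ∈ Om p := by
  unfold GG
  rw [Prime.dvd_finsetProd_iff hp.prime]
  constructor
  · rintro ⟨q, hq, hd⟩
    split_ifs at hd with h
    · rw [Nat.prime_dvd_prime_iff_eq hp (hQ q hq)] at hd
      rw [hd]
      exact ⟨hq, h⟩
    · exact absurd (Nat.dvd_one.1 hd) hp.one_lt.ne'
  · rintro ⟨h1, h2⟩
    refine ⟨p, h1, ?_⟩
    rw [if_pos h2]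

open Classical in
theorem Er_le {k W : ℕ} {Z ZW : Finset ℕ} (hZ : ∀ p ∈ Z, p.Prime) (hW0 : 0 < W)
    (hW : ∀ p ∈ Z \ ZW, ¬ p ∣ W) (Om : ℕ → Finset ℕ) (hOm : ∀ p ∈ Z \ ZW, (Om p).card ≤ k ∧ ∀ c ∈ Om p, c < p)
    (ν N : ℕ) (T : Finset ℕ) (hT : T ⊆ Z) :
    Er ((Icc 1 N).filter (fun n => n ≡ ν [MOD W])) (GG (Z \ ZW) Om) ((N : ℝ) / W)
      (fun p => if p ∈ ZW then 0 else ((Om p).card : ℝ) / p) T ≤ (k : ℝ) ^ T.card := by
  have hQ : ∀ p ∈ Z \ ZW, p.Prime := fun p hp => hZ p (mem_sdiff.1 hp).1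
  unfold Er
  by_cases h : ∃ p ∈ T, p ∈ ZW
  · obtain ⟨p, hpT, hpZ⟩ := h
    have h1 : ∏ p ∈ T, (if p ∈ ZW then (0 : ℝ) else ((Om p).card : ℝ) / p) = 0 :=
      prod_eq_zero hpT (if_pos hpZ)
    have h2 : (((Icc 1 N).filter (fun n => n ≡ ν [MOD W])).filter
        (fun n => (∏ p ∈ T, p) ∣ GG (Z \ ZW) Om n)) = ∅ := by
      rw [filter_eq_empty_iff]
      intro n _ hd
      have h3 : p ∣ GG (Z \ ZW) Om n := (dvd_prod_of_mem (fun p => p) hpT).trans hd
      rw [dvd_GG hQ (hZ p (hT hpT))] at h3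
      exact (mem_sdiff.1 h3.1).2 hpZ
    rw [h1, h2]
    simp
  · push Not at h
    have h1 : ∏ p ∈ T, (if p ∈ ZW then (0 : ℝ) else ((Om p).card : ℝ) / p) = ∏ p ∈ T, (((Om p).card : ℝ) / p) := by
      apply prod_congr rfl
      intro p hp
      rw [if_neg (h p hp)]
    have hTQ : ∀ p ∈ T, p ∈ Z \ ZW := fun p hp => mem_sdiff.2 ⟨hT hp, h p hp⟩
    have h2 : (((Icc 1 N).filter (fun n => n ≡ ν [MOD W])).filter
        (fun n => (∏ p ∈ T, p) ∣ GG (Z \ ZW) Om n)) =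
        (Icc 1 N).filter (fun n => n ≡ ν [MOD W] ∧ ∀ p ∈ T, n % p ∈ Om p) := by
      rw [filter_filter]
      apply filter_congr
      intro n _
      apply and_congr_right
      intro _
      constructor
      · intro hd p hp
        have h3 : p ∣ GG (Z \ ZW) Om n := (dvd_prod_of_mem (fun p => p) hp).trans hd
        rw [dvd_GG hQ (hZ p (hT hp))] at h3
        exact h3.2
      · intro h3
        apply Finset.prod_primes_dvd _ (fun p hp => (hZ p (hT hp)).prime)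
        intro p hp
        rw [dvd_GG hQ (hZ p (hT hp))]
        exact ⟨hTQ p hp, h3 p hp⟩
    rw [h1, h2]
    refine (hits_count hW0 T (fun p hp => ⟨hZ p (hT hp), hW p (hTQ p hp)⟩) Om
      (fun p hp => (hOm p (hTQ p hp)).2) ν N).trans ?_
    calc ∏ p ∈ T, ((Om p).card : ℝ) ≤ ∏ _p ∈ T, (k : ℝ) := by
          apply Finset.prod_le_prod (fun _ _ => Nat.cast_nonneg _)
          intro p hp
          exact_mod_cast (hOm p (hTQ p hp)).1
      _ = _ := by rw [prod_const]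

open Classical in
theorem few_T {Z : Finset ℕ} (hZ : ∀ p ∈ Z, p.Prime) (D : ℕ) (X : ℝ) (hX : X ≤ D) :
    ((Z.powerset.filter (fun T => ((∏ p ∈ T, p : ℕ) : ℝ) ≤ X)).card) ≤ D := by
  calc (Z.powerset.filter (fun T => ((∏ p ∈ T, p : ℕ) : ℝ) ≤ X)).card ≤ (Icc 1 D).card := by
        apply card_le_card_of_injOn (fun T => ∏ p ∈ T, p)
        · intro T hT
          rw [mem_coe, mem_filter, mem_powerset] at hT
          rw [mem_coe, mem_Icc]
          refine ⟨prod_pos fun p hp => (hZ p (hT.1 hp)).pos, ?_⟩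
          have := hT.2.trans hX
          exact_mod_cast this
        · intro T hT T' hT' h
          rw [mem_coe, mem_filter, mem_powerset] at hT hT'
          have h1 : ∀ T : Finset ℕ, T ⊆ Z → (∏ p ∈ T, p).primeFactors = T := by
            intro T hT
            exact Nat.primeFactors_prod (fun p hp => hZ p (hT hp))
          rw [← h1 T hT.1, ← h1 T' hT'.1]
          exact congrArg _ h
    _ = D := by rw [Nat.card_Icc]; omega

theorem pow_rpow {s : ℝ} (hs : 0 ≤ s) (m n : ℕ) (x : ℝ) (h : (m : ℝ) * x = n) : (s ^ m) ^ x = s ^ n := by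
  rw [← Real.rpow_natCast s m, ← Real.rpow_mul hs, h, Real.rpow_natCast]

end Pool.Agent.H92.G
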