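import Pool.Agent.H92.G.RemP
import Pool.Agent.H92.F.Classes

set_option autoImplicit false

/-! Small facts for the final choice of the parameters. -/

open Finset Filter Topology

namespace Pool.Agent.H92.G

open Pool.Agent.H262R2.UM Pool.Agent.H262R2.UP

variable {f : ℕ} {χ : ℕ → ℝ}

theorem J_ex (y : ℕ) (hy : 2 ≤ y) : ∃ J : ℕ, y ≤ 2 ^ 2 ^ J ∧ 2 ^ 2 ^ J ≤ y ^ 2 := by
  have hex : ∃ J : ℕ, y ≤ 2 ^ 2 ^ J := ⟨y, by
    have h1 : y < 2 ^ y := Nat.lt_two_pow_self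
    have h2 : 2 ^ y ≤ 2 ^ 2 ^ y := Nat.pow_le_pow_right (by norm_num) h1.le
    omega⟩
  classical
  refine ⟨Nat.find hex, Nat.find_spec hex, ?_⟩
  rcases Nat.eq_zero_or_pos (Nat.find hex) with h0 | h0
  · rw [h0]
    have : 2 ^ 2 ≤ y ^ 2 := Nat.pow_le_pow_left hy 2
    omega
  · obtain ⟨j, hj⟩ : ∃ j, Nat.find hex = j + 1 := ⟨Nat.find hex - 1, by omega⟩
    have h1 := Nat.find_min hex (m := j) (by omega)
    push Not at h1
    rw [hj, pow_succ, pow_mul]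
    exact Nat.pow_le_pow_left h1.le 2

theorem J_le {J s : ℕ} (hs : 2 ≤ s) (h : 2 ^ 2 ^ J ≤ s ^ 32) : (J : ℝ) + 2 ≤ 64 * Real.log s + 2 := by
  have hsr : (2 : ℝ) ≤ s := by exact_mod_cast hs
  have h1 : ((2 ^ 2 ^ J : ℕ) : ℝ) ≤ ((s ^ 32 : ℕ) : ℝ) := Nat.cast_le.2 h
  push_cast at h1
  have h2 := Real.log_le_log (by positivity) h1
  rw [Real.log_pow, Real.log_pow] at h2
  push_cast at h2
  have h3 : (J : ℝ) ≤ 2 ^ J := by
    have : J ≤ 2 ^ J := Nat.lt_two_pow_self.le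
    exact_mod_cast this
  have h4 := Real.log_two_gt_d9
  have h5 : (J : ℝ) * (1 / 2) ≤ 2 ^ J * Real.log 2 :=
    mul_le_mul h3 (by linarith) (by norm_num) (by positivity)
  linarith

theorem two_pow_omega {a : ℕ} (ha : 0 < a) : 2 ^ a.primeFactors.card ≤ a := by
  calc 2 ^ a.primeFactors.card = ∏ _p ∈ a.primeFactors, 2 := by rw [prod_const]
    _ ≤ ∏ p ∈ a.primeFactors, p := Finset.prod_le_prod' fun p hp => (Nat.prime_of_mem_primeFactors hp).two_le
    _ ≤ a := Nat.le_of_dvd ha (Nat.prod_primeFactors_dvd a)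

theorem prod_low (h : Chr f χ) {a : ℕ} (ha : 0 < a) (ZW : Finset ℕ) (hZW : ∀ p ∈ ZW, p.Prime) :
    1 / ((2 : ℝ) ^ ZW.card * a) ≤ ∏ p ∈ ZW ∪ a.primeFactors, (1 - χ p / p) := by
  have h1 : ∀ p ∈ ZW ∪ a.primeFactors, (1 / 2 : ℝ) ≤ 1 - χ p / p := by
    intro p hp
    have hpp : p.Prime := by
      rcases mem_union.1 hp with h1 | h1
      · exact hZW p h1
      · exact Nat.prime_of_mem_primeFactors h1
    have hp2 : (2 : ℝ) ≤ p := by exact_mod_cast hpp.two_le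
    have h2 := (abs_le.1 (h.abs_le p)).2
    have h3 : χ p / p ≤ 1 / 2 := by
      rw [div_le_div_iff₀ (by linarith) (by norm_num)]
      linarith
    linarith
  calc 1 / ((2 : ℝ) ^ ZW.card * a) ≤ 1 / ((2 : ℝ) ^ ZW.card * 2 ^ a.primeFactors.card) := by
        apply one_div_le_one_div_of_le (by positivity)
        apply mul_le_mul_of_nonneg_left _ (by positivity)
        exact_mod_cast two_pow_omega ha
    _ = (1 / 2 : ℝ) ^ (ZW.card + a.primeFactors.card) := by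
        rw [one_div_pow, pow_add]
    _ ≤ (1 / 2 : ℝ) ^ (ZW ∪ a.primeFactors).card :=
        pow_le_pow_of_le_one (by norm_num) (by norm_num) (card_union_le _ _)
    _ = ∏ _p ∈ ZW ∪ a.primeFactors, (1 / 2 : ℝ) := by rw [prod_const]
    _ ≤ _ := prod_le_prod (fun _ _ => by norm_num) h1

/-- the roots of the system modulo `p` -/
def Rts {k : ℕ} (a b : Fin k → ℕ) (p : ℕ) : Finset ℕ := (range p).filter (fun n => ∃ j, p ∣ a j * n + b j)

theorem Rts_hit {k : ℕ} {a b : Fin k → ℕ} {p n : ℕ} (hp : 0 < p) (j : Fin k) (h : p ∣ a j * n + b j) :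
    n % p ∈ Rts a b p := by
  unfold Rts
  rw [mem_filter, mem_range]
  refine ⟨Nat.mod_lt _ hp, j, ?_⟩
  have h1 : a j * (n % p) + b j ≡ a j * n + b j [MOD p] := ((Nat.mod_modEq n p).mul_left _).add_right _
  exact (h1.dvd_iff dvd_rfl).2 h

theorem V_low (k : ℕ) : ∃ c6 : ℝ, 0 < c6 ∧ ∀ (f : ℕ) (χ : ℕ → ℝ), Chr f χ → ∀ (a b y : ℕ) (P : Finset ℕ) (Rt : ℕ → Finset ℕ),
    3 ≤ y → (∀ p ∈ P, p.Prime ∧ 8 * k + 8 ≤ p ∧ p ≤ y ∧ (Rt p).card ≤ k) →
    c6 / (Real.log y) ^ (4 * k + 2) ≤ ∏ p ∈ P, (1 - gg χ a b Rt p) := by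
  obtain ⟨c6, hc6, H⟩ := Pool.Agent.H92.F.V1_low (2 * k + 1)
  refine ⟨c6, hc6, ?_⟩
  intro f χ h a b y P Rt hy hP
  have h1 := (H y P (fun _ => 2 * k) (Real.log y) hy le_rfl (fun p hp => by
    obtain ⟨h1, h2, h3, h4⟩ := hP p hp
    exact ⟨h1, by omega, h3, le_rfl⟩)).1
  have e : 2 * (2 * k + 1) = 4 * k + 2 := by ring
  rw [e] at h1
  refine h1.trans ?_
  apply Finset.prod_le_prod
  · intro p hp
    obtain ⟨h1, h2, h3, h4⟩ := hP p hp
    have h5 : (8 * k + 8 : ℝ) ≤ p := by exact_mod_cast h2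
    have hk : (0 : ℝ) ≤ k := Nat.cast_nonneg k
    push_cast
    rw [mul_one_div, sub_nonneg, div_le_one (by linarith)]
    linarith
  · intro p hp
    obtain ⟨h1, h2, h3, h4⟩ := hP p hp
    have h5 := (gg_bd h a b Rt h1 h4).2
    push_cast at h5 ⊢
    rw [mul_one_div]
    linarith

/-- the eventual conditions -/
theorem ev_s (K : ℝ) (n : ℕ) (m : ℕ) : ∀ᶠ s : ℕ in atTop, K * (16 * Real.log s) ^ n ≤ s ∧ 64 * Real.log s + 2 ≤ s ∧ m ≤ s := by
  have h1 := (isLittleO_log_rpow_rpow_atTop (s := (1 : ℝ)) (n : ℝ) (by norm_num)).def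
    (show (0 : ℝ) < 1 / ((|K| + 1) * 16 ^ n) by positivity)
  have h2 := (isLittleO_log_rpow_rpow_atTop (s := (1 : ℝ)) (1 : ℝ) (by norm_num)).def
    (show (0 : ℝ) < 1 / 128 by positivity)
  have ht := tendsto_natCast_atTop_atTop (R := ℝ)
  filter_upwards [ht.eventually h1, ht.eventually h2, eventually_ge_atTop m, eventually_ge_atTop 4] with s h3 h4 h5 h6
  have hs : (4 : ℝ) ≤ s := by exact_mod_cast h6
  have hlog : 0 ≤ Real.log s := Real.log_nonneg (by linarith)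
  rw [Real.rpow_natCast, Real.rpow_one, Real.norm_of_nonneg (by positivity), Real.norm_of_nonneg (by positivity)] at h3
  rw [Real.rpow_one, Real.rpow_one, Real.norm_of_nonneg (by positivity), Real.norm_of_nonneg (by positivity)] at h4
  refine ⟨?_, by linarith, h5⟩
  have h7 : (|K| + 1) * 16 ^ n * (Real.log s) ^ n ≤ s := by
    calc (|K| + 1) * 16 ^ n * (Real.log s) ^ n ≤ (|K| + 1) * 16 ^ n * (1 / ((|K| + 1) * 16 ^ n) * s) :=
          mul_le_mul_of_nonneg_left h3 (by positivity)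
      _ = _ := by field_simp
  calc K * (16 * Real.log s) ^ n = K * (16 ^ n * (Real.log s) ^ n) := by rw [mul_pow]
    _ ≤ (|K| + 1) * (16 ^ n * (Real.log s) ^ n) := by
        apply mul_le_mul_of_nonneg_right _ (by positivity)
        have := le_abs_self K
        linarith
    _ ≤ s := by linarith

end Pool.Agent.H92.G
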