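import Pool.Agent.H92.G.Tr

set_option autoImplicit false

/-! The composite values are rare: the case of the weights `1 * χ`. -/

open Finset Filter Topology

namespace Pool.Agent.H92.G

variable {f : ℕ} {χ : ℕ → ℝ}

/-- the sifted set -/
def GS (W ν N : ℕ) (P : Finset ℕ) (Rt : ℕ → Finset ℕ) : Finset ℕ :=
  (Icc 1 N).filter (fun n => n ≡ ν [MOD W] ∧ ∀ p ∈ P, n % p ∉ Rt p)

theorem mem_GS {W ν N : ℕ} {P : Finset ℕ} {Rt : ℕ → Finset ℕ} {n : ℕ} :
    n ∈ GS W ν N P Rt ↔ (1 ≤ n ∧ n ≤ N) ∧ n ≡ ν [MOD W] ∧ ∀ p ∈ P, n % p ∉ Rt p := by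
  unfold GS
  rw [mem_filter, mem_Icc]

theorem root_data {a b W ν y : ℕ} (ha : 0 < a) (hay : a ≤ y) {ZW : Finset ℕ} (hZW : ∀ p ∈ ZW, p.Prime ∧ p ≤ y)
    (hW : W = ∏ p ∈ ZW, p) (r : ℕ) (hr : r.Prime) (hyr : y < r) :
    ∃ s b' ν' : ℕ, s < r ∧ r * b' = a * s + b ∧ s + r * ν' ≡ ν [MOD W] := by
  have hra : a.Coprime r := by
    rw [Nat.coprime_comm, Nat.Prime.coprime_iff_not_dvd hr]
    intro h
    have := Nat.le_of_dvd ha h
    omega
  obtain ⟨n, hn⟩ := exists_root (b := b) hr.pos hra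
  have hs : r ∣ a * (n % r) + b := by
    have h1 : a * (n % r) + b ≡ a * n + b [MOD r] := ((Nat.mod_modEq n r).mul_left a).add_right b
    exact (h1.dvd_iff dvd_rfl).2 hn
  obtain ⟨b', hb'⟩ := hs
  have hrW : r.Coprime W := by
    rw [hW]
    apply Nat.Coprime.prod_right
    intro p hp
    rw [Nat.coprime_primes hr (hZW p hp).1]
    have := (hZW p hp).2
    omega
  have hW0 : 0 < W := by rw [hW]; exact prod_pos fun p hp => (hZW p hp).1.pos
  obtain ⟨c, _, hc⟩ := sub_surj (p := W) (r := r) (s := n % r) (c' := ν % W) hW0 hrW (Nat.mod_lt _ hW0)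
  exact ⟨n % r, b', c, Nat.mod_lt _ hr.pos, hb'.symm, hc⟩

theorem cnt_sq {a b y : ℕ} (ha : 0 < a) (hay : a ≤ y) (hab : a.Coprime b) (N : ℕ) {r : ℕ} (hr : r.Prime) (hyr : y < r) :
    (((Icc 1 N).filter (fun n => r * r ∣ a * n + b)).card : ℝ) ≤ N * (1 / ((r : ℝ) * r)) + 2 := by
  classical
  have hr0 : 0 < r * r := Nat.mul_pos hr.pos hr.pos
  have h1 := cnt (d := r * r) (b := b) ∅ (by simp) ha hab 0 0 N hr0 (Nat.zero_le N)
  have h2 : ∏ p ∈ (∅ : Finset ℕ) ∪ a.primeFactors, (if p ∣ r * r then cc a b 0 p else 1) = 1 := by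
    apply prod_eq_one
    intro p hp
    rw [empty_union] at hp
    have hp1 := Nat.prime_of_mem_primeFactors hp
    have hp2 := Nat.le_of_dvd ha (Nat.dvd_of_mem_primeFactors hp)
    rw [if_neg]
    intro h3
    have h4 : p ∣ r := by
      rcases hp1.dvd_mul.1 h3 with h | h <;> exact h
    have := (Nat.prime_dvd_prime_iff_eq hp1 hr).1 h4
    omega
  rw [h2] at h1
  have h3 : (Ioc 0 N).filter (fun n => n ≡ 0 [MOD ∏ p ∈ (∅ : Finset ℕ), p] ∧ r * r ∣ a * n + b) =
      (Icc 1 N).filter (fun n => r * r ∣ a * n + b) := by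
    ext n
    simp only [mem_filter, mem_Ioc, mem_Icc, prod_empty, Nat.modEq_one, true_and]
    constructor
    · rintro ⟨h4, h5⟩
      exact ⟨⟨by omega, h4.2⟩, h5⟩
    · rintro ⟨h4, h5⟩
      exact ⟨⟨by omega, h4.2⟩, h5⟩
  rw [h3] at h1
  have h4 := (abs_le.1 h1).2
  have h5 : ((N : ℝ) - ((0 : ℕ) : ℝ)) * 1 / (((r * r : ℕ) : ℝ) * ((∏ p ∈ (∅ : Finset ℕ), p : ℕ) : ℝ)) =
      N * (1 / ((r : ℝ) * r)) := by
    push_cast
    rw [prod_empty]
    ring
  rw [h5] at h4
  linarith

/-- the composite values -/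
theorem rem_plus (h : Chr f χ) {a b : ℕ} (ha : 0 < a) (hfa : f ∣ a) (hab : a.Coprime b) (hb1 : 1 ≤ b) (hba : b ≤ a)
    {y : ℕ} (hy : 1 < y) (hay : a ≤ y) {ZW P : Finset ℕ} (hZW : ∀ p ∈ ZW, p.Prime ∧ p ≤ y) {W : ℕ}
    (hW : W = ∏ p ∈ ZW, p) (hall : ∀ p : ℕ, p.Prime → p ≤ y → p ∈ ZW ∨ p ∈ P)
    (Rt : ℕ → Finset ℕ) (hRt : ∀ p ∈ P, ∀ n, p ∣ a * n + b → n % p ∈ Rt p) (ν N v : ℕ) (hν : ∀ p ∈ ZW, ¬ p ∣ a * ν + b)
    (hv : a * N + b < y ^ (v + 1)) (hno : ∀ n ∈ GS W ν N P Rt, ¬ (a * n + b).Prime) (s b' ν' : ℕ → ℕ)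
    (hdat : ∀ r, r.Prime → y < r → s r < r ∧ r * b' r = a * s r + b ∧ s r + r * ν' r ≡ ν [MOD W]) :
    ∑ n ∈ GS W ν N P Rt, lam χ (a * n + b) ≤
      ∑ r ∈ (Ioc y (Nat.sqrt (a * N + b))).filter (fun r => r.Prime ∧ χ r = 1),
        2 * ∑ t ∈ GS W (ν' r) (N / r) P (RtR Rt r (s r)), lam χ (a * t + b' r) +
      2 ^ v * ((N : ℝ) / y + 2 * Nat.sqrt (a * N + b)) := by
  classical
  obtain ⟨D, hD⟩ : ∃ D : ℕ, D = Nat.sqrt (a * N + b) := ⟨_, rfl⟩
  obtain ⟨G, hG⟩ : ∃ G : Finset ℕ, G = GS W ν N P Rt := ⟨_, rfl⟩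
  rw [← hD, ← hG]
  have hrough : ∀ n ∈ G, ∀ p : ℕ, p.Prime → p ∣ a * n + b → y < p := by
    intro n hn p hp hpd
    by_contra hcon
    push Not at hcon
    rw [hG, mem_GS] at hn
    rcases hall p hp hcon with h1 | h1
    · apply hν p h1
      have h2 : p ∣ W := by rw [hW]; exact dvd_prod_of_mem _ h1
      have h3 : a * n + b ≡ a * ν + b [MOD p] := ((hn.2.1.of_dvd h2).mul_left a).add_right b
      exact (h3.dvd_iff dvd_rfl).1 hpd
    · exact hn.2.2 p h1 (hRt p h1 n hpd)
  have hGm : ∀ n ∈ G, 1 ≤ n ∧ n ≤ N := fun n hn => by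
    rw [hG, mem_GS] at hn; exact hn.1
  -- one value
  have hone : ∀ n ∈ G, lam χ (a * n + b) ≤
      ∑ r ∈ (Ioc y D).filter (fun r => r.Prime ∧ χ r = 1), (if r ∣ a * n + b ∧ 1 ≤ n / r then
        2 * lam χ ((a * n + b) / r) else 0) +
      ∑ r ∈ (Ioc y D).filter (fun r => r.Prime), (if r * r ∣ a * n + b then (2 : ℝ) ^ v else 0) := by
    intro n hn
    obtain ⟨hn1, hnN⟩ := hGm n hn
    obtain ⟨m, hm⟩ : ∃ m : ℕ, m = a * n + b := ⟨_, rfl⟩
    rw [← hm]
    have hnp : ¬ m.Prime := by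
      rw [hm]
      apply hno n
      rw [← hG]; exact hn
    have hma : a ≤ a * n := Nat.le_mul_of_pos_right a hn1
    have hm2 : 2 ≤ m := by omega
    have hmN : m ≤ a * N + b := by
      have := Nat.mul_le_mul_left a hnN
      omega
    obtain ⟨r, hr⟩ : ∃ r : ℕ, r = m.minFac := ⟨_, rfl⟩
    have hrp : r.Prime := by rw [hr]; exact Nat.minFac_prime (by omega)
    have hrd : r ∣ m := by rw [hr]; exact Nat.minFac_dvd m
    have hyr : y < r := hrough n hn r hrp (by rw [← hm]; exact hrd)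
    have hr2 : r ^ 2 ≤ m := by rw [hr]; exact Nat.minFac_sq_le_self (by omega) hnp
    have hrD : r ≤ D := by
      rw [hD]
      apply Nat.le_sqrt.2
      rw [← sq]
      exact hr2.trans hmN
    have hnn1 : ∀ r ∈ (Ioc y D).filter (fun r => r.Prime ∧ χ r = 1), (0 : ℝ) ≤ (if r ∣ m ∧ 1 ≤ n / r then
        2 * lam χ (m / r) else 0) := by
      intro r _
      split_ifs
      · exact mul_nonneg (by norm_num) (lam_nonneg h _)
      · exact le_rfl
    have hnn2 : ∀ r ∈ (Ioc y D).filter (fun r => r.Prime), (0 : ℝ) ≤ (if r * r ∣ m then (2 : ℝ) ^ v else 0) := by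
      intro r _
      split_ifs <;> positivity
    have hrf : r.Coprime f := by
      rw [Nat.Prime.coprime_iff_not_dvd hrp]
      intro h1
      have := Nat.le_of_dvd ha (h1.trans hfa)
      omega
    rcases h.val r hrf with hχ | hχ
    · have h1 : lam χ m ≤ 2 * lam χ (m / r) := by
        obtain ⟨q, hq⟩ := hrd
        have hq0 : q ≠ 0 := by rintro rfl; omega
        rw [hq, Nat.mul_div_cancel_left _ hrp.pos]
        exact lam_two h hrp hχ hq0
      have h2 : 1 ≤ n / r := by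
        rw [Nat.one_le_div_iff hrp.pos]
        by_contra hcon
        push Not at hcon
        have h3 : m < a * r + b := by
          rw [hm]
          have := Nat.mul_lt_mul_of_pos_left hcon ha
          omega
        have h4 : a * r + b ≤ (a + 1) * r := by
          have : b ≤ r := by omega
          nlinarith
        have h5 : (a + 1) * r ≤ r * r := Nat.mul_le_mul_right r (by omega)
        rw [sq] at hr2
        omega
      have h3 : 2 * lam χ (m / r) ≤ ∑ r ∈ (Ioc y D).filter (fun r => r.Prime ∧ χ r = 1), (if r ∣ m ∧ 1 ≤ n / r then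
        2 * lam χ (m / r) else 0) := by
        have h4 := single_le_sum hnn1 (mem_filter.2 ⟨mem_Ioc.2 ⟨hyr, hrD⟩, hrp, hχ⟩)
        rwa [if_pos ⟨hrd, h2⟩] at h4
      have h4 := sum_nonneg hnn2
      linarith
    · have h4 := sum_nonneg hnn1
      by_cases hsq : r * r ∣ m
      · have h1 : lam χ m ≤ 2 ^ v := by
          refine (lam_le_card h m).trans ?_
          have h2 := tau_le (m := m) (by omega)
          have h3 := few (m := m) (y := y) (v := v) (by omega) hy (fun p hp hpd => hrough n hn p hp (by rw [← hm]; exact hpd))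
            (lt_of_le_of_lt hmN hv)
          have h5 : m.divisors.card ≤ 2 ^ v := h2.trans (Nat.pow_le_pow_right (by norm_num) h3)
          exact_mod_cast h5
        have h3 : (2 : ℝ) ^ v ≤ ∑ r ∈ (Ioc y D).filter (fun r => r.Prime), (if r * r ∣ m then (2 : ℝ) ^ v else 0) := by
          have h5 := single_le_sum hnn2 (mem_filter.2 ⟨mem_Ioc.2 ⟨hyr, hrD⟩, hrp⟩)
          rwa [if_pos hsq] at h5
        linarith
      · have h1 : lam χ m = 0 := lam_zero h hrp hrd (by rw [sq]; exact hsq) hχ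
        rw [h1]
        have h5 := sum_nonneg hnn2
        linarith
  refine (sum_le_sum hone).trans ?_
  rw [sum_add_distrib, sum_comm, sum_comm (s := G) (t := (Ioc y D).filter (fun r => r.Prime))]
  apply add_le_add
  · apply sum_le_sum
    intro r hr
    rw [mem_filter, mem_Ioc] at hr
    obtain ⟨⟨hyr, hrD⟩, hrp, hχ⟩ := hr
    obtain ⟨d1, d2, d3⟩ := hdat r hrp hyr
    rw [← sum_filter, mul_sum]
    have hra : a.Coprime r := by
      rw [Nat.coprime_comm, Nat.Prime.coprime_iff_not_dvd hrp]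
      intro h1
      have := Nat.le_of_dvd ha h1
      omega
    have hnr : ∀ n ∈ G.filter (fun n => r ∣ a * n + b ∧ 1 ≤ n / r), n = s r + r * (n / r) := by
      intro n hn
      rw [mem_filter] at hn
      have h1 : a * n + b ≡ a * s r + b [MOD r] :=
        (Nat.modEq_zero_iff_dvd.2 hn.2.1).trans (Nat.modEq_zero_iff_dvd.2 (d2 ▸ dvd_mul_right r (b' r))).symm
      have h2 : a * n ≡ a * s r [MOD r] := Nat.ModEq.add_right_cancel' b h1
      have h3 : n ≡ s r [MOD r] := Nat.ModEq.cancel_left_of_coprime (by rw [Nat.gcd_comm]; exact hra) h2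
      have h4 : n % r = s r := by
        unfold Nat.ModEq at h3
        rw [h3, Nat.mod_eq_of_lt d1]
      have h5 := Nat.mod_add_div n r
      omega
    have hval : ∀ n ∈ G.filter (fun n => r ∣ a * n + b ∧ 1 ≤ n / r),
        2 * lam χ ((a * n + b) / r) = 2 * lam χ (a * (n / r) + b' r) := by
      intro n hn
      have h1 := hnr n hn
      have h2 : a * n + b = r * (a * (n / r) + b' r) := by
        calc a * n + b = a * (s r + r * (n / r)) + b := by rw [← h1]
          _ = r * (a * (n / r)) + (a * s r + b) := by ring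
          _ = _ := by rw [← d2]; ring
      rw [h2, Nat.mul_div_cancel_left _ hrp.pos]
    rw [sum_congr rfl hval]
    have hinj : Set.InjOn (fun n => n / r) (G.filter (fun n => r ∣ a * n + b ∧ 1 ≤ n / r) : Finset ℕ) := by
      intro n hn n' hn' hnn
      rw [mem_coe] at hn hn'
      simp only at hnn
      rw [hnr n hn, hnr n' hn', hnn]
    rw [← sum_image (f := fun t => 2 * lam χ (a * t + b' r)) hinj]
    apply sum_le_sum_of_subset_of_nonneg
    · intro t ht
      rw [mem_image] at ht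
      obtain ⟨n, hn, rfl⟩ := ht
      have h1 := hnr n hn
      rw [mem_filter] at hn
      obtain ⟨hn0, hn1, hn2⟩ := hn
      rw [hG, mem_GS] at hn0
      rw [mem_GS]
      refine ⟨⟨hn2, Nat.div_le_div_right hn0.1.2⟩, ?_, ?_⟩
      · have h2 : s r + r * (n / r) ≡ s r + r * ν' r [MOD W] := by
          rw [← h1]
          exact hn0.2.1.trans d3.symm
        have h3 := Nat.ModEq.add_left_cancel' _ h2
        have hrW : r.Coprime W := by
          rw [hW]
          apply Nat.Coprime.prod_right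
          intro p hp
          rw [Nat.coprime_primes hrp (hZW p hp).1]
          have := (hZW p hp).2
          omega
        exact Nat.ModEq.cancel_left_of_coprime (by rw [Nat.gcd_comm]; exact hrW) h3
      · intro p hp hmem
        unfold RtR at hmem
        apply hn0.2.2 p hp
        have h2 := (mem_filter.1 hmem).2
        have h3 : s r + r * (n / r % p) ≡ n [MOD p] := by
          conv_rhs => rw [h1]
          exact ((Nat.mod_modEq _ p).mul_left r).add_left _
        unfold Nat.ModEq at h3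
        rw [h3] at h2
        exact h2
    · intro t _ _
      exact mul_nonneg (by norm_num) (lam_nonneg h _)
  · have h1 : ∀ r ∈ (Ioc y D).filter (fun r => r.Prime), ∑ n ∈ G, (if r * r ∣ a * n + b then (2 : ℝ) ^ v else 0) ≤
        2 ^ v * (N * (1 / ((r : ℝ) * r)) + 2) := by
      intro r hr
      rw [mem_filter, mem_Ioc] at hr
      rw [← sum_filter, sum_const, nsmul_eq_mul, mul_comm]
      apply mul_le_mul_of_nonneg_left _ (by positivity)
      refine le_trans ?_ (cnt_sq ha hay hab N hr.2 hr.1.1)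
      have h2 : (G.filter (fun n => r * r ∣ a * n + b)).card ≤ ((Icc 1 N).filter (fun n => r * r ∣ a * n + b)).card := by
        apply card_le_card
        intro n hn
        rw [mem_filter] at hn
        rw [mem_filter, mem_Icc]
        exact ⟨hGm n hn.1, hn.2⟩
      exact_mod_cast h2
    refine (sum_le_sum h1).trans ?_
    calc ∑ r ∈ (Ioc y D).filter (fun r => r.Prime), 2 ^ v * (N * (1 / ((r : ℝ) * r)) + 2) ≤
        ∑ r ∈ Ioc y D, 2 ^ v * (N * (1 / ((r : ℝ) * r)) + 2) := by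
          apply sum_le_sum_of_subset_of_nonneg (filter_subset _ _)
          intro r _ _
          positivity
      _ = 2 ^ v * (N * ∑ r ∈ Ioc y D, 1 / ((r : ℝ) * r) + 2 * ((D - y : ℕ) : ℝ)) := by
          rw [← mul_sum, sum_add_distrib, ← mul_sum, sum_const, Nat.card_Ioc, nsmul_eq_mul]
          ring
      _ ≤ 2 ^ v * ((N : ℝ) / y + 2 * D) := by
          apply mul_le_mul_of_nonneg_left _ (by positivity)
          have h2 := mul_le_mul_of_nonneg_left (sum_inv_sq (D := D) (y := y) (by omega)) (Nat.cast_nonneg (α := ℝ) N)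
          have h3 : ((D - y : ℕ) : ℝ) ≤ D := by exact_mod_cast Nat.sub_le D y
          rw [mul_one_div] at h2
          linarith

end Pool.Agent.H92.G
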