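import Pool.Agent.H92.G.LamAP
import Pool.Agent.H92.F.Err

set_option autoImplicit false

/-! The fundamental lemma with the weights `1 * χ`. -/

open Finset Filter Topology

namespace Pool.Agent.H92.G

variable {f : ℕ} {χ : ℕ → ℝ}

/-- the fundamental lemma with a given constant -/
def FLC (C : ℕ) : Prop := ∀ (κ b J z0 : ℕ) (P : Finset ℕ) (g : ℕ → ℝ),
  C * (κ + 1) ≤ b → C * (κ + 1) ≤ z0 → (∀ p ∈ P, p.Prime ∧ z0 < p ∧ p ≤ 2 ^ 2 ^ J) →
  (∀ p ∈ P, 0 ≤ g p ∧ g p ≤ κ / ((p : ℝ) - 1)) →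
  ∀ (S : Finset ℕ) (w : ℕ → ℝ) (Rt : ℕ → Finset ℕ) (A : ℝ) (err : Finset ℕ → ℝ),
    (∀ m ∈ S, 0 ≤ w m) → 0 ≤ A →
    (∀ T ⊆ P, ∏ p ∈ T, p ≤ (2 ^ 2 ^ J) ^ (C * b) →
      |∑ m ∈ S.filter (fun m => ∀ p ∈ T, m % p ∈ Rt p), w m - A * ∏ p ∈ T, g p| ≤ err T) →
    |∑ m ∈ S.filter (fun m => ∀ p ∈ P, m % p ∉ Rt p), w m - A * ∏ p ∈ P, (1 - g p)| ≤
      (1 / 2 : ℝ) ^ b * (A * ∏ p ∈ P, (1 - g p)) +
        ((J : ℝ) + 2) *
          ∑ T ∈ P.powerset.filter (fun T : Finset ℕ => ∏ p ∈ T, p ≤ (2 ^ 2 ^ J) ^ (C * b)),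
            err T

theorem flc : ∃ C : ℕ, 1 ≤ C ∧ FLC C := by
  obtain ⟨C, hC, H⟩ := Pool.Agent.TH423.SH.fLemC
  refine ⟨C, hC, ?_⟩
  intro κ b J z0 P g h1 h2 h3 h4 S w Rt A err h5 h6 h7
  have := H κ b J z0 P g h1 h2 h3 h4 S w (fun p m => m % p ∈ Rt p) A err h5 h6 (by
    intro T hT hTl
    refine le_trans (le_of_eq ?_) (h7 T hT hTl)
    congr!)
  refine le_trans (le_of_eq ?_) this
  congr!

theorem pf_prod_mem {Z : Finset ℕ} (hZ : ∀ p ∈ Z, p.Prime) {p : ℕ} (hp : p.Prime) (h : p ∣ ∏ q ∈ Z, q) : p ∈ Z := by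
  obtain ⟨q, hq, h1⟩ := (Prime.dvd_finsetProd_iff hp.prime _).1 h
  have := (Nat.prime_dvd_prime_iff_eq hp (hZ q hq)).1 h1
  rwa [this]

/-- the local factor of a residue class -/
noncomputable def ep (χ : ℕ → ℝ) (a b p c : ℕ) : ℝ := if p ∣ a then 1 else 1 + (cc a b c p - 1) * χ p / p

/-- the local density -/
noncomputable def gg (χ : ℕ → ℝ) (a b : ℕ) (Rt : ℕ → Finset ℕ) (p : ℕ) : ℝ := ∑ c ∈ Rt p, ep χ a b p c / p

theorem ep_bd (h : Chr f χ) (a b : ℕ) {p : ℕ} (hp : p.Prime) (c : ℕ) : 0 ≤ ep χ a b p c ∧ ep χ a b p c ≤ 2 := by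
  unfold ep
  split_ifs with h1
  · norm_num
  · have hp2 : (2 : ℝ) ≤ p := by exact_mod_cast hp.two_le
    have h2 := abs_le.1 (h.abs_le p)
    have h3 : |(cc a b c p - 1) * χ p / p| ≤ 1 := by
      rw [abs_div, abs_of_pos (show (0 : ℝ) < p by linarith), div_le_one (by linarith), abs_mul]
      have h4 : |cc a b c p - 1| ≤ p := by
        unfold cc
        split_ifs
        · rw [abs_of_nonneg (by linarith)]; linarith
        · rw [zero_sub, abs_neg, abs_one]; linarith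
      calc |cc a b c p - 1| * |χ p| ≤ p * 1 := mul_le_mul h4 (h.abs_le p) (abs_nonneg _) (by linarith)
        _ = p := mul_one _
    have h5 := abs_le.1 h3
    constructor <;> linarith

theorem gg_bd (h : Chr f χ) (a b : ℕ) (Rt : ℕ → Finset ℕ) {p k : ℕ} (hp : p.Prime) (hk : (Rt p).card ≤ k) :
    0 ≤ gg χ a b Rt p ∧ gg χ a b Rt p ≤ (2 * k : ℕ) / ((p : ℝ) - 1) := by
  have hp2 : (2 : ℝ) ≤ p := by exact_mod_cast hp.two_le
  unfold gg
  constructor
  · exact sum_nonneg fun c _ => div_nonneg (ep_bd h a b hp c).1 (by linarith)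
  · calc ∑ c ∈ Rt p, ep χ a b p c / p ≤ ∑ _c ∈ Rt p, 2 / ((p : ℝ) - 1) := by
          apply sum_le_sum
          intro c _
          exact div_le_div₀ (by norm_num) (ep_bd h a b hp c).2 (by linarith) (by linarith)
      _ = (Rt p).card * (2 / ((p : ℝ) - 1)) := by rw [sum_const, nsmul_eq_mul]
      _ ≤ k * (2 / ((p : ℝ) - 1)) := by
          apply mul_le_mul_of_nonneg_right (by exact_mod_cast hk)
          apply div_nonneg (by norm_num) (by linarith)
      _ = _ := by push_cast; ring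

/-- the main term of one combination of classes -/
theorem main_term {a b : ℕ} (ha : 0 < a) (hab : a.Coprime b) (ZW T : Finset ℕ) (hd : Disjoint ZW T)
    (hTp : ∀ p ∈ T, p.Prime) (ν : ℕ) (c : ℕ → ℕ) (hν : ∀ p ∈ ZW, ¬ p ∣ a * ν + b) (hc : ∀ p ∈ T, ν % p = c p) :
    ∏ p ∈ (ZW ∪ T) ∪ a.primeFactors, (1 + (cc a b ν p - 1) * χ p / p) =
      (∏ p ∈ ZW ∪ a.primeFactors, (1 - χ p / p)) * ∏ p ∈ T, ep χ a b p (c p) := by
  classical
  have e : (ZW ∪ T) ∪ a.primeFactors = (ZW ∪ a.primeFactors) ∪ (T.filter (fun p => p ∉ a.primeFactors)) := by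
    ext p
    simp only [mem_union, mem_filter]
    tauto
  rw [e, prod_union]
  · congr 1
    · apply prod_congr rfl
      intro p hp
      have h1 : ¬ p ∣ a * ν + b := by
        rcases mem_union.1 hp with h2 | h2
        · exact hν p h2
        · intro h3
          have h4 := Nat.dvd_of_mem_primeFactors h2
          have h5 := (Nat.dvd_add_right (h4.mul_right ν)).1 h3
          have h6 := Nat.dvd_gcd h4 h5
          rw [hab] at h6
          exact (Nat.prime_of_mem_primeFactors h2).one_lt.ne' (Nat.dvd_one.1 h6)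
      unfold cc
      rw [if_neg h1]
      ring
    · rw [prod_filter]
      apply prod_congr rfl
      intro p hp
      unfold ep
      by_cases h1 : p ∣ a
      · rw [if_pos h1]
        rw [if_neg (by
            rw [not_not]
            exact Nat.mem_primeFactors.2 ⟨hTp p hp, h1, ha.ne'⟩)]
      · rw [if_neg h1, if_pos (fun h2 => h1 (Nat.dvd_of_mem_primeFactors h2))]
        have h3 : cc a b ν p = cc a b (c p) p := by
          unfold cc
          have h4 : a * ν + b ≡ a * c p + b [MOD p] := by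
            have h5 : ν ≡ c p [MOD p] := by
              unfold Nat.ModEq
              rw [← hc p hp, Nat.mod_mod]
            exact (h5.mul_left a).add_right b
          simp only [h4.dvd_iff dvd_rfl]
        rw [h3]
  · rw [Finset.disjoint_left]
    intro p hp hp'
    rw [mem_filter] at hp'
    rcases mem_union.1 hp with h1 | h1
    · exact (Finset.disjoint_left.1 hd h1) hp'.1
    · exact hp'.2 h1

/-- the weighted sieve -/
theorem svp {C : ℕ} (hF : FLC C) (h : Chr f χ) {L : ℝ} (hL : Tends χ L) (hL0 : 0 ≤ L) {a b : ℕ} (ha : 0 < a)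
    (hfa : f ∣ a) (hab : a.Coprime b) (hba : b ≤ a) (hχb : χ b = 1) (k bb J z0 : ℕ) (ZW P : Finset ℕ)
    (hZW : ∀ p ∈ ZW, p.Prime) (hP : ∀ p ∈ P, p.Prime ∧ z0 < p ∧ p ≤ 2 ^ 2 ^ J) (hd : Disjoint ZW P)
    (Rt : ℕ → Finset ℕ) (hRt : ∀ p ∈ P, (Rt p).card ≤ k ∧ ∀ c ∈ Rt p, c < p)
    (hbb : C * (2 * k + 1) ≤ bb) (hz0 : C * (2 * k + 1) ≤ z0) (hC : 1 ≤ C) (ν N : ℕ) (hν : ∀ p ∈ ZW, ¬ p ∣ a * ν + b) :
    |∑ n ∈ (Icc 1 N).filter (fun n => n ≡ ν [MOD ∏ p ∈ ZW, p] ∧ ∀ p ∈ P, n % p ∉ Rt p), lam χ (a * n + b) -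
      2 * ((N : ℝ) / (∏ p ∈ ZW, p : ℕ)) * (L * ∏ p ∈ ZW ∪ a.primeFactors, (1 - χ p / p)) *
        ∏ p ∈ P, (1 - gg χ a b Rt p)| ≤
      (1 / 2 : ℝ) ^ bb * (2 * ((N : ℝ) / (∏ p ∈ ZW, p : ℕ)) * (L * ∏ p ∈ ZW ∪ a.primeFactors, (1 - χ p / p)) *
        ∏ p ∈ P, (1 - gg χ a b Rt p)) +
      ((J : ℝ) + 2) * ((((2 ^ 2 ^ J) ^ (C * bb) : ℕ) : ℝ) * (((2 ^ 2 ^ J) ^ (C * bb) : ℕ) : ℝ) *
        (17 * (a : ℝ) ^ 2 * ((Nat.sqrt (a * N + b) : ℝ) + 1))) := by
  classical
  obtain ⟨W, hW⟩ : ∃ W : ℕ, W = ∏ p ∈ ZW, p := ⟨_, rfl⟩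
  obtain ⟨E, hE⟩ : ∃ E : ℝ, E = 17 * (a : ℝ) ^ 2 * ((Nat.sqrt (a * N + b) : ℝ) + 1) := ⟨_, rfl⟩
  have hE0 : 0 ≤ E := by rw [hE]; positivity
  obtain ⟨A, hA⟩ : ∃ A : ℝ, A = 2 * ((N : ℝ) / (∏ p ∈ ZW, p : ℕ)) * (L * ∏ p ∈ ZW ∪ a.primeFactors, (1 - χ p / p)) :=
    ⟨_, rfl⟩
  rw [← hA, ← hE, ← hW]
  have hfac : ∀ p ∈ ZW ∪ a.primeFactors, 0 ≤ 1 - χ p / p := by
    intro p hp
    have hpp : p.Prime := by
      rcases mem_union.1 hp with h1 | h1
      · exact hZW p h1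
      · exact Nat.prime_of_mem_primeFactors h1
    have hp1 : (1 : ℝ) ≤ p := by exact_mod_cast hpp.one_lt.le
    have h2 := abs_le.1 (h.abs_le p)
    rw [sub_nonneg, div_le_one (by linarith)]
    linarith
  have hA0 : 0 ≤ A := by
    rw [hA]
    apply mul_nonneg (by positivity)
    exact mul_nonneg hL0 (prod_nonneg hfac)
  have hWp : ∀ p ∈ P, ¬ p ∣ W := by
    intro p hp hdv
    rw [hW] at hdv
    have h1 := pf_prod_mem hZW (hP p hp).1 hdv
    exact Finset.disjoint_left.1 hd h1 hp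
  have key := hF (2 * k) bb J z0 P (gg χ a b Rt) hbb hz0 hP (fun p hp => by
      have := gg_bd h a b Rt (hP p hp).1 (hRt p hp).1
      exact ⟨this.1, this.2⟩)
    ((Icc 1 N).filter (fun n => n ≡ ν [MOD W])) (fun n => lam χ (a * n + b)) Rt A
    (fun T => (k : ℝ) ^ T.card * E) (fun n _ => lam_nonneg h _) hA0 ?_
  · rw [filter_filter] at key
    refine key.trans ?_
    apply add_le_add le_rfl
    apply mul_le_mul_of_nonneg_left _ (by positivity)
    have h1 := Pool.Agent.H92.F.err_up k ((2 ^ 2 ^ J) ^ (C * bb)) P (fun p hp => ⟨(hP p hp).1, by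
      have h2 := (hP p hp).2.1
      have h3 : k ≤ C * (2 * k + 1) := by nlinarith
      omega⟩)
    calc ∑ T ∈ P.powerset.filter (fun T : Finset ℕ => ∏ p ∈ T, p ≤ (2 ^ 2 ^ J) ^ (C * bb)), (k : ℝ) ^ T.card * E =
        (∑ T ∈ P.powerset.filter (fun T : Finset ℕ => ∏ p ∈ T, p ≤ (2 ^ 2 ^ J) ^ (C * bb)), (k : ℝ) ^ T.card * 1) * E := by
          rw [sum_mul]
          apply sum_congr rfl
          intro T _
          rw [mul_one]
      _ ≤ _ := mul_le_mul_of_nonneg_right h1 hE0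
  · intro T hTP _
    have hTp : ∀ p ∈ T, p.Prime := fun p hp => (hP p (hTP hp)).1
    have hdT : Disjoint ZW T := Finset.disjoint_of_subset_right hTP hd
    -- the combinations of classes
    obtain ⟨ext, hext⟩ : ∃ ext : (∀ p ∈ T, ℕ) → ℕ → ℕ, ext = fun c p => if hp : p ∈ T then c p hp else 0 := ⟨_, rfl⟩
    have hsum : ∑ m ∈ ((Icc 1 N).filter (fun n => n ≡ ν [MOD W])).filter (fun m => ∀ p ∈ T, m % p ∈ Rt p),
        lam χ (a * m + b) = ∑ c ∈ T.pi Rt, ∑ m ∈ (Icc 1 N).filter (fun n => n ≡ ν [MOD W] ∧ ∀ p ∈ T, n % p = ext c p),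
          lam χ (a * m + b) := by
      rw [← sum_fiberwise_of_maps_to (s := ((Icc 1 N).filter (fun n => n ≡ ν [MOD W])).filter
        (fun m => ∀ p ∈ T, m % p ∈ Rt p)) (t := T.pi Rt) (g := fun m => fun p _ => m % p)]
      · apply sum_congr rfl
        intro c hc
        apply sum_congr _ (fun _ _ => rfl)
        ext n
        rw [mem_filter, mem_filter, mem_filter, mem_filter]
        rw [Finset.mem_pi] at hc
        constructor
        · rintro ⟨⟨⟨h1, h2⟩, h3⟩, h4⟩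
          refine ⟨h1, h2, fun p hp => ?_⟩
          rw [hext]
          simp only [dif_pos hp]
          exact congrFun (congrFun h4 p) hp
        · rintro ⟨h1, h2, h3⟩
          have h4 : ∀ p (hp : p ∈ T), n % p = c p hp := by
            intro p hp
            have := h3 p hp
            rw [hext] at this
            simpa only [dif_pos hp] using this
          refine ⟨⟨⟨h1, h2⟩, fun p hp => ?_⟩, ?_⟩
          · rw [h4 p hp]
            exact hc p hp
          · funext p hp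
            exact h4 p hp
      · intro n hn
        rw [mem_filter] at hn
        rw [Finset.mem_pi]
        intro p hp
        exact hn.2 p hp
    have hprod : A * ∏ p ∈ T, gg χ a b Rt p = ∑ c ∈ T.pi Rt, A * ∏ p ∈ T, (ep χ a b p (ext c p) / p) := by
      unfold gg
      rw [prod_sum, mul_sum]
      apply sum_congr rfl
      intro c _
      congr 1
      rw [← prod_attach T (fun p => ep χ a b p (ext c p) / p)]
      apply prod_congr rfl
      rintro ⟨p, hp⟩ _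
      rw [hext]
      simp only [dif_pos hp]
    rw [hsum, hprod, ← sum_sub_distrib]
    refine (abs_sum_le_sum_abs _ _).trans ?_
    have hcard : ((T.pi Rt).card : ℝ) ≤ (k : ℝ) ^ T.card := by
      rw [card_pi]
      have : ∏ p ∈ T, (Rt p).card ≤ k ^ T.card := by
        rw [← prod_const]
        exact Finset.prod_le_prod' fun p hp => (hRt p (hTP hp)).1
      exact_mod_cast this
    refine le_trans (sum_le_card_nsmul _ _ E ?_) (by
      rw [nsmul_eq_mul]
      exact mul_le_mul_of_nonneg_right hcard hE0)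
    intro c hc
    rw [Finset.mem_pi] at hc
    have hcp : ∀ p ∈ T, ext c p ∈ Rt p := by
      intro p hp
      rw [hext]
      simp only [dif_pos hp]
      exact hc p hp
    obtain ⟨γ, hγ⟩ := Pool.Agent.H92.F.crt W ν (ext c) T (fun p hp => ⟨hTp p hp, hWp p (hTP hp)⟩)
      (fun p hp => (hRt p (hTP hp)).2 _ (hcp p hp))
    have hγ1 := (hγ γ).2 rfl
    have hZT : ∏ p ∈ ZW ∪ T, p = W * ∏ p ∈ T, p := by
      rw [prod_union hdT, hW]
    have hmain := lam_ap h hL ha hfa hab hba hχb (ZW ∪ T) (fun p hp => by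
      rcases mem_union.1 hp with h1 | h1
      · exact hZW p h1
      · exact hTp p h1) γ N
    have hν' : ∀ p ∈ ZW, ¬ p ∣ a * γ + b := by
      intro p hp hdv
      apply hν p hp
      have h1 : p ∣ W := by rw [hW]; exact dvd_prod_of_mem _ hp
      have h2 : a * γ + b ≡ a * ν + b [MOD p] := ((hγ1.1.of_dvd h1).mul_left a).add_right b
      exact (h2.dvd_iff dvd_rfl).1 hdv
    rw [main_term ha hab ZW T hdT hTp γ (ext c) hν' hγ1.2, hZT, ← hE] at hmain
    have e1 : (Icc 1 N).filter (fun n => n ≡ ν [MOD W] ∧ ∀ p ∈ T, n % p = ext c p) =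
        (Icc 1 N).filter (fun n => n ≡ γ [MOD W * ∏ p ∈ T, p]) := by
      apply filter_congr
      intro n _
      exact hγ n
    rw [e1]
    refine le_trans (le_of_eq ?_) hmain
    congr 2
    rw [hA, ← hW, prod_div_distrib]
    push_cast
    have hW0 : (W : ℝ) ≠ 0 := by
      have : 0 < W := by rw [hW]; exact prod_pos fun p hp => (hZW p hp).pos
      exact_mod_cast this.ne'
    have hT0 : (∏ p ∈ T, (p : ℝ)) ≠ 0 := by
      apply prod_ne_zero_iff.2
      intro p hp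
      exact_mod_cast (hTp p hp).ne_zero
    field_simp

end Pool.Agent.H92.G
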