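import Mathlib

set_option autoImplicit false

/-! Conditionally convergent series with bounded partial sums, and their Euler factors. -/

open Finset Filter Topology

namespace Pool.Agent.H92.G

/-- bounded partial sums -/
def PB (h : ℕ → ℝ) (B : ℝ) : Prop := ∀ D : ℕ, |∑ d ∈ Icc 1 D, h d| ≤ B

/-- the sum of the series of `h d / d` -/
def Tends (h : ℕ → ℝ) (S : ℝ) : Prop := Tendsto (fun A : ℕ => ∑ d ∈ Icc 1 A, h d / d) atTop (𝓝 S)

theorem Icc_split {A D : ℕ} (h : A ≤ D) (g : ℕ → ℝ) :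
    ∑ d ∈ Icc 1 D, g d = ∑ d ∈ Icc 1 A, g d + ∑ d ∈ Ioc A D, g d := by
  induction D, h using Nat.le_induction with
  | base => simp
  | succ D hD ih => rw [sum_Icc_succ_top (by omega), ih, sum_Ioc_succ_top (by omega), add_assoc]

theorem PB_Ioc {h : ℕ → ℝ} {B : ℝ} (hB : PB h B) (A D : ℕ) : |∑ d ∈ Ioc A D, h d| ≤ 2 * B := by
  have hB0 : 0 ≤ B := (abs_nonneg _).trans (hB 0)
  rcases le_or_gt A D with h1 | h1
  · have h2 := Icc_split h1 h
    have h3 : ∑ d ∈ Ioc A D, h d = ∑ d ∈ Icc 1 D, h d - ∑ d ∈ Icc 1 A, h d := by linarith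
    rw [h3]
    have h4 := hB D
    have h5 := hB A
    rw [abs_le] at h4 h5 ⊢
    constructor <;> linarith
  · rw [Ioc_eq_empty (by omega), sum_empty, abs_zero]
    linarith

theorem abel_tail {h : ℕ → ℝ} {B : ℝ} (hB : PB h B) (A D : ℕ) :
    |∑ d ∈ Ioc A D, h d / d| ≤ 2 * B / (A + 1) := by
  have hB0 : 0 ≤ B := (abs_nonneg _).trans (hB 0)
  rcases le_or_gt D A with h1 | h1
  · rw [Ioc_eq_empty (by omega), sum_empty, abs_zero]
    positivity
  · have key : |∑ d ∈ Ioc A D, h d / d - (1 / (D : ℝ)) * ∑ d ∈ Ioc A D, h d| ≤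
        2 * B * (1 / ((A : ℝ) + 1) - 1 / D) := by
      have h2 : A + 1 ≤ D := h1
      clear h1
      induction D, h2 using Nat.le_induction with
      | base =>
        rw [sum_Ioc_succ_top (by omega), sum_Ioc_succ_top (by omega), Ioc_self, sum_empty, sum_empty]
        push_cast
        rw [zero_add, zero_add, one_div_mul_eq_div, sub_self, abs_zero, sub_self, mul_zero]
      | succ D hD ih =>
        have hD0 : (0 : ℝ) < D := by
          have : 0 < D := by omega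
          exact_mod_cast this
        rw [sum_Ioc_succ_top (by omega), sum_Ioc_succ_top (by omega)]
        push_cast
        have h3 := PB_Ioc hB A D
        have h4 : (0 : ℝ) ≤ 1 / D - 1 / (D + 1) := by
          rw [sub_nonneg]
          exact one_div_le_one_div_of_le hD0 (by linarith)
        have e : ∑ d ∈ Ioc A D, h d / d + h (D + 1) / (D + 1) -
            1 / (D + 1) * (∑ d ∈ Ioc A D, h d + h (D + 1)) =
            (∑ d ∈ Ioc A D, h d / d - 1 / (D : ℝ) * ∑ d ∈ Ioc A D, h d) +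
              (1 / D - 1 / (D + 1)) * ∑ d ∈ Ioc A D, h d := by ring
        rw [e]
        refine (abs_add_le _ _).trans ?_
        rw [abs_mul, abs_of_nonneg h4]
        calc _ ≤ 2 * B * (1 / ((A : ℝ) + 1) - 1 / D) + (1 / D - 1 / (D + 1)) * (2 * B) :=
              add_le_add ih (mul_le_mul_of_nonneg_left h3 h4)
          _ = _ := by ring
    have hD0 : (0 : ℝ) < D := by
      have : 0 < D := by omega
      exact_mod_cast this
    have h3 := PB_Ioc hB A D
    have h5 : |(1 / (D : ℝ)) * ∑ d ∈ Ioc A D, h d| ≤ 1 / D * (2 * B) := by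
      rw [abs_mul, abs_of_pos (by positivity)]
      exact mul_le_mul_of_nonneg_left h3 (by positivity)
    have h6 : |∑ d ∈ Ioc A D, h d / d| ≤ |∑ d ∈ Ioc A D, h d / d - (1 / (D : ℝ)) * ∑ d ∈ Ioc A D, h d| +
        |(1 / (D : ℝ)) * ∑ d ∈ Ioc A D, h d| := by
      have := abs_add_le (∑ d ∈ Ioc A D, h d / d - (1 / (D : ℝ)) * ∑ d ∈ Ioc A D, h d)
        ((1 / (D : ℝ)) * ∑ d ∈ Ioc A D, h d)
      rwa [sub_add_cancel] at this
    calc _ ≤ 2 * B * (1 / ((A : ℝ) + 1) - 1 / D) + 1 / D * (2 * B) := h6.trans (add_le_add key h5)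
      _ = _ := by ring

theorem abel_id {h : ℕ → ℝ} {B : ℝ} (hB : PB h B) (D : ℕ) : |∑ d ∈ Icc 1 D, h d * d| ≤ 2 * B * D := by
  have hB0 : 0 ≤ B := (abs_nonneg _).trans (hB 0)
  have key : |∑ d ∈ Icc 1 D, h d * d - D * ∑ d ∈ Icc 1 D, h d| ≤ B * D := by
    induction D with
    | zero => simp
    | succ D ih =>
      rw [sum_Icc_succ_top (by omega), sum_Icc_succ_top (by omega)]
      push_cast
      have e : ∑ d ∈ Icc 1 D, h d * d + h (D + 1) * (D + 1) - (D + 1) * (∑ d ∈ Icc 1 D, h d + h (D + 1)) =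
          (∑ d ∈ Icc 1 D, h d * d - D * ∑ d ∈ Icc 1 D, h d) - ∑ d ∈ Icc 1 D, h d := by ring
      rw [e]
      refine (abs_sub _ _).trans ?_
      have := hB D
      linarith
  have h5 : |(D : ℝ) * ∑ d ∈ Icc 1 D, h d| ≤ D * B := by
    rw [abs_mul, abs_of_nonneg (Nat.cast_nonneg D)]
    exact mul_le_mul_of_nonneg_left (hB D) (Nat.cast_nonneg D)
  have h6 := abs_add_le (∑ d ∈ Icc 1 D, h d * d - D * ∑ d ∈ Icc 1 D, h d) (D * ∑ d ∈ Icc 1 D, h d)
  rw [sub_add_cancel] at h6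
  linarith

theorem Tends_exists {h : ℕ → ℝ} {B : ℝ} (hB : PB h B) : ∃ S, Tends h S := by
  have hB0 : 0 ≤ B := (abs_nonneg _).trans (hB 0)
  apply cauchySeq_tendsto_of_complete
  apply cauchySeq_of_le_tendsto_0' (fun A : ℕ => 2 * B / ((A : ℝ) + 1))
  · intro A D hAD
    rw [Real.dist_eq, abs_sub_comm, Icc_split hAD (fun d => h d / d), add_sub_cancel_left]
    exact abel_tail hB A D
  · have h1 := tendsto_one_div_add_atTop_nhds_zero_nat (𝕜 := ℝ)
    have h2 := h1.const_mul (2 * B)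
    rw [mul_zero] at h2
    refine h2.congr fun n => ?_
    ring

theorem Tends_rate {h : ℕ → ℝ} {B S : ℝ} (hB : PB h B) (hS : Tends h S) (A : ℕ) :
    |∑ d ∈ Icc 1 A, h d / d - S| ≤ 2 * B / (A + 1) := by
  have h1 : Tendsto (fun D : ℕ => |∑ d ∈ Icc 1 A, h d / d - ∑ d ∈ Icc 1 D, h d / d|) atTop
      (𝓝 |∑ d ∈ Icc 1 A, h d / d - S|) := (tendsto_const_nhds.sub hS).abs
  refine le_of_tendsto h1 ?_
  filter_upwards [eventually_ge_atTop A] with D hD
  rw [abs_sub_comm, Icc_split hD (fun d => h d / d), add_sub_cancel_left]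
  exact abel_tail hB A D

/-- one Euler factor -/
noncomputable def mod (h : ℕ → ℝ) (p : ℕ) (c : ℝ) (d : ℕ) : ℝ := if p ∣ d then c * h d else h d

theorem sum_mult {p : ℕ} (hp : 0 < p) (D : ℕ) (g : ℕ → ℝ) :
    ∑ d ∈ (Icc 1 D).filter (fun d => p ∣ d), g d = ∑ e ∈ Icc 1 (D / p), g (p * e) := by
  symm
  apply sum_bij (fun e _ => p * e)
  · intro e he
    rw [mem_Icc] at he
    rw [mem_filter, mem_Icc]
    refine ⟨⟨Nat.mul_pos hp he.1, ?_⟩, dvd_mul_right _ _⟩
    rw [mul_comm]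
    exact (Nat.le_div_iff_mul_le hp).1 he.2
  · intro e _ e' _ h
    exact Nat.eq_of_mul_eq_mul_left hp h
  · intro d hd
    rw [mem_filter, mem_Icc] at hd
    obtain ⟨e, rfl⟩ := hd.2
    refine ⟨e, ?_, rfl⟩
    rw [mem_Icc]
    refine ⟨Nat.pos_of_ne_zero (by rintro rfl; simp at hd), ?_⟩
    rw [Nat.le_div_iff_mul_le hp, mul_comm]
    exact hd.1.2
  · intro e _
    rfl

theorem mod_sum {h : ℕ → ℝ} {p : ℕ} {c x : ℝ} (hp : 0 < p) (hx : ∀ e, h (p * e) = x * h e) (D : ℕ) :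
    ∑ d ∈ Icc 1 D, mod h p c d = ∑ d ∈ Icc 1 D, h d + (c - 1) * x * ∑ d ∈ Icc 1 (D / p), h d := by
  have h1 : ∀ d, mod h p c d = h d + if p ∣ d then (c - 1) * h d else 0 := by
    intro d
    unfold mod
    split_ifs <;> ring
  rw [sum_congr rfl (fun d _ => h1 d), sum_add_distrib, ← sum_filter, sum_mult hp D (fun d => (c - 1) * h d)]
  congr 1
  rw [mul_sum]
  apply sum_congr rfl
  intro e _
  rw [hx]
  ring

theorem mod_sum' {h : ℕ → ℝ} {p : ℕ} {c x : ℝ} (hp : 0 < p) (hx : ∀ e, h (p * e) = x * h e) (D : ℕ) :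
    ∑ d ∈ Icc 1 D, mod h p c d / d = ∑ d ∈ Icc 1 D, h d / d + (c - 1) * x / p * ∑ d ∈ Icc 1 (D / p), h d / d := by
  have h1 : ∀ d : ℕ, mod h p c d / d = h d / d + if p ∣ d then (c - 1) * (h d / d) else 0 := by
    intro d
    unfold mod
    split_ifs <;> ring
  rw [sum_congr rfl (fun d _ => h1 d), sum_add_distrib, ← sum_filter, sum_mult hp D (fun d => (c - 1) * (h d / d))]
  congr 1
  rw [mul_sum]
  apply sum_congr rfl
  intro e he
  rw [hx]
  have he0 : (e : ℝ) ≠ 0 := by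
    have := (mem_Icc.1 he).1
    have : e ≠ 0 := by omega
    exact_mod_cast this
  have hp0 : (p : ℝ) ≠ 0 := by exact_mod_cast hp.ne'
  push_cast
  field_simp

theorem mod_PB {h : ℕ → ℝ} {p : ℕ} {c x B : ℝ} (hp : 0 < p) (hx : ∀ e, h (p * e) = x * h e) (hx1 : |x| ≤ 1)
    (hB : PB h B) (hc : 1 + |c - 1| ≤ p) : PB (mod h p c) (B * p) := by
  have hB0 : 0 ≤ B := (abs_nonneg _).trans (hB 0)
  intro D
  rw [mod_sum hp hx]
  refine (abs_add_le _ _).trans ?_
  rw [abs_mul, abs_mul]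
  calc _ ≤ B + |c - 1| * 1 * B := by
        apply add_le_add (hB D)
        apply mul_le_mul _ (hB _) (abs_nonneg _) (by positivity)
        exact mul_le_mul_of_nonneg_left hx1 (abs_nonneg _)
    _ = B * (1 + |c - 1|) := by ring
    _ ≤ B * p := mul_le_mul_of_nonneg_left hc hB0

theorem mod_Tends {h : ℕ → ℝ} {p : ℕ} {c x S : ℝ} (hp : 0 < p) (hx : ∀ e, h (p * e) = x * h e)
    (hS : Tends h S) : Tends (mod h p c) (S * (1 + (c - 1) * x / p)) := by
  unfold Tends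
  have h1 : Tendsto (fun A : ℕ => A / p) atTop atTop := Nat.tendsto_div_const_atTop (by omega)
  have h2 := hS.add ((hS.comp h1).const_mul ((c - 1) * x / p))
  have e : S * (1 + (c - 1) * x / p) = S + (c - 1) * x / p * S := by ring
  rw [e]
  refine h2.congr fun D => ?_
  rw [mod_sum' hp hx]
  rfl

/-- several Euler factors -/
noncomputable def hZ (χ : ℕ → ℝ) (c : ℕ → ℝ) (Z : Finset ℕ) (d : ℕ) : ℝ := χ d * ∏ p ∈ Z, (if p ∣ d then c p else 1)

theorem hZ_insert {χ c : ℕ → ℝ} {Z : Finset ℕ} {p : ℕ} (hp : p ∉ Z) :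
    hZ χ c (insert p Z) = mod (hZ χ c Z) p (c p) := by
  funext d
  unfold hZ mod
  rw [prod_insert hp]
  split_ifs <;> ring

theorem hZ_mul {χ c : ℕ → ℝ} (hmul : ∀ m n, χ (m * n) = χ m * χ n) {Z : Finset ℕ} (hZ0 : ∀ p ∈ Z, p.Prime) {q : ℕ}
    (hq : q.Prime) (hqZ : q ∉ Z) (e : ℕ) : hZ χ c Z (q * e) = χ q * hZ χ c Z e := by
  unfold hZ
  rw [hmul, mul_assoc]
  congr 2
  apply prod_congr rfl
  intro p hp
  have h1 : p ∣ q * e ↔ p ∣ e := by
    rw [(hZ0 p hp).dvd_mul]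
    constructor
    · rintro (h | h)
      · have := (Nat.prime_dvd_prime_iff_eq (hZ0 p hp) hq).1 h
        subst this
        exact absurd hp hqZ
      · exact h
    · exact Or.inr
  simp only [h1]

theorem tower {χ c : ℕ → ℝ} (hmul : ∀ m n, χ (m * n) = χ m * χ n) (hχ : ∀ n, |χ n| ≤ 1) {B L : ℝ} (hB : PB χ B)
    (hL : Tends χ L) (Z : Finset ℕ) (hZ0 : ∀ p ∈ Z, p.Prime) (hc : ∀ p ∈ Z, c p = 0 ∨ c p = p) :
    PB (hZ χ c Z) (B * ∏ p ∈ Z, (p : ℝ)) ∧ Tends (hZ χ c Z) (L * ∏ p ∈ Z, (1 + (c p - 1) * χ p / p)) := by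
  classical
  induction Z using Finset.induction_on with
  | empty =>
    have : hZ χ c ∅ = χ := by funext d; simp [hZ]
    rw [this]
    simpa using ⟨hB, hL⟩
  | @insert p Z hp ih =>
    obtain ⟨h1, h2⟩ := ih (fun q hq => hZ0 q (mem_insert_of_mem hq)) (fun q hq => hc q (mem_insert_of_mem hq))
    have hpp := hZ0 p (mem_insert_self _ _)
    have hx := hZ_mul (c := c) hmul (fun q hq => hZ0 q (mem_insert_of_mem hq)) hpp hp
    have hp2 : (2 : ℝ) ≤ p := by exact_mod_cast hpp.two_le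
    rw [hZ_insert hp, prod_insert hp, prod_insert hp]
    constructor
    · have h3 := mod_PB (c := c p) hpp.pos hx (hχ p) h1 (by
        rcases hc p (mem_insert_self _ _) with h | h
        · rw [h]
          have : |(0 : ℝ) - 1| = 1 := by norm_num
          rw [this]
          linarith
        · rw [h, abs_of_nonneg (by linarith)]; linarith)
      have e : B * (↑p * ∏ p ∈ Z, (p : ℝ)) = (B * ∏ p ∈ Z, (p : ℝ)) * p := by ring
      rw [e]
      exact h3
    · have h3 := mod_Tends (c := c p) hpp.pos hx h2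
      have e : L * ((1 + (c p - 1) * χ p / ↑p) * ∏ p ∈ Z, (1 + (c p - 1) * χ p / ↑p)) =
          (L * ∏ p ∈ Z, (1 + (c p - 1) * χ p / ↑p)) * (1 + (c p - 1) * χ p / ↑p) := by ring
      rw [e]
      exact h3

theorem hZ_abs {χ c : ℕ → ℝ} (hχ : ∀ n, |χ n| ≤ 1) (Z : Finset ℕ) (hZ0 : ∀ p ∈ Z, p.Prime)
    (hc : ∀ p ∈ Z, c p = 0 ∨ c p = p) (d : ℕ) : |hZ χ c Z d| ≤ ∏ p ∈ Z, (p : ℝ) := by
  unfold hZ
  rw [abs_mul, Finset.abs_prod]
  calc _ ≤ 1 * ∏ p ∈ Z, |if p ∣ d then c p else 1| :=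
        mul_le_mul_of_nonneg_right (hχ d) (prod_nonneg fun _ _ => abs_nonneg _)
    _ = ∏ p ∈ Z, |if p ∣ d then c p else 1| := one_mul _
    _ ≤ _ := by
        apply prod_le_prod (fun _ _ => abs_nonneg _)
        intro p hp
        have hp1 : (1 : ℝ) ≤ p := by exact_mod_cast (hZ0 p hp).one_lt.le
        split_ifs
        · rcases hc p hp with h | h
          · rw [h, abs_zero]; linarith
          · rw [h, abs_of_nonneg (by linarith)]
        · rw [abs_one]; exact hp1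

end Pool.Agent.H92.G
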