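import Pool.Agent.H92.G.SvP

set_option autoImplicit false

/-! The substitution `n = s + r t` for a prime `r`, and small facts. -/

open Finset Filter Topology

namespace Pool.Agent.H92.G

variable {f : ℕ} {χ : ℕ → ℝ}

/-- the residues after the substitution -/
def RtR (Rt : ℕ → Finset ℕ) (r s : ℕ) (p : ℕ) : Finset ℕ := (range p).filter (fun c => (s + r * c) % p ∈ Rt p)

theorem sub_inj {p r s c c' : ℕ} (hr : r.Coprime p) (hc : c < p) (hc' : c' < p) (h : (s + r * c) % p = (s + r * c') % p) :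
    c = c' := by
  have h1 : s + r * c ≡ s + r * c' [MOD p] := h
  have h2 : r * c ≡ r * c' [MOD p] := Nat.ModEq.add_left_cancel' s h1
  have h3 : c ≡ c' [MOD p] := Nat.ModEq.cancel_left_of_coprime (by rw [Nat.gcd_comm]; exact hr) h2
  exact Nat.ModEq.eq_of_lt_of_lt h3 hc hc'

theorem sub_surj {p r s c' : ℕ} (hp : 0 < p) (hr : r.Coprime p) (hc' : c' < p) : ∃ c < p, (s + r * c) % p = c' := by
  obtain ⟨n, hn⟩ := exists_root (a := r) (b := s + (p - c')) hp hr
  refine ⟨n % p, Nat.mod_lt _ hp, ?_⟩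
  have h1 : s + r * (n % p) ≡ s + r * n [MOD p] := ((Nat.mod_modEq n p).mul_left r).add_left s
  have h2 : s + r * n ≡ c' [MOD p] := by
    have h3 : (s + r * n) + (p - c') ≡ c' + (p - c') [MOD p] := by
      have e1 : s + r * n + (p - c') = r * n + (s + (p - c')) := by ring
      have e2 : c' + (p - c') = p := by omega
      rw [e1, e2]
      exact (Nat.modEq_zero_iff_dvd.2 hn).trans (Nat.modEq_zero_iff_dvd.2 dvd_rfl).symm
    exact Nat.ModEq.add_right_cancel' _ h3
  have h3 := h1.trans h2
  unfold Nat.ModEq at h3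
  rw [h3, Nat.mod_eq_of_lt hc']

theorem RtR_card {Rt : ℕ → Finset ℕ} {r s p k : ℕ} (hr : r.Coprime p) (hk : (Rt p).card ≤ k) :
    (RtR Rt r s p).card ≤ k ∧ ∀ c ∈ RtR Rt r s p, c < p := by
  refine ⟨le_trans ?_ hk, fun c hc => mem_range.1 (mem_filter.1 hc).1⟩
  apply card_le_card_of_injOn (fun c => (s + r * c) % p)
  · intro c hc
    exact (mem_filter.1 hc).2
  · intro c hc c' hc' h
    rw [mem_coe] at hc hc'
    exact sub_inj hr (mem_range.1 (mem_filter.1 hc).1) (mem_range.1 (mem_filter.1 hc').1) h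

theorem gg_tr {a b b' r s p : ℕ} {Rt : ℕ → Finset ℕ} (hp : p.Prime) (hr : r.Coprime p) (hb : r * b' = a * s + b)
    (hRt : ∀ c ∈ Rt p, c < p) : gg χ a b' (RtR Rt r s) p = gg χ a b Rt p := by
  unfold gg
  apply sum_nbij (fun c => (s + r * c) % p)
  · intro c hc
    exact (mem_filter.1 hc).2
  · intro c hc c' hc' h
    rw [mem_coe] at hc hc'
    exact sub_inj hr (mem_range.1 (mem_filter.1 hc).1) (mem_range.1 (mem_filter.1 hc').1) h
  · intro c' hc'
    obtain ⟨c, hc, h⟩ := sub_surj (s := s) hp.pos hr (hRt c' hc')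
    refine ⟨c, ?_, h⟩
    rw [mem_coe]
    refine mem_filter.2 ⟨mem_range.2 hc, ?_⟩
    rw [h]
    exact hc'
  · intro c _
    congr 1
    unfold ep cc
    have h1 : p ∣ a * c + b' ↔ p ∣ a * ((s + r * c) % p) + b := by
      have h2 : a * ((s + r * c) % p) + b ≡ r * (a * c + b') [MOD p] := by
        have e : r * (a * c + b') = a * (s + r * c) + b := by
          have : r * (a * c + b') = a * (r * c) + r * b' := by ring
          rw [this, hb]; ring
        rw [e]
        exact ((Nat.mod_modEq _ p).mul_left a).add_right b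
      rw [h2.dvd_iff dvd_rfl, hp.dvd_mul]
      constructor
      · exact Or.inr
      · rintro (h3 | h3)
        · exfalso
          have h4 := Nat.dvd_gcd h3 dvd_rfl
          rw [hr] at h4
          exact hp.one_lt.ne' (Nat.dvd_one.1 h4)
        · exact h3
    simp only [h1]

/-- few prime factors -/
theorem few {y v m : ℕ} (hm : m ≠ 0) (hy : 1 < y) (h : ∀ p : ℕ, p.Prime → p ∣ m → y < p) (hmy : m < y ^ (v + 1)) :
    m.primeFactorsList.length ≤ v := by
  have h1 : ∀ l : List ℕ, (∀ p ∈ l, y < p) → y ^ l.length ≤ l.prod := by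
    intro l
    induction l with
    | nil => intro _; simp
    | cons p l ih =>
      intro hl
      rw [List.length_cons, List.prod_cons, pow_succ, mul_comm]
      exact Nat.mul_le_mul (hl p List.mem_cons_self).le (ih fun q hq => hl q (List.mem_cons_of_mem _ hq))
  have h2 := h1 m.primeFactorsList (fun p hp => h p (Nat.prime_of_mem_primeFactorsList hp)
    (Nat.dvd_of_mem_primeFactorsList hp))
  rw [Nat.prod_primeFactorsList hm] at h2
  by_contra hcon
  push Not at hcon
  have h3 : y ^ (v + 1) ≤ y ^ m.primeFactorsList.length := Nat.pow_le_pow_right (by omega) hcon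
  omega

theorem tau_le {m : ℕ} (hm : m ≠ 0) : m.divisors.card ≤ 2 ^ m.primeFactorsList.length := by
  have h1 : ∀ l : List ℕ, (∀ p ∈ l, p.Prime) → (l.prod).divisors.card ≤ 2 ^ l.length := by
    intro l
    induction l with
    | nil => intro _; simp
    | cons p l ih =>
      intro hl
      rw [List.length_cons, List.prod_cons, Nat.divisors_mul, pow_succ]
      have hp := hl p List.mem_cons_self
      have h2 := ih fun q hq => hl q (List.mem_cons_of_mem _ hq)
      have h3 := Finset.card_mul_le (s := p.divisors) (t := l.prod.divisors)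
      have h4 : p.divisors.card = 2 := by
        rw [hp.divisors, card_pair hp.one_lt.ne]
      rw [h4] at h3
      omega
  have := h1 m.primeFactorsList (fun p hp => Nat.prime_of_mem_primeFactorsList hp)
  rwa [Nat.prod_primeFactorsList hm] at this

theorem sum_inv_sqrt (D : ℕ) : ∑ n ∈ Icc 1 D, 1 / Real.sqrt n ≤ 2 * Real.sqrt D := by
  induction D with
  | zero => simp
  | succ D ih =>
    rw [sum_Icc_succ_top (by omega)]
    push_cast
    have hs : 0 < Real.sqrt ((D : ℝ) + 1) := Real.sqrt_pos.2 (by positivity)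
    have h1 : Real.sqrt D ≤ Real.sqrt ((D : ℝ) + 1) := Real.sqrt_le_sqrt (by linarith)
    have h2 : Real.sqrt ((D : ℝ) + 1) * Real.sqrt ((D : ℝ) + 1) = D + 1 := Real.mul_self_sqrt (by positivity)
    have h3 : Real.sqrt (D : ℝ) * Real.sqrt (D : ℝ) = D := Real.mul_self_sqrt (by positivity)
    have h4 : 1 / Real.sqrt ((D : ℝ) + 1) ≤ 2 * (Real.sqrt ((D : ℝ) + 1) - Real.sqrt D) := by
      rw [div_le_iff₀ hs]
      nlinarith [Real.sqrt_nonneg (D : ℝ)]
    linarith

theorem sum_inv_sq {y D : ℕ} (hy : 0 < y) : ∑ n ∈ Ioc y D, 1 / ((n : ℝ) * n) ≤ 1 / y := by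
  rcases le_or_gt y D with h | h
  · have h1 := sum_Ioc_inv_sq_le_sub (α := ℝ) hy.ne' h
    calc ∑ n ∈ Ioc y D, 1 / ((n : ℝ) * n) = ∑ n ∈ Ioc y D, ((n : ℝ) ^ 2)⁻¹ := by
          apply sum_congr rfl
          intro n _
          rw [sq, one_div]
      _ ≤ _ := h1
      _ ≤ 1 / y := by
          rw [one_div]
          have : (0 : ℝ) ≤ (D : ℝ)⁻¹ := by positivity
          linarith
  · rw [Ioc_eq_empty (by omega), sum_empty]
    positivity

end Pool.Agent.H92.G
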